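import Pool.Agent.H865_shift.Metab

/-!
Complete families pass from a subalgebra `H` with `dim H + ind H = dim L + ind L` to `L`.
-/

open Module MvPolynomial

set_option linter.unusedSectionVars false

namespace Pool.Agent.H865_shift

variable {K L : Type*} [Field K] [LieRing L] [LieAlgebra K L]

lemma val_rename_lin {M : Type*} [LieRing M] [LieAlgebra K M] (β : M →ₗ[K] L)
    (φ : MvPolynomial M K) (x : Dual K L) :
    val (rename β φ) x = val φ (x ∘ₗ β) := by
  rw [val, val, eval_rename]
  rfl

lemma grad_rename_lin {M : Type*} [LieRing M] [LieAlgebra K M] (β : M →ₗ[K] L)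
    (φ : MvPolynomial M K) (x : Dual K L) :
    grad (rename β φ) x = β (grad φ (x ∘ₗ β)) := by
  induction φ using MvPolynomial.induction_on with
  | C r => simp
  | add p q hp hq => rw [map_add, grad_add, grad_add, hp, hq, map_add]
  | mul_X p i hp =>
    rw [map_mul, grad_mul, grad_mul, hp, rename_X, grad_X, grad_X, val_X, val_X,
      val_rename_lin, map_add, map_smul, map_smul]
    rfl

theorem HasCompleteFamily.of_subalgebra [FiniteDimensional K L] {a : Dual K L}
    (H : LieSubalgebra K L) (hdim : finrank K H + index K H = finrank K L + index K L)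
    (h : HasCompleteFamily (a ∘ₗ (H.incl : H →ₗ[K] L))) : HasCompleteFamily a := by
  obtain ⟨r, F, hr, hA, hB, x₀, hx₀⟩ := h
  let β : H →ₗ[K] L := (H.incl : H →ₗ[K] L)
  have hβ : ∀ ξ η : H, ⁅β ξ, β η⁆ = β ⁅ξ, η⁆ := fun ξ η => rfl
  refine ⟨r, fun i => rename β (F i), by rw [hr, hdim], ?_, ?_, ?_⟩
  · intro i j x
    rw [grad_rename_lin, grad_rename_lin, hβ]
    exact hA i j (x ∘ₗ β)
  · intro i j x
    rw [grad_rename_lin, grad_rename_lin, hβ]
    exact hB i j (x ∘ₗ β)
  · have hinj : LinearMap.ker β = ⊥ := LinearMap.ker_eq_bot.2 Subtype.val_injective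
    obtain ⟨g, hg⟩ := LinearMap.exists_leftInverse_of_injective β hinj
    refine ⟨x₀ ∘ₗ g, ?_⟩
    have h1 : (fun i => grad (rename β (F i)) (x₀ ∘ₗ g)) = fun i => β (grad (F i) x₀) := by
      funext i
      rw [grad_rename_lin, LinearMap.comp_assoc, hg, LinearMap.comp_id]
    rw [h1]
    exact hx₀.map' β hinj

end Pool.Agent.H865_shift
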