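import Pool.Agent.H865_shift.Family

/-!
The complete family in coordinates.
-/

open MvPolynomial Module
open Pool.Agent.H865_shift.Pairing

set_option linter.unusedSectionVars false

namespace Pool.Agent.H865_shift

variable {K κ ι : Type*} [Field K] [Fintype κ] [Fintype ι]

namespace Sys

open Data

variable {d : Data K κ ι} {T₁ T₀ : Type*} [Fintype T₁] [Fintype T₀] [DecidableEq T₀]
variable (S : Sys d T₁ T₀)

/-- the common first integrals of a system -/
noncomputable abbrev O : Subalgebra K (MvPolynomial κ K) := d.inv S.F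

lemma δδ_O (t : T₁ ⊕ T₀) (x : S.O) : S.δδ t (x : MvPolynomial κ K) = 0 := x.2 t

lemma D_qv_O (b : T₁ ⊕ T₀) (x : S.O) : d.D (S.qv b) (x : MvPolynomial κ K) = 0 := by
  rcases b with t | u
  · rw [D_qv_inl, D_eq, S.δδ_O]; ring
  · rw [D_qv_inr]

lemma DA_qv_O (b : T₁ ⊕ T₀) (x : S.O) : d.DA (S.qv b) (x : MvPolynomial κ K) = 0 := by
  rcases b with t | u
  · rw [DA_qv_inl, S.δδ_O]; ring
  · rw [DA_qv_inr]

/-- linear part of a combination of basic functions -/
noncomputable def qc (c : T₁ ⊕ T₀ → S.O) : ι → MvPolynomial κ K :=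
  fun i => ∑ b, (c b : MvPolynomial κ K) * S.qv b i

/-- ideal part of a combination of basic functions -/
noncomputable def pc (c : T₁ ⊕ T₀ → S.O) : MvPolynomial κ K :=
  ∑ b, (c b : MvPolynomial κ K) * S.ph b

lemma D_qc (c : T₁ ⊕ T₀ → S.O) (x : MvPolynomial κ K) :
    d.D (S.qc c) x = ∑ b, (c b : MvPolynomial κ K) * d.D (S.qv b) x := by
  simp only [D_apply, qc, Finset.sum_mul, Finset.mul_sum]
  rw [Finset.sum_comm]
  exact Finset.sum_congr rfl fun b _ => Finset.sum_congr rfl fun i _ => by ring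

lemma DA_qc (c : T₁ ⊕ T₀ → S.O) (x : MvPolynomial κ K) :
    d.DA (S.qc c) x = ∑ b, (c b : MvPolynomial κ K) * d.DA (S.qv b) x := by
  simp only [DA_apply, qc, Finset.sum_mul, Finset.mul_sum]
  rw [Finset.sum_comm]
  exact Finset.sum_congr rfl fun b _ => Finset.sum_congr rfl fun i _ => by ring

lemma D_qc_O (c : T₁ ⊕ T₀ → S.O) (x : S.O) : d.D (S.qc c) (x : MvPolynomial κ K) = 0 := by
  rw [D_qc]
  exact Finset.sum_eq_zero fun b _ => by rw [D_qv_O, mul_zero]

lemma DA_qc_O (c : T₁ ⊕ T₀ → S.O) (x : S.O) : d.DA (S.qc c) (x : MvPolynomial κ K) = 0 := by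
  rw [DA_qc]
  exact Finset.sum_eq_zero fun b _ => by rw [DA_qv_O, mul_zero]

lemma qv_mem (b : T₁ ⊕ T₀) (i : ι) : S.qv b i ∈ S.O := by
  intro t
  rcases b with s | u
  · simp only [qv]
    exact S.kill_mul (S.kill_pow (S.kill_δ t) 2) (S.kill_F t _ i)
  · simp [qv]

lemma qc_mem (c : T₁ ⊕ T₀ → S.O) (i : ι) : S.qc c i ∈ S.O :=
  Subalgebra.sum_mem _ fun b _ => Subalgebra.mul_mem _ (c b).2 (S.qv_mem b i)

lemma D_pc (q : ι → MvPolynomial κ K) (hq : ∀ x : S.O, d.D q (x : MvPolynomial κ K) = 0)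
    (c : T₁ ⊕ T₀ → S.O) : d.D q (S.pc c) = ∑ b, (c b : MvPolynomial κ K) * d.D q (S.ph b) := by
  simp only [pc, map_sum, Derivation.leibniz, hq, smul_eq_mul, mul_zero, add_zero]

lemma DA_pc (q : ι → MvPolynomial κ K) (hq : ∀ x : S.O, d.DA q (x : MvPolynomial κ K) = 0)
    (c : T₁ ⊕ T₀ → S.O) : d.DA q (S.pc c) = ∑ b, (c b : MvPolynomial κ K) * d.DA q (S.ph b) := by
  simp only [pc, map_sum, Derivation.leibniz, hq, smul_eq_mul, mul_zero, add_zero]

lemma G_qc (c c' : T₁ ⊕ T₀ → S.O) : d.G (S.qc c) (S.qc c') =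
    ∑ b, ∑ b', (c b : MvPolynomial κ K) * d.G (S.qv b) (S.qv b') * (c' b' : MvPolynomial κ K) := by
  have := bil_comp (R := MvPolynomial κ K) (n := ι) (m := T₁ ⊕ T₀) (fun i k => d.g i k)
    (fun b i => S.qv b i) (fun b => (c b : MvPolynomial κ K)) (fun b => (c' b : MvPolynomial κ K))
  have e : ∀ p q : ι → MvPolynomial κ K, d.G p q = bil (fun i k => d.g i k) p q := by
    intro p q
    simp only [G, bil]
    exact Finset.sum_congr rfl fun i _ => Finset.sum_congr rfl fun k _ => by ring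
  rw [e]
  simp only [e]
  exact this

lemma GA_qc (c c' : T₁ ⊕ T₀ → S.O) : d.GA (S.qc c) (S.qc c') =
    ∑ b, ∑ b', (c b : MvPolynomial κ K) * d.GA (S.qv b) (S.qv b') * (c' b' : MvPolynomial κ K) := by
  have := bil_comp (R := MvPolynomial κ K) (n := ι) (m := T₁ ⊕ T₀) (fun i k => d.ga i k)
    (fun b i => S.qv b i) (fun b => (c b : MvPolynomial κ K)) (fun b => (c' b : MvPolynomial κ K))
  have e : ∀ p q : ι → MvPolynomial κ K, d.GA p q = bil (fun i k => d.ga i k) p q := by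
    intro p q
    simp only [GA, bil]
    exact Finset.sum_congr rfl fun i _ => Finset.sum_congr rfl fun k _ => by ring
  rw [e]
  simp only [e]
  exact this

/-- The Lie-Poisson bracket of two combinations of basic functions. -/
lemma bracket_A (c c' : T₁ ⊕ T₀ → S.O) :
    d.D (S.qc c) (S.pc c') - d.D (S.qc c') (S.pc c) + d.G (S.qc c) (S.qc c') =
      ∑ b, ∑ b', (c b : MvPolynomial κ K) * S.PA b b' * (c' b' : MvPolynomial κ K) := by
  rw [S.D_pc _ (S.D_qc_O c), S.D_pc _ (S.D_qc_O c'), G_qc]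
  simp only [D_qc, Finset.mul_sum]
  conv_lhs =>
    rw [Finset.sum_comm (f := fun b' b => (c' b' : MvPolynomial κ K) * ((c b : MvPolynomial κ K) *
      d.D (S.qv b) (S.ph b')))]
  rw [← Finset.sum_sub_distrib, ← Finset.sum_add_distrib]
  refine Finset.sum_congr rfl fun b _ => ?_
  rw [← Finset.sum_sub_distrib, ← Finset.sum_add_distrib]
  refine Finset.sum_congr rfl fun b' _ => ?_
  unfold PA
  ring

/-- The constant bracket of two combinations of basic functions. -/
lemma bracket_B (c c' : T₁ ⊕ T₀ → S.O) :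
    d.DA (S.qc c) (S.pc c') - d.DA (S.qc c') (S.pc c) + d.GA (S.qc c) (S.qc c') =
      ∑ b, ∑ b', (c b : MvPolynomial κ K) * S.PB b b' * (c' b' : MvPolynomial κ K) := by
  rw [S.DA_pc _ (S.DA_qc_O c), S.DA_pc _ (S.DA_qc_O c'), GA_qc]
  simp only [DA_qc, Finset.mul_sum]
  conv_lhs =>
    rw [Finset.sum_comm (f := fun b' b => (c' b' : MvPolynomial κ K) * ((c b : MvPolynomial κ K) *
      d.DA (S.qv b) (S.ph b')))]
  rw [← Finset.sum_sub_distrib, ← Finset.sum_add_distrib]
  refine Finset.sum_congr rfl fun b _ => ?_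
  rw [← Finset.sum_sub_distrib, ← Finset.sum_add_distrib]
  refine Finset.sum_congr rfl fun b' _ => ?_
  unfold PB
  ring

end Sys

end Pool.Agent.H865_shift
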