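import Mathlib

/-!
Bi-Lagrangian subspaces of a pencil of alternating bilinear forms.

For two alternating forms `A`, `B` on a finite-dimensional space over a field of characteristic
not two there is a subspace `L` which is isotropic for both and satisfies
`L = L^perp` with respect to `A + c B` for all but finitely many scalars `c`.
-/

open LinearMap Module Submodule

namespace Pool.Agent.H865_shift.BiIso

variable {F V : Type*} [Field F] [AddCommGroup V] [Module F V]

/-- common orthogonal of a subspace -/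
def comOrth (A B : LinearMap.BilinForm F V) (L : Submodule F V) : Submodule F V :=
  A.orthogonal L ⊓ B.orthogonal L

/-- isotropic for both forms, and for almost all members of the pencil the orthogonal is
contained in the common orthogonal. -/
def Good (A B : LinearMap.BilinForm F V) (L : Submodule F V) : Prop :=
  (∀ x ∈ L, ∀ y ∈ L, A x y = 0) ∧ (∀ x ∈ L, ∀ y ∈ L, B x y = 0) ∧
    ∃ S : Finset F, ∀ c ∉ S, (A + c • B).orthogonal L ≤ comOrth A B L

lemma anti {C : LinearMap.BilinForm F V} (hC : C.IsAlt) (x y : V) : C x y = - C y x := by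
  have h := hC (x + y)
  simp only [map_add, LinearMap.add_apply, hC x, hC y, zero_add, add_zero] at h
  exact eq_neg_of_add_eq_zero_right h

lemma mem_comOrth {A B : LinearMap.BilinForm F V} {L : Submodule F V} {x : V} :
    x ∈ comOrth A B L ↔ (∀ l ∈ L, A l x = 0) ∧ (∀ l ∈ L, B l x = 0) := by
  unfold comOrth
  rw [Submodule.mem_inf, LinearMap.BilinForm.mem_orthogonal_iff,
    LinearMap.BilinForm.mem_orthogonal_iff]

lemma good_bot (A B : LinearMap.BilinForm F V) : Good A B ⊥ := by
  refine ⟨?_, ?_, ∅, ?_⟩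
  · intro x hx y _
    rw [(Submodule.mem_bot F).1 hx]; simp
  · intro x hx y _
    rw [(Submodule.mem_bot F).1 hx]; simp
  · intro c _ x _
    rw [mem_comOrth]
    constructor
    · intro l hl
      rw [(Submodule.mem_bot F).1 hl]; simp
    · intro l hl
      rw [(Submodule.mem_bot F).1 hl]; simp

/-- First enlargement step. -/
lemma step_one {A B : LinearMap.BilinForm F V} (hA : A.IsAlt) (hB : B.IsAlt)
    {L : Submodule F V} (hL : Good A B L) {x : V} (hx : x ∈ comOrth A B L)
    {p q : F} (hpq : p ≠ 0 ∨ q ≠ 0)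
    (h : ∀ y ∈ comOrth A B L, p * A x y + q * B x y = 0) : Good A B (L ⊔ span F {x}) := by
  classical
  obtain ⟨hLA, hLB, S, hS⟩ := hL
  have hx' := mem_comOrth.1 hx
  have iso : ∀ C : LinearMap.BilinForm F V, C.IsAlt → (∀ x ∈ L, ∀ y ∈ L, C x y = 0) →
      (∀ l ∈ L, C l x = 0) → ∀ u ∈ L ⊔ span F {x}, ∀ v ∈ L ⊔ span F {x}, C u v = 0 := by
    intro C hC hCL hCx u hu v hv
    obtain ⟨l, hl, z, hz, rfl⟩ := Submodule.mem_sup.1 hu
    obtain ⟨l', hl', z', hz', rfl⟩ := Submodule.mem_sup.1 hv
    obtain ⟨s, rfl⟩ := Submodule.mem_span_singleton.1 hz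
    obtain ⟨s', rfl⟩ := Submodule.mem_span_singleton.1 hz'
    have h1 : C x l' = 0 := by
      rw [anti hC, hCx l' hl', neg_zero]
    simp [hCL l hl l' hl', hCx l hl, h1, hC x]
  refine ⟨iso A hA hLA hx'.1, iso B hB hLB hx'.2, insert (q / p) S, ?_⟩
  intro c hc y hy
  rw [Finset.mem_insert, not_or] at hc
  have hyL : y ∈ comOrth A B L := by
    apply hS c hc.2
    rw [LinearMap.BilinForm.mem_orthogonal_iff] at hy ⊢
    intro l hl
    exact hy l (Submodule.mem_sup_left hl)
  have hxy : A x y + c * B x y = 0 := by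
    rw [LinearMap.BilinForm.mem_orthogonal_iff] at hy
    have := hy x (Submodule.mem_sup_right (Submodule.mem_span_singleton_self x))
    simpa using this
  have hB0 : B x y = 0 := by
    by_cases hp : p = 0
    · have hq : q ≠ 0 := by
        rcases hpq with h | h
        · exact absurd hp h
        · exact h
      have := h y hyL
      rw [hp] at this
      simpa [hq] using this
    · have h1 := h y hyL
      have h2 : (q - p * c) * B x y = 0 := by linear_combination h1 - p * hxy
      rcases mul_eq_zero.1 h2 with h3 | h3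
      · exfalso
        apply hc.1
        field_simp
        linear_combination -h3
      · exact h3
  have hA0 : A x y = 0 := by rw [hB0] at hxy; simpa using hxy
  rw [mem_comOrth] at hyL ⊢
  constructor
  · intro u hu
    obtain ⟨l, hl, z, hz, rfl⟩ := Submodule.mem_sup.1 hu
    obtain ⟨s, rfl⟩ := Submodule.mem_span_singleton.1 hz
    simp [hyL.1 l hl, hA0]
  · intro u hu
    obtain ⟨l, hl, z, hz, rfl⟩ := Submodule.mem_sup.1 hu
    obtain ⟨s, rfl⟩ := Submodule.mem_span_singleton.1 hz
    simp [hyL.2 l hl, hB0]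

/-- Second enlargement step. -/
lemma step_two [FiniteDimensional F V] (h2 : (2 : F) ≠ 0)
    {A B : LinearMap.BilinForm F V} (hA : A.IsAlt) (hB : B.IsAlt)
    {L : Submodule F V} (hL : Good A B L) (hlt : L < comOrth A B L)
    (h : ∀ x ∈ comOrth A B L, x ∉ L → ∀ p q : F, (p ≠ 0 ∨ q ≠ 0) →
      ∃ y ∈ comOrth A B L, p * A x y + q * B x y ≠ 0) :
    ∃ L', L < L' ∧ Good A B L' := by
  classical
  obtain ⟨hLA, hLB, S, hS⟩ := hL
  set M := comOrth A B L with hM
  obtain ⟨U₀, hU₀⟩ := Submodule.exists_isCompl L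
  set U : Submodule F V := U₀ ⊓ M with hU
  have hsup : L ⊔ U = M := by
    rw [hU, ← sup_inf_assoc_of_le U₀ hlt.le, hU₀.sup_eq_top, top_inf_eq]
  have hinf : ∀ x ∈ U, x ∈ L → x = 0 := by
    intro x hx hxL
    have : x ∈ L ⊓ U₀ := ⟨hxL, hx.1⟩
    rw [hU₀.inf_eq_bot] at this
    exact (Submodule.mem_bot F).1 this
  have hUM : U ≤ M := inf_le_right
  -- elements of L pair trivially with M
  have hLM_A : ∀ l ∈ L, ∀ y ∈ M, A l y = 0 := fun l hl y hy => (mem_comOrth.1 hy).1 l hl
  have hLM_B : ∀ l ∈ L, ∀ y ∈ M, B l y = 0 := fun l hl y hy => (mem_comOrth.1 hy).2 l hl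
  have hML_A : ∀ y ∈ M, ∀ l ∈ L, A y l = 0 := fun y hy l hl => by
    rw [anti hA, hLM_A l hl y hy, neg_zero]
  have hML_B : ∀ y ∈ M, ∀ l ∈ L, B y l = 0 := fun y hy l hl => by
    rw [anti hB, hLM_B l hl y hy, neg_zero]
  have hBUsep : ∀ u : U, (∀ v : U, B u v = 0) → u = 0 := by
    intro u hu
    by_contra hne
    have huL : (u : V) ∉ L := fun hh => hne (Subtype.ext (hinf u u.2 hh))
    obtain ⟨y, hy, hne'⟩ := h u (hUM u.2) huL 0 1 (Or.inr one_ne_zero)
    apply hne'
    rw [← hsup] at hy
    obtain ⟨l, hl, z, hz, rfl⟩ := Submodule.mem_sup.1 hy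
    have := hu ⟨z, hz⟩
    simp [hML_B u (hUM u.2) l hl, this]
  have hnd : (B.restrict U).Nondegenerate := by
    constructor
    · intro u hu
      exact hBUsep u (fun v => hu v)
    · intro u hu
      apply hBUsep u
      intro v
      rw [anti hB]
      have := hu v
      simpa using this
  set R : U →ₗ[F] U := (A.restrict U).symmCompOfNondegenerate (B.restrict U) hnd with hR
  have hRU : ∀ u v : U, B (R u) v = A u v := by
    intro u v
    have := LinearMap.BilinForm.symmCompOfNondegenerate_left_apply (A.restrict U) hnd v u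
    simpa using this
  have hRM : ∀ u : U, ∀ y ∈ M, B (R u) y = A u y := by
    intro u y hy
    rw [← hsup] at hy
    obtain ⟨l, hl, z, hz, rfl⟩ := Submodule.mem_sup.1 hy
    rw [map_add, map_add, hML_B _ (hUM (R u).2) l hl, hML_A _ (hUM u.2) l hl]
    have := hRU u ⟨z, hz⟩
    simpa using this
  -- self-adjointness
  have hself : ∀ u v : U, B (R u) v = B u (R v) := by
    intro u v
    rw [hRU, anti hA, ← hRU, anti hB (u : V)]
  have hpow : ∀ (i : ℕ) (u v : U), B ((R ^ i) u : U) v = B u ((R ^ i) v : U) := by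
    intro i
    induction i with
    | zero => intro u v; simp
    | succ n ih =>
      intro u v
      rw [pow_succ', Module.End.mul_apply, hself, ih, ← Module.End.mul_apply, ← pow_succ, pow_succ']
  -- a nonzero vector
  obtain ⟨m, hm, hmL⟩ := Set.exists_of_ssubset hlt
  have hm' : m ∈ M := hm
  rw [← hsup] at hm'
  obtain ⟨l, hl, x, hx, hlx⟩ := Submodule.mem_sup.1 hm'
  have hxne : x ∉ L := by
    intro hh
    apply hmL
    rw [← hlx]
    exact L.add_mem hl hh
  set x₀ : U := ⟨x, hx⟩ with hx₀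
  have hbb : ∀ i j : ℕ, B ((R ^ i) x₀ : U) ((R ^ j) x₀ : U) = 0 := by
    intro i j
    have e1 : B ((R ^ i) x₀ : U) ((R ^ j) x₀ : U) = B (x₀ : U) ((R ^ (i + j)) x₀ : U) := by
      rw [hpow, ← Module.End.mul_apply, ← pow_add]
    have e2 : B ((R ^ j) x₀ : U) ((R ^ i) x₀ : U) = B (x₀ : U) ((R ^ (i + j)) x₀ : U) := by
      rw [hpow, ← Module.End.mul_apply, ← pow_add, add_comm]
    have e3 : B ((R ^ i) x₀ : U) ((R ^ j) x₀ : U) = - B ((R ^ j) x₀ : U) ((R ^ i) x₀ : U) := by
      rw [anti hB]
    have e4 : (2 : F) * B ((R ^ i) x₀ : U) ((R ^ j) x₀ : U) = 0 := by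
      linear_combination e1 + e3 - e2
    exact (mul_eq_zero.1 e4).resolve_left h2
  set C : Submodule F U := span F (Set.range fun k : ℕ => (R ^ k) x₀) with hC
  have hCB : ∀ u ∈ C, ∀ v ∈ C, B (u : V) (v : V) = 0 := by
    intro u hu v hv
    refine Submodule.span_induction₂ (R := F) (M := U) (N := U)
      (p := fun (u : U) (v : U) _ _ => B (u : V) (v : V) = 0)
      ?_ ?_ ?_ ?_ ?_ ?_ ?_ hu hv
    · rintro _ _ ⟨i, rfl⟩ ⟨j, rfl⟩
      exact hbb i j
    · intro y _; simp
    · intro y _; simp
    · intro a b c _ _ _ h1 h2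
      simp [h1, h2]
    · intro a b c _ _ _ h1 h2
      simp [h1, h2]
    · intro r a b _ _ h1
      simp [h1]
    · intro r a b _ _ h1
      simp [h1]
  have hCR : ∀ u ∈ C, R u ∈ C := by
    intro u hu
    refine Submodule.span_induction (p := fun u _ => R u ∈ C) ?_ ?_ ?_ ?_ hu
    · rintro _ ⟨i, rfl⟩
      apply Submodule.subset_span
      refine ⟨i + 1, ?_⟩
      simp only [pow_succ', Module.End.mul_apply]
    · simp
    · intro a b _ _ h1 h2
      rw [map_add]; exact C.add_mem h1 h2
    · intro r a _ h1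
      rw [map_smul]; exact C.smul_mem r h1
  have hCA : ∀ u ∈ C, ∀ v ∈ C, A (u : V) (v : V) = 0 := by
    intro u hu v hv
    rw [← hRU]
    exact hCB _ (hCR u hu) v hv
  refine ⟨L ⊔ C.map U.subtype, ?_, ?_, ?_, S, ?_⟩
  · refine lt_of_le_of_ne le_sup_left ?_
    intro heq
    apply hxne
    rw [heq]
    apply Submodule.mem_sup_right
    refine ⟨x₀, Submodule.subset_span ⟨0, by simp⟩, rfl⟩
  · intro a ha b hb
    obtain ⟨l, hl, z, ⟨u, hu, rfl⟩, rfl⟩ := Submodule.mem_sup.1 ha
    obtain ⟨l', hl', z', ⟨u', hu', rfl⟩, rfl⟩ := Submodule.mem_sup.1 hb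
    simp only [Submodule.coe_subtype, map_add, LinearMap.add_apply]
    rw [hLA l hl l' hl', hLM_A l hl _ (hUM u'.2), hML_A _ (hUM u.2) l' hl', hCA u hu u' hu']
    simp
  · intro a ha b hb
    obtain ⟨l, hl, z, ⟨u, hu, rfl⟩, rfl⟩ := Submodule.mem_sup.1 ha
    obtain ⟨l', hl', z', ⟨u', hu', rfl⟩, rfl⟩ := Submodule.mem_sup.1 hb
    simp only [Submodule.coe_subtype, map_add, LinearMap.add_apply]
    rw [hLB l hl l' hl', hLM_B l hl _ (hUM u'.2), hML_B _ (hUM u.2) l' hl', hCB u hu u' hu']
    simp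
  · intro c hc y hy
    have hyM : y ∈ M := by
      apply hS c hc
      rw [LinearMap.BilinForm.mem_orthogonal_iff] at hy ⊢
      intro l hl
      exact hy l (Submodule.mem_sup_left hl)
    have hy1 : ∀ u ∈ C, A (u : V) y + c * B (u : V) y = 0 := by
      intro u hu
      rw [LinearMap.BilinForm.mem_orthogonal_iff] at hy
      have := hy u (Submodule.mem_sup_right ⟨u, hu, rfl⟩)
      simpa using this
    -- T = R + c on C
    let T : C →ₗ[F] C := ((R + c • LinearMap.id).restrict (p := C) (q := C) (by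
      intro u hu
      simp only [LinearMap.add_apply, LinearMap.smul_apply, LinearMap.id_apply]
      exact C.add_mem (hCR u hu) (C.smul_mem c hu)))
    have hTinj : Function.Injective T := by
      rw [← LinearMap.ker_eq_bot, LinearMap.ker_eq_bot']
      intro u hu
      have hu' : R (u : U) + c • (u : U) = 0 := by
        have := congrArg (fun z : C => (z : U)) hu
        simpa [T] using this
      by_contra hne
      have hne1 : ((u : U) : V) ∉ L := by
        intro hh
        apply hne
        apply Subtype.ext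
        apply Subtype.ext
        simpa using hinf _ (u : U).2 hh
      obtain ⟨y', hy', hne'⟩ := h _ (hUM (u : U).2) hne1 1 c (Or.inl one_ne_zero)
      apply hne'
      rw [one_mul, ← hRM _ y' hy']
      have : B ((R (u : U) + c • (u : U) : U) : V) y' = 0 := by rw [hu']; simp
      simpa using this
    have hTsurj : Function.Surjective T := LinearMap.injective_iff_surjective.1 hTinj
    have hB0 : ∀ u ∈ C, B (u : V) y = 0 := by
      intro u hu
      obtain ⟨w, hw⟩ := hTsurj ⟨u, hu⟩
      have hw' : R (w : U) + c • (w : U) = u := by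
        have := congrArg (fun z : C => (z : U)) hw
        simpa [T] using this
      rw [← hw']
      have := hy1 w w.2
      rw [← hRM _ y hyM] at this
      simpa using this
    have hA0 : ∀ u ∈ C, A (u : V) y = 0 := by
      intro u hu
      have := hy1 u hu
      rw [hB0 u hu] at this
      simpa using this
    rw [mem_comOrth]
    constructor
    · intro a ha
      obtain ⟨l, hl, z, ⟨u, hu, rfl⟩, rfl⟩ := Submodule.mem_sup.1 ha
      simp [hLM_A l hl y hyM, hA0 u hu]
    · intro a ha
      obtain ⟨l, hl, z, ⟨u, hu, rfl⟩, rfl⟩ := Submodule.mem_sup.1 ha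
      simp [hLM_B l hl y hyM, hB0 u hu]

/-- **Bi-Lagrangian subspaces.** -/
theorem exists_biLagrangian [FiniteDimensional F V] (h2 : (2 : F) ≠ 0)
    (A B : LinearMap.BilinForm F V) (hA : A.IsAlt) (hB : B.IsAlt) :
    ∃ L : Submodule F V, (∀ x ∈ L, ∀ y ∈ L, A x y = 0) ∧ (∀ x ∈ L, ∀ y ∈ L, B x y = 0) ∧
      ∃ S : Finset F, ∀ c ∉ S, (A + c • B).orthogonal L = L := by
  obtain ⟨L, hL, hmax⟩ := WellFounded.has_min
    (wellFounded_gt (α := Submodule F V)) {L | Good A B L} ⟨⊥, good_bot A B⟩
  have hle : L ≤ comOrth A B L := fun x hx =>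
    mem_comOrth.2 ⟨fun l hl => hL.1 l hl x hx, fun l hl => hL.2.1 l hl x hx⟩
  have heq : comOrth A B L = L := by
    by_contra hne
    have hlt : L < comOrth A B L := lt_of_le_of_ne hle (Ne.symm hne)
    by_cases hc : ∃ x ∈ comOrth A B L, x ∉ L ∧ ∃ p q : F, (p ≠ 0 ∨ q ≠ 0) ∧
        ∀ y ∈ comOrth A B L, p * A x y + q * B x y = 0
    · obtain ⟨x, hx, hxL, p, q, hpq, hh⟩ := hc
      apply hmax _ (step_one hA hB hL hx hpq hh)
      refine lt_of_le_of_ne le_sup_left ?_
      intro he
      apply hxL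
      rw [he]
      exact Submodule.mem_sup_right (Submodule.mem_span_singleton_self x)
    · push Not at hc
      obtain ⟨L', hlt', hG⟩ := step_two h2 hA hB hL hlt
        (fun x hx hxL p q hpq => hc x hx hxL p q hpq)
      exact hmax _ hG hlt'
  obtain ⟨h1, h3, S, hS⟩ := hL
  refine ⟨L, h1, h3, S, fun c hc => le_antisymm ?_ ?_⟩
  · exact (hS c hc).trans heq.le
  · intro x hx
    rw [LinearMap.BilinForm.mem_orthogonal_iff]
    intro l hl
    simp [h1 l hl x hx, h3 l hl x hx]

end Pool.Agent.H865_shift.BiIso
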