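import Pool.Agent.H865_shift.Good

/-!
The algebraic core: correcting the linear functions attached to shifted good vectors so that all
brackets become common first integrals.
-/

open MvPolynomial

set_option linter.unusedSectionVars false

namespace Pool.Agent.H865_shift

variable {K κ ι : Type*} [Field K] [Fintype κ] [Fintype ι]

namespace Data

variable (d : Data K κ ι)

/-- `[e_i, e_k]` as a linear form -/
noncomputable def g (i k : ι) : MvPolynomial κ K := lin (d.gam i k)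

/-- `⟨a, [e_i, e_k]⟩` -/
noncomputable def ga (i k : ι) : MvPolynomial κ K := C (∑ l, d.gam i k l * d.a l)

/-- the form `γ` -/
noncomputable def G (p q : ι → MvPolynomial κ K) : MvPolynomial κ K :=
  ∑ i, ∑ k, p i * q k * d.g i k

/-- the constant form `γ_a` -/
noncomputable def GA (p q : ι → MvPolynomial κ K) : MvPolynomial κ K :=
  ∑ i, ∑ k, p i * q k * d.ga i k

lemma g_anti (i k : ι) : d.g i k = - d.g k i := by
  simp only [g, lin]
  rw [← Finset.sum_neg_distrib]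
  refine Finset.sum_congr rfl fun l _ => ?_
  rw [d.gam_anti i k l, map_neg]; ring

lemma ga_anti (i k : ι) : d.ga i k = - d.ga k i := by
  simp only [ga]
  rw [← map_neg, ← Finset.sum_neg_distrib]
  congr 1
  refine Finset.sum_congr rfl fun l _ => ?_
  rw [d.gam_anti i k l]; ring

lemma G_anti (p q : ι → MvPolynomial κ K) : d.G p q = - d.G q p := by
  simp only [G]
  rw [Finset.sum_comm, ← Finset.sum_neg_distrib]
  refine Finset.sum_congr rfl fun i _ => ?_
  rw [← Finset.sum_neg_distrib]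
  refine Finset.sum_congr rfl fun k _ => ?_
  rw [d.g_anti k i]; ring

lemma GA_anti (p q : ι → MvPolynomial κ K) : d.GA p q = - d.GA q p := by
  simp only [GA]
  rw [Finset.sum_comm, ← Finset.sum_neg_distrib]
  refine Finset.sum_congr rfl fun i _ => ?_
  rw [← Finset.sum_neg_distrib]
  refine Finset.sum_congr rfl fun k _ => ?_
  rw [d.ga_anti k i]; ring

lemma Xd_g_cyc (i j k : ι) : d.Xd i (d.g j k) + d.Xd j (d.g k i) + d.Xd k (d.g i j) = 0 := by
  unfold g
  rw [Xd_lin, Xd_lin, Xd_lin]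
  simp only [lin]
  rw [← Finset.sum_add_distrib, ← Finset.sum_add_distrib]
  apply Finset.sum_eq_zero
  intro l _
  rw [← add_mul, ← add_mul, ← map_add, ← map_add, ← Finset.sum_add_distrib,
    ← Finset.sum_add_distrib, d.jac i j k l]
  simp

lemma Xa_g (i j k : ι) : d.Xa i (d.g j k) =
    C (∑ l, (∑ m, d.gam j k m * d.eps i m l) * d.a l) := by
  simp only [g, deriv_lin, Xa_X, Ea, ← map_mul, ← map_sum]
  congr 1
  simp only [Finset.mul_sum, Finset.sum_mul]
  rw [Finset.sum_comm]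
  exact Finset.sum_congr rfl fun l _ => Finset.sum_congr rfl fun m _ => by ring

lemma Xa_g_cyc (i j k : ι) : d.Xa i (d.g j k) + d.Xa j (d.g k i) + d.Xa k (d.g i j) = 0 := by
  rw [Xa_g, Xa_g, Xa_g, ← map_add, ← map_add]
  rw [← map_zero (C : K →+* MvPolynomial κ K)]
  congr 1
  rw [← Finset.sum_add_distrib, ← Finset.sum_add_distrib]
  apply Finset.sum_eq_zero
  intro l _
  have := d.jac i j k l
  rw [← add_mul, ← add_mul, ← Finset.sum_add_distrib, ← Finset.sum_add_distrib, this, zero_mul]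

/-- Derivation of the form `G` when the entries are annihilated. -/
lemma deriv_G (δ : Derivation K (MvPolynomial κ K) (MvPolynomial κ K))
    {p q : ι → MvPolynomial κ K} (hp : ∀ i, δ (p i) = 0) (hq : ∀ i, δ (q i) = 0) :
    δ (d.G p q) = ∑ i, ∑ k, p i * q k * δ (d.g i k) := by
  simp only [G, map_sum, Derivation.leibniz, smul_eq_mul, hp, hq]
  refine Finset.sum_congr rfl fun i _ => Finset.sum_congr rfl fun k _ => by ring

/-- The cyclic identity for a family of derivations. -/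
lemma cyc_G (Y : ι → Derivation K (MvPolynomial κ K) (MvPolynomial κ K))
    (hY : ∀ i j k, Y i (d.g j k) + Y j (d.g k i) + Y k (d.g i j) = 0)
    {p q r : ι → MvPolynomial κ K} {δp δq δr : Derivation K (MvPolynomial κ K) (MvPolynomial κ K)}
    (hp : ∀ x, δp x = ∑ i, p i * Y i x) (hq : ∀ x, δq x = ∑ i, q i * Y i x)
    (hr : ∀ x, δr x = ∑ i, r i * Y i x)
    (hpq : ∀ i, δp (q i) = 0) (hpr : ∀ i, δp (r i) = 0) (hqp : ∀ i, δq (p i) = 0)
    (hqr : ∀ i, δq (r i) = 0) (hrp : ∀ i, δr (p i) = 0) (hrq : ∀ i, δr (q i) = 0) :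
    δp (d.G q r) + δq (d.G r p) + δr (d.G p q) = 0 := by
  rw [deriv_G d δp hpq hpr, deriv_G d δq hqr hqp, deriv_G d δr hrp hrq]
  simp only [hp, hq, hr, Finset.mul_sum]
  have e1 : ∑ j, ∑ k, ∑ i, q j * r k * (p i * Y i (d.g j k)) =
      ∑ i, ∑ j, ∑ k, p i * q j * r k * Y i (d.g j k) := by
    rw [Finset.sum_congr rfl fun j _ => Finset.sum_comm, Finset.sum_comm]
    exact Finset.sum_congr rfl fun i _ => Finset.sum_congr rfl fun j _ =>
      Finset.sum_congr rfl fun k _ => by ring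
  have e2 : ∑ k, ∑ i, ∑ j, r k * p i * (q j * Y j (d.g k i)) =
      ∑ i, ∑ j, ∑ k, p i * q j * r k * Y j (d.g k i) := by
    rw [Finset.sum_comm]
    rw [Finset.sum_congr rfl fun i _ => Finset.sum_comm]
    exact Finset.sum_congr rfl fun i _ => Finset.sum_congr rfl fun j _ =>
      Finset.sum_congr rfl fun k _ => by ring
  have e3 : ∑ i, ∑ j, ∑ k, p i * q j * (r k * Y k (d.g i j)) =
      ∑ i, ∑ j, ∑ k, p i * q j * r k * Y k (d.g i j) := by
    exact Finset.sum_congr rfl fun i _ => Finset.sum_congr rfl fun j _ =>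
      Finset.sum_congr rfl fun k _ => by ring
  rw [e1, e2, e3, ← Finset.sum_add_distrib, ← Finset.sum_add_distrib]
  apply Finset.sum_eq_zero
  intro i _
  rw [← Finset.sum_add_distrib, ← Finset.sum_add_distrib]
  apply Finset.sum_eq_zero
  intro j _
  rw [← Finset.sum_add_distrib, ← Finset.sum_add_distrib]
  apply Finset.sum_eq_zero
  intro k _
  have := hY i j k
  linear_combination p i * q j * r k * this

/-- The vector `v_f`. -/
noncomputable def v (f : ι → MvPolynomial κ K) (j : κ) : MvPolynomial κ K :=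
  ∑ i, f i * d.Ea i j

lemma DA_X (f : ι → MvPolynomial κ K) (j : κ) : d.DA f (X j) = d.v f j := by
  rw [DA_apply, v]; simp

end Data

/-- The system of shifted good vectors from which the family is built. -/
structure Sys (d : Data K κ ι) (T₁ T₀ : Type*) [Fintype T₁] [Fintype T₀] [DecidableEq T₀] where
  F : T₁ ⊕ T₀ → ι → MvPolynomial κ K
  c : T₁ ⊕ T₀ → K
  inj : Function.Injective c
  shift : ∀ t, d.IsShift (c t) (F t)
  B : κ → T₀ → MvPolynomial κ K
  δ : MvPolynomial κ K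
  hB : ∀ t j u, d.DA (F t) (B j u) = 0
  hδ : ∀ t, d.DA (F t) δ = 0
  dual : ∀ u u', ∑ j, d.v (F (Sum.inr u)) j * B j u' = if u = u' then δ else 0
  span : ∀ t j, δ * d.v (F t) j = ∑ u, (∑ l, B l u * d.v (F t) l) * d.v (F (Sum.inr u)) j

namespace Sys

open Data

variable {d : Data K κ ι} {T₁ T₀ : Type*} [Fintype T₁] [Fintype T₀] [DecidableEq T₀]
variable (S : Sys d T₁ T₀)

/-- the derivations -/
noncomputable def δδ (t : T₁ ⊕ T₀) : Derivation K (MvPolynomial κ K) (MvPolynomial κ K) :=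
  d.DA (S.F t)

lemma kill_F (s t : T₁ ⊕ T₀) (i : ι) : S.δδ s (S.F t i) = 0 :=
  IsShift.DA_eq_zero d (S.shift s) (S.shift t) i

lemma D_eq (t : T₁ ⊕ T₀) (x : MvPolynomial κ K) : d.D (S.F t) x = - (C (S.c t) * S.δδ t x) :=
  IsShift.D_eq d (S.shift t) x

lemma kill_F' (s t : T₁ ⊕ T₀) (i : ι) : d.D (S.F s) (S.F t i) = 0 := by
  rw [D_eq, kill_F]; simp

lemma δδ_X (t : T₁ ⊕ T₀) (j : κ) : S.δδ t (X j) = d.v (S.F t) j := DA_X d _ _

lemma kill_v (s t : T₁ ⊕ T₀) (j : κ) : S.δδ s (d.v (S.F t) j) = 0 := by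
  simp only [v, map_sum, Derivation.leibniz, kill_F, Ea, derivation_C]
  simp

/-- `Γ_{st}` -/
noncomputable def Γ (s t : T₁ ⊕ T₀) : MvPolynomial κ K := d.G (S.F s) (S.F t)

lemma Γ_anti (s t : T₁ ⊕ T₀) : S.Γ s t = - S.Γ t s := G_anti d _ _

lemma kill_kill_Γ (r s t u : T₁ ⊕ T₀) : S.δδ r (S.δδ s (S.Γ t u)) = 0 := by
  rw [Γ, deriv_G d (S.δδ s) (S.kill_F s t) (S.kill_F s u)]
  have : ∀ i k, S.δδ s (d.g i k) = ∑ h, S.F s h * d.Xa h (d.g i k) := fun i k => DA_apply d _ _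
  simp only [this, Xa_g, map_sum, Derivation.leibniz, kill_F, derivation_C, smul_zero, add_zero,
    Finset.sum_const_zero]

lemma cyc_B (r s t : T₁ ⊕ T₀) :
    S.δδ r (S.Γ s t) + S.δδ s (S.Γ t r) + S.δδ t (S.Γ r s) = 0 :=
  cyc_G d d.Xa (Xa_g_cyc d) (DA_apply d _) (DA_apply d _) (DA_apply d _)
    (S.kill_F _ _) (S.kill_F _ _) (S.kill_F _ _) (S.kill_F _ _) (S.kill_F _ _) (S.kill_F _ _)

lemma cyc_A (r s t : T₁ ⊕ T₀) :
    C (S.c r) * S.δδ r (S.Γ s t) + C (S.c s) * S.δδ s (S.Γ t r) +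
      C (S.c t) * S.δδ t (S.Γ r s) = 0 := by
  have := cyc_G d d.Xd (Xd_g_cyc d) (D_apply d (S.F r)) (D_apply d (S.F s)) (D_apply d (S.F t))
    (S.kill_F' _ _) (S.kill_F' _ _) (S.kill_F' _ _) (S.kill_F' _ _) (S.kill_F' _ _) (S.kill_F' _ _)
  rw [D_eq, D_eq, D_eq] at this
  unfold Γ
  linear_combination -this

/-- elimination of one term from the two cyclic identities -/
lemma elim (r s t : T₁ ⊕ T₀) :
    C (S.c r - S.c s) * S.δδ r (S.Γ s t) = C (S.c s - S.c t) * S.δδ t (S.Γ r s) := by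
  have h1 := S.cyc_A r s t
  have h2 := S.cyc_B r s t
  rw [map_sub, map_sub]
  linear_combination h1 - C (S.c s) * h2

lemma C_inv_mul {x : K} (hx : x ≠ 0) :
    (C x⁻¹ : MvPolynomial κ K) * C x = 1 := by
  rw [← map_mul, inv_mul_cancel₀ hx, map_one]

/-- `ξ̂_u` -/
noncomputable def xi (u : T₀) : MvPolynomial κ K := ∑ j, S.B j u * X j

/-- `α̂_{tu}` -/
noncomputable def al (t : T₁ ⊕ T₀) (u : T₀) : MvPolynomial κ K := ∑ l, S.B l u * d.v (S.F t) l

lemma δδ_xi (t : T₁ ⊕ T₀) (u : T₀) : S.δδ t (S.xi u) = S.al t u := by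
  simp only [xi, al, map_sum, Derivation.leibniz, smul_eq_mul, δδ_X]
  refine Finset.sum_congr rfl fun j _ => ?_
  have : S.δδ t (S.B j u) = 0 := S.hB t j u
  rw [this]; ring

lemma al_inr (u u' : T₀) : S.al (Sum.inr u) u' = if u = u' then S.δ else 0 := by
  rw [← S.dual u u', al]
  exact Finset.sum_congr rfl fun j _ => by ring

lemma kill_al (s t : T₁ ⊕ T₀) (u : T₀) : S.δδ s (S.al t u) = 0 := by
  simp only [al, map_sum, Derivation.leibniz, smul_eq_mul, kill_v]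
  apply Finset.sum_eq_zero
  intro j _
  have : S.δδ s (S.B j u) = 0 := S.hB s j u
  rw [this]; ring

/-- every `δδ t` is a combination of the `δδ u`, `u : T₀`. -/
lemma δδ_span (t : T₁ ⊕ T₀) (x : MvPolynomial κ K) :
    S.δ * S.δδ t x = ∑ u, S.al t u * S.δδ (Sum.inr u) x := by
  have h : S.δ • S.δδ t = ∑ u, S.al t u • S.δδ (Sum.inr u) := by
    apply derivation_ext
    intro j
    rw [sum_deriv_apply]
    simp only [Derivation.smul_apply, smul_eq_mul, δδ_X]
    exact S.span t j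
  have h2 := congrArg (fun D : Derivation K (MvPolynomial κ K) (MvPolynomial κ K) => D x) h
  simp only [sum_deriv_apply, Derivation.smul_apply, smul_eq_mul] at h2
  exact h2

/-- the coefficients `S_t(u,v)` -/
noncomputable def co (t : T₁) (u v : T₀) : MvPolynomial κ K :=
  C (S.c (Sum.inl t) - S.c (Sum.inr u))⁻¹ * S.δδ (Sum.inr v) (S.Γ (Sum.inl t) (Sum.inr u))

lemma c_ne {s t : T₁ ⊕ T₀} (h : s ≠ t) : S.c s - S.c t ≠ 0 := by
  intro h'
  exact h (S.inj (sub_eq_zero.1 h'))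

lemma co_symm (t : T₁) (u v : T₀) : S.co t u v = S.co t v u := by
  by_cases huv : u = v
  · rw [huv]
  have h1 := S.elim (Sum.inr u) (Sum.inl t) (Sum.inr v)
  have h3 : S.c (Sum.inl t) - S.c (Sum.inr u) ≠ 0 := S.c_ne (by simp)
  have h4 : S.c (Sum.inl t) - S.c (Sum.inr v) ≠ 0 := S.c_ne (by simp)
  have e3 := C_inv_mul (κ := κ) h3
  have e4 := C_inv_mul (κ := κ) h4
  have h2 : S.Γ (Sum.inr u) (Sum.inl t) = - S.Γ (Sum.inl t) (Sum.inr u) := S.Γ_anti _ _
  rw [h2, map_neg] at h1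
  unfold co
  set a := (C (S.c (Sum.inl t) - S.c (Sum.inr u)) : MvPolynomial κ K) with ha
  set b := (C (S.c (Sum.inl t) - S.c (Sum.inr v)) : MvPolynomial κ K) with hb
  have h5 : (C (S.c (Sum.inr u) - S.c (Sum.inl t)) : MvPolynomial κ K) = -a := by
    rw [ha, ← map_neg]; congr 1; ring
  rw [h5] at h1
  set ai := (C (S.c (Sum.inl t) - S.c (Sum.inr u))⁻¹ : MvPolynomial κ K) with hai
  set bi := (C (S.c (Sum.inl t) - S.c (Sum.inr v))⁻¹ : MvPolynomial κ K) with hbi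
  set x := S.δδ (Sum.inr u) (S.Γ (Sum.inl t) (Sum.inr v))
  set y := S.δδ (Sum.inr v) (S.Γ (Sum.inl t) (Sum.inr u))
  -- h1 : -a * x = b * -y
  linear_combination (ai * bi) * h1 - (ai * y) * e4 + (bi * x) * e3

/-- `φ̂_t` -/
noncomputable def phi (t : T₁) : MvPolynomial κ K :=
  C (1 / 2) * ∑ u, ∑ v, S.co t u v * S.xi u * S.xi v

lemma kill_co (s : T₁ ⊕ T₀) (t : T₁) (u v : T₀) : S.δδ s (S.co t u v) = 0 := by
  simp only [co, Derivation.leibniz, kill_kill_Γ, derivation_C]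
  simp

lemma δδ_term (s : T₁ ⊕ T₀) (t : T₁) (u v : T₀) :
    S.δδ s (S.co t u v * S.xi u * S.xi v) =
      S.co t u v * S.al s u * S.xi v + S.co t u v * S.al s v * S.xi u := by
  rw [Derivation.leibniz, Derivation.leibniz, kill_co, δδ_xi, δδ_xi]
  simp only [smul_eq_mul]
  ring

lemma sum_symm (s : T₁ ⊕ T₀) (t : T₁) :
    ∑ u, ∑ v, (S.co t u v * S.al s u * S.xi v + S.co t u v * S.al s v * S.xi u) =
      2 * ∑ v, (∑ u, S.al s u * S.co t v u) * S.xi v := by
  have h1 : ∑ u, ∑ v, S.co t u v * S.al s u * S.xi v =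
      ∑ v, (∑ u, S.al s u * S.co t v u) * S.xi v := by
    rw [Finset.sum_comm]
    refine Finset.sum_congr rfl fun v _ => ?_
    rw [Finset.sum_mul]
    refine Finset.sum_congr rfl fun u _ => ?_
    rw [S.co_symm t u v]; ring
  have h2 : ∑ u, ∑ v, S.co t u v * S.al s v * S.xi u =
      ∑ v, (∑ u, S.al s u * S.co t v u) * S.xi v := by
    refine Finset.sum_congr rfl fun v _ => ?_
    rw [Finset.sum_mul]
    refine Finset.sum_congr rfl fun u _ => ?_
    ring
  simp only [Finset.sum_add_distrib]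
  rw [h1, h2, two_mul]

lemma δδ_phi [CharZero K] (s : T₁ ⊕ T₀) (t : T₁) :
    S.δδ s (S.phi t) = ∑ v, (∑ u, S.al s u * S.co t v u) * S.xi v := by
  have h3 : (C (1 / 2) : MvPolynomial κ K) * 2 = 1 := by
    have : (2 : MvPolynomial κ K) = C 2 := (map_ofNat (C : K →+* MvPolynomial κ K) 2).symm
    rw [this, ← map_mul]
    norm_num
  rw [phi, Derivation.leibniz, derivation_C, smul_zero, add_zero, smul_eq_mul, map_sum]
  rw [Finset.sum_congr rfl fun u _ => map_sum (S.δδ s) _ _]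
  rw [Finset.sum_congr rfl fun u _ => Finset.sum_congr rfl fun v _ => S.δδ_term s t u v]
  rw [S.sum_symm s t, ← mul_assoc, h3, one_mul]

lemma δδ_phi_ne [CharZero K] (s t : T₁) (hst : s ≠ t) :
    S.δδ (Sum.inl s) (S.phi t) =
      C (S.c (Sum.inl s) - S.c (Sum.inl t))⁻¹ * S.δ *
        ∑ v, S.xi v * S.δδ (Sum.inr v) (S.Γ (Sum.inl s) (Sum.inl t)) := by
  rw [δδ_phi, Finset.mul_sum]
  refine Finset.sum_congr rfl fun v _ => ?_
  have h1 : ∑ u, S.al (Sum.inl s) u * S.co t v u =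
      C (S.c (Sum.inl t) - S.c (Sum.inr v))⁻¹ *
        (S.δ * S.δδ (Sum.inl s) (S.Γ (Sum.inl t) (Sum.inr v))) := by
    rw [S.δδ_span (Sum.inl s), Finset.mul_sum]
    refine Finset.sum_congr rfl fun u _ => ?_
    rw [co]; ring
  rw [h1]
  have h2 := S.elim (Sum.inl s) (Sum.inl t) (Sum.inr v)
  have h3 : S.c (Sum.inl s) - S.c (Sum.inl t) ≠ 0 := S.c_ne (fun h => hst (Sum.inl_injective h))
  have h4 : S.c (Sum.inl t) - S.c (Sum.inr v) ≠ 0 := S.c_ne (by simp)
  have e3 := C_inv_mul (κ := κ) h3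
  have e4 := C_inv_mul (κ := κ) h4
  generalize (C (S.c (Sum.inl s) - S.c (Sum.inl t)) : MvPolynomial κ K) = a at h2 e3
  generalize (C (S.c (Sum.inl t) - S.c (Sum.inr v)) : MvPolynomial κ K) = b at h2 e4
  generalize (C (S.c (Sum.inl s) - S.c (Sum.inl t))⁻¹ : MvPolynomial κ K) = ai at e3 ⊢
  generalize (C (S.c (Sum.inl t) - S.c (Sum.inr v))⁻¹ : MvPolynomial κ K) = bi at e4 ⊢
  generalize S.δδ (Sum.inl s) (S.Γ (Sum.inl t) (Sum.inr v)) = x at h2 ⊢
  generalize S.δδ (Sum.inr v) (S.Γ (Sum.inl s) (Sum.inl t)) = y at h2 ⊢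
  generalize S.xi v = z
  generalize S.δ = w
  -- h2 : a * x = b * y
  linear_combination (w * z * ai * bi) * h2 - (bi * w * x * z) * e3 + (ai * w * z * y) * e4

/-! ### The pencil of brackets -/

/-- The linear part of the basic functions. -/
noncomputable def qv : T₁ ⊕ T₀ → ι → MvPolynomial κ K
  | Sum.inl t => fun i => S.δ ^ 2 * S.F (Sum.inl t) i
  | Sum.inr _ => fun _ => 0

/-- The part of the basic functions in the ideal. -/
noncomputable def ph : T₁ ⊕ T₀ → MvPolynomial κ K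
  | Sum.inl t => S.phi t
  | Sum.inr u => S.xi u

/-- Lie-Poisson brackets of the basic functions -/
noncomputable def PA (b b' : T₁ ⊕ T₀) : MvPolynomial κ K :=
  d.D (S.qv b) (S.ph b') - d.D (S.qv b') (S.ph b) + d.G (S.qv b) (S.qv b')

/-- constant brackets of the basic functions -/
noncomputable def PB (b b' : T₁ ⊕ T₀) : MvPolynomial κ K :=
  d.DA (S.qv b) (S.ph b') - d.DA (S.qv b') (S.ph b) + d.GA (S.qv b) (S.qv b')

lemma PA_anti (b b' : T₁ ⊕ T₀) : S.PA b b' = - S.PA b' b := by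
  unfold PA; rw [G_anti]; ring

lemma PB_anti (b b' : T₁ ⊕ T₀) : S.PB b b' = - S.PB b' b := by
  unfold PB; rw [GA_anti]; ring

lemma D_qv_inl (t : T₁) (x : MvPolynomial κ K) :
    d.D (S.qv (Sum.inl t)) x = S.δ ^ 2 * d.D (S.F (Sum.inl t)) x := by
  rw [D_apply, D_apply, Finset.mul_sum]
  exact Finset.sum_congr rfl fun i _ => by simp only [qv]; ring

lemma DA_qv_inl (t : T₁) (x : MvPolynomial κ K) :
    d.DA (S.qv (Sum.inl t)) x = S.δ ^ 2 * S.δδ (Sum.inl t) x := by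
  rw [δδ, DA_apply, DA_apply, Finset.mul_sum]
  exact Finset.sum_congr rfl fun i _ => by simp only [qv]; ring

lemma D_qv_inr (u : T₀) (x : MvPolynomial κ K) : d.D (S.qv (Sum.inr u)) x = 0 := by
  rw [D_apply]; simp [qv]

lemma DA_qv_inr (u : T₀) (x : MvPolynomial κ K) : d.DA (S.qv (Sum.inr u)) x = 0 := by
  rw [DA_apply]; simp [qv]

lemma G_qv_inl (s t : T₁) :
    d.G (S.qv (Sum.inl s)) (S.qv (Sum.inl t)) = S.δ ^ 4 * S.Γ (Sum.inl s) (Sum.inl t) := by
  simp only [Γ, G, Finset.mul_sum, qv]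
  exact Finset.sum_congr rfl fun i _ => Finset.sum_congr rfl fun k _ => by ring

lemma GA_qv_inl (s t : T₁) : d.GA (S.qv (Sum.inl s)) (S.qv (Sum.inl t)) =
    S.δ ^ 4 * d.GA (S.F (Sum.inl s)) (S.F (Sum.inl t)) := by
  simp only [GA, Finset.mul_sum, qv]
  exact Finset.sum_congr rfl fun i _ => Finset.sum_congr rfl fun k _ => by ring

lemma G_qv_inr_right (b : T₁ ⊕ T₀) (u : T₀) : d.G (S.qv b) (S.qv (Sum.inr u)) = 0 := by
  simp [G, qv]

lemma GA_qv_inr_right (b : T₁ ⊕ T₀) (u : T₀) : d.GA (S.qv b) (S.qv (Sum.inr u)) = 0 := by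
  simp [GA, qv]

lemma kill_GA (r s t : T₁ ⊕ T₀) : S.δδ r (d.GA (S.F s) (S.F t)) = 0 := by
  simp only [GA, ga, map_sum, Derivation.leibniz, kill_F, derivation_C, smul_zero, add_zero,
    Finset.sum_const_zero]

lemma kill_pow {r : T₁ ⊕ T₀} {x : MvPolynomial κ K} (h : S.δδ r x = 0) (n : ℕ) :
    S.δδ r (x ^ n) = 0 := by
  rw [Derivation.leibniz_pow, h]; simp

lemma kill_mul {r : T₁ ⊕ T₀} {x y : MvPolynomial κ K} (h : S.δδ r x = 0) (h' : S.δδ r y = 0) :
    S.δδ r (x * y) = 0 := by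
  rw [Derivation.leibniz, h, h']; simp

lemma kill_δ (r : T₁ ⊕ T₀) : S.δδ r S.δ = 0 := S.hδ r

lemma PA_lr (t : T₁) (u : T₀) :
    S.PA (Sum.inl t) (Sum.inr u) = - (S.δ ^ 2 * (C (S.c (Sum.inl t)) * S.al (Sum.inl t) u)) := by
  unfold PA
  rw [D_qv_inl, D_qv_inr, G_qv_inr_right, D_eq]
  simp only [ph]
  rw [δδ_xi]; ring

lemma PB_lr (t : T₁) (u : T₀) :
    S.PB (Sum.inl t) (Sum.inr u) = S.δ ^ 2 * S.al (Sum.inl t) u := by
  unfold PB
  rw [DA_qv_inl, DA_qv_inr, GA_qv_inr_right]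
  simp only [ph]
  rw [δδ_xi]; ring

lemma PA_rr (u u' : T₀) : S.PA (Sum.inr u) (Sum.inr u') = 0 := by
  unfold PA
  rw [D_qv_inr, D_qv_inr, G_qv_inr_right]; ring

lemma PB_rr (u u' : T₀) : S.PB (Sum.inr u) (Sum.inr u') = 0 := by
  unfold PB
  rw [DA_qv_inr, DA_qv_inr, GA_qv_inr_right]; ring

/-- the common value of the two off-diagonal derivatives -/
lemma phi_comm [CharZero K] (s t : T₁) (hst : s ≠ t) :
    S.δδ (Sum.inl s) (S.phi t) = S.δδ (Sum.inl t) (S.phi s) := by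
  rw [S.δδ_phi_ne s t hst, S.δδ_phi_ne t s (Ne.symm hst)]
  have h1 : (S.c (Sum.inl t) - S.c (Sum.inl s))⁻¹ = - (S.c (Sum.inl s) - S.c (Sum.inl t))⁻¹ := by
    rw [← inv_neg]; congr 1; ring
  rw [h1, S.Γ_anti (Sum.inl t) (Sum.inl s)]
  simp only [map_neg, mul_neg, Finset.sum_neg_distrib, neg_mul, neg_neg]

lemma PB_ll [CharZero K] (s t : T₁) (hst : s ≠ t) : S.PB (Sum.inl s) (Sum.inl t) =
    S.δ ^ 4 * d.GA (S.F (Sum.inl s)) (S.F (Sum.inl t)) := by
  unfold PB
  rw [DA_qv_inl, DA_qv_inl, GA_qv_inl]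
  simp only [ph]
  rw [S.phi_comm s t hst]; ring

lemma PA_ll [CharZero K] (s t : T₁) (hst : s ≠ t) : S.PA (Sum.inl s) (Sum.inl t) =
    S.δ ^ 3 * (S.δ * S.Γ (Sum.inl s) (Sum.inl t) -
      ∑ v, S.xi v * S.δδ (Sum.inr v) (S.Γ (Sum.inl s) (Sum.inl t))) := by
  unfold PA
  rw [D_qv_inl, D_qv_inl, G_qv_inl, D_eq, D_eq]
  simp only [ph]
  rw [← S.phi_comm s t hst, S.δδ_phi_ne s t hst]
  have h3 : S.c (Sum.inl s) - S.c (Sum.inl t) ≠ 0 := S.c_ne (fun h => hst (Sum.inl_injective h))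
  have e3 := C_inv_mul (κ := κ) h3
  rw [map_sub] at e3
  generalize (C (S.c (Sum.inl s) - S.c (Sum.inl t))⁻¹ : MvPolynomial κ K) = ai at e3 ⊢
  generalize ∑ v, S.xi v * S.δδ (Sum.inr v) (S.Γ (Sum.inl s) (Sum.inl t)) = y
  linear_combination (- S.δ ^ 3 * y) * e3

lemma PA_self (b : T₁ ⊕ T₀) : S.PA b b = d.G (S.qv b) (S.qv b) := by
  unfold PA; ring

lemma PB_self (b : T₁ ⊕ T₀) : S.PB b b = d.GA (S.qv b) (S.qv b) := by
  unfold PB; ring

lemma G_self [CharZero K] (p : ι → MvPolynomial κ K) : d.G p p = 0 := by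
  have h := G_anti d p p
  have h2 : (2 : MvPolynomial κ K) * d.G p p = 0 := by linear_combination h
  exact (mul_eq_zero.1 h2).resolve_left two_ne_zero

lemma GA_self [CharZero K] (p : ι → MvPolynomial κ K) : d.GA p p = 0 := by
  have h := GA_anti d p p
  have h2 : (2 : MvPolynomial κ K) * d.GA p p = 0 := by linear_combination h
  exact (mul_eq_zero.1 h2).resolve_left two_ne_zero

/-- all Lie-Poisson brackets of basic functions are common first integrals -/
lemma kill_PA [CharZero K] (r b b' : T₁ ⊕ T₀) : S.δδ r (S.PA b b') = 0 := by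
  rcases b with s | u <;> rcases b' with t | u'
  · by_cases hst : s = t
    · subst hst
      rw [PA_self, G_self, map_zero]
    rw [S.PA_ll s t hst]
    refine S.kill_mul (S.kill_pow (S.kill_δ r) 3) ?_
    rw [map_sub, Derivation.leibniz, kill_δ, smul_zero, add_zero, smul_eq_mul, S.δδ_span,
      map_sum, ← Finset.sum_sub_distrib]
    apply Finset.sum_eq_zero
    intro v _
    rw [Derivation.leibniz, kill_kill_Γ, δδ_xi]
    simp only [smul_eq_mul]
    ring
  · rw [PA_lr, map_neg]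
    rw [S.kill_mul (S.kill_pow (S.kill_δ r) 2)
      (S.kill_mul (derivation_C _ _) (S.kill_al r _ _)), neg_zero]
  · rw [PA_anti, PA_lr, map_neg, map_neg]
    rw [S.kill_mul (S.kill_pow (S.kill_δ r) 2)
      (S.kill_mul (derivation_C _ _) (S.kill_al r _ _))]
    simp
  · rw [PA_rr, map_zero]

/-- all constant brackets of basic functions are common first integrals -/
lemma kill_PB [CharZero K] (r b b' : T₁ ⊕ T₀) : S.δδ r (S.PB b b') = 0 := by
  rcases b with s | u <;> rcases b' with t | u'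
  · by_cases hst : s = t
    · subst hst
      rw [PB_self, GA_self, map_zero]
    rw [S.PB_ll s t hst]
    exact S.kill_mul (S.kill_pow (S.kill_δ r) 4) (S.kill_GA _ _ _)
  · rw [PB_lr]
    exact S.kill_mul (S.kill_pow (S.kill_δ r) 2) (S.kill_al r _ _)
  · rw [PB_anti, PB_lr, map_neg]
    rw [S.kill_mul (S.kill_pow (S.kill_δ r) 2) (S.kill_al r _ _), neg_zero]
  · rw [PB_rr, map_zero]

end Sys

end Pool.Agent.H865_shift
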