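import Mathlib

/-!
# Polynomial functions on the dual of a Lie algebra and the two brackets

The elements of a Lie algebra `L` are the linear functions on the dual space `L*`, and a
polynomial `f : MvPolynomial L K` in the elements of `L` is a polynomial function on `L*`.
-/

open Module

namespace Pool.Agent.H865_shift

variable {K L : Type*} [Field K] [LieRing L] [LieAlgebra K L]

/-- The value at `x ∈ L*` of the polynomial function given by a polynomial `f` in elements
of `L` : every element `ξ` of `L` is evaluated to `x ξ`. -/
noncomputable def val (f : MvPolynomial L K) (x : Dual K L) : K :=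
  MvPolynomial.eval (fun ξ => x ξ) f

/-- The differential `df(x) ∈ L` at `x ∈ L*` of the polynomial function `f`,
namely the sum over the variables `ξ ∈ L` of `f` of `(∂f/∂ξ)(x) • ξ`. -/
noncomputable def grad (f : MvPolynomial L K) (x : Dual K L) : L :=
  ∑ ξ ∈ f.vars, val (MvPolynomial.pderiv ξ f) x • ξ

/-- The stabiliser `L_x = {ξ : ⟨x, [ξ, η]⟩ = 0 for all η}`. -/
def stab (x : Dual K L) : Submodule K L where
  carrier := {ξ | ∀ η : L, x ⁅ξ, η⁆ = 0}
  add_mem' := by
    intro a b ha hb η
    rw [add_lie, map_add, ha η, hb η, add_zero]
  zero_mem' := by intro η; rw [zero_lie, map_zero]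
  smul_mem' := by
    intro c a ha η
    rw [smul_lie, map_smul, ha η, smul_zero]

variable (K L) in
/-- The index `ind L = min_x dim L_x`. -/
noncomputable def index : ℕ := sInf (Set.range fun x : Dual K L => finrank K (stab x))

/-- There is a complete family of polynomials in bi-involution: `r = (dim L + ind L) / 2`
polynomial functions on `L*`, commuting pairwise with respect to the Lie-Poisson bracket
`{f, g}(x) = ⟨x, [df(x), dg(x)]⟩` and with respect to the constant bracket
`{f, g}_a(x) = ⟨a, [df(x), dg(x)]⟩`, and functionally independent, that is with differentials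
linearly independent at some (equivalently, at a generic) point. -/
def HasCompleteFamily (a : Dual K L) : Prop :=
  ∃ (r : ℕ) (F : Fin r → MvPolynomial L K),
    2 * r = finrank K L + index K L ∧
    (∀ i j (x : Dual K L), x ⁅grad (F i) x, grad (F j) x⁆ = 0) ∧
    (∀ i j (x : Dual K L), a ⁅grad (F i) x, grad (F j) x⁆ = 0) ∧
    ∃ x : Dual K L, LinearIndependent K (fun i => grad (F i) x)

end Pool.Agent.H865_shift
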