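import Mathlib

/-!
Elementary linear algebra: dual systems, rank through pairings, clearing denominators.
-/

open LinearMap Module Submodule Matrix

namespace Pool.Agent.H865_shift.Pairing

section field

variable {F V : Type*} [Field F] [AddCommGroup V] [Module F V]

/-- Independent functionals on a space have a dual system of vectors. -/
lemma exists_dual {N : Type*} [Finite N] [DecidableEq N] {f : N → Dual F V} (hf : LinearIndependent F f) :
    ∃ y : N → V, ∀ i j, f i (y j) = if i = j then 1 else 0 := by
  have key : ∀ j : N, ∃ y : V, (∀ i, i ≠ j → f i y = 0) ∧ f j y ≠ 0 := by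
    intro j
    by_contra hcon
    push Not at hcon
    have hle : (⨅ i : {i : N // i ≠ j}, LinearMap.ker (f i)) ≤ LinearMap.ker (f j) := by
      intro y hy
      rw [Submodule.mem_iInf] at hy
      rw [LinearMap.mem_ker]
      exact hcon y (fun i hi => LinearMap.mem_ker.1 (hy ⟨i, hi⟩))
    have := mem_span_of_iInf_ker_le_ker (𝕜 := F) (L := fun i : {i : N // i ≠ j} => f i)
      (K := f j) hle
    have h2 := hf.notMem_span_image (s := {i | i ≠ j}) (x := j) (by simp)
    apply h2
    refine Submodule.span_mono ?_ this
    rintro _ ⟨i, rfl⟩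
    exact ⟨i, i.2, rfl⟩
  choose y hy using key
  refine ⟨fun j => (f j (y j))⁻¹ • y j, fun i j => ?_⟩
  by_cases hij : i = j
  · subst hij
    simp [(hy i).2]
  · simp [(hy j).1 i hij, hij]

/-- A pairing of size `r` bounds the dimension of the kernel. -/
lemma pair_le [FiniteDimensional F V] (C : LinearMap.BilinForm F V) {r : ℕ} {h : F} (hh : h ≠ 0)
    (x y : Fin r → V) (hxy : ∀ i j, C (x i) (y j) = if i = j then h else 0) :
    r + finrank F (LinearMap.ker C) ≤ finrank F V := by
  have hli : LinearIndependent F (fun i => C (x i)) := by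
    rw [Fintype.linearIndependent_iff]
    intro g hg i
    have := congrArg (fun φ : V →ₗ[F] F => φ (y i)) hg
    simp only [LinearMap.sum_apply, LinearMap.smul_apply, hxy, smul_eq_mul,
      mul_ite, mul_zero, Finset.sum_ite_eq', Finset.mem_univ, if_true, LinearMap.zero_apply] at this
    exact (mul_eq_zero.1 this).resolve_right hh
  have h1 : r ≤ finrank F (LinearMap.range C) := by
    have hli' : LinearIndependent F
        (fun i => (⟨C (x i), LinearMap.mem_range_self C (x i)⟩ : LinearMap.range C)) := by
      apply LinearIndependent.of_comp (LinearMap.range C).subtype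
      exact hli
    simpa using hli'.fintype_card_le_finrank
  have h2 := LinearMap.finrank_range_add_finrank_ker C
  omega

/-- There is a pairing of size the rank. -/
lemma exists_pair [FiniteDimensional F V] (C : LinearMap.BilinForm F V) :
    ∃ (r : ℕ) (x y : Fin r → V), r + finrank F (LinearMap.ker C) = finrank F V ∧
      ∀ i j, C (x i) (y j) = if i = j then 1 else 0 := by
  obtain ⟨U, hU⟩ := Submodule.exists_isCompl (LinearMap.ker C)
  have hdim := Submodule.finrank_add_eq_of_isCompl hU
  let bU := Module.finBasis F U
  have hli : LinearIndependent F (fun i => C ((bU i : U) : V)) := by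
    have h1 : LinearIndependent F (fun i => ((bU i : U) : V)) :=
      bU.linearIndependent.map' U.subtype (Submodule.ker_subtype _)
    refine h1.map (f := C) ?_
    rw [disjoint_comm]
    refine hU.disjoint.mono_right ?_
    rw [Submodule.span_le]
    rintro _ ⟨i, rfl⟩
    exact (bU i).2
  obtain ⟨y, hy⟩ := exists_dual (V := V) hli
  exact ⟨_, fun i => ((bU i : U) : V), y, by omega, hy⟩

/-- Restriction of a form to a subspace containing its own orthogonal. -/
lemma pair_restrict_le [FiniteDimensional F V] (C : LinearMap.BilinForm F V) (hC : C.IsRefl)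
    (H : Submodule F V) (hH : C.orthogonal H ≤ H) {r : ℕ} {h : F} (hh : h ≠ 0)
    (x y : Fin r → V) (hx : ∀ i, x i ∈ H) (hy : ∀ i, y i ∈ H)
    (hxy : ∀ i j, C (x i) (y j) = if i = j then h else 0) :
    r + finrank F V + finrank F (LinearMap.ker C) ≤ 2 * finrank F H := by
  have h1 := pair_le (C.restrict H) hh (fun i => ⟨x i, hx i⟩) (fun i => ⟨y i, hy i⟩)
    (by intro i j; simpa using hxy i j)
  have h2 : finrank F (C.orthogonal H) ≤ finrank F (LinearMap.ker (C.restrict H)) := by
    let φ : C.orthogonal H →ₗ[F] LinearMap.ker (C.restrict H) :=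
      LinearMap.codRestrict (LinearMap.ker (C.restrict H)) (Submodule.inclusion hH) (by
        intro z
        rw [LinearMap.mem_ker]
        ext w
        have := (LinearMap.BilinForm.mem_orthogonal_iff.1 z.2) w w.2
        have h3 := hC _ _ this
        simpa using h3)
    apply LinearMap.finrank_le_finrank_of_injective (f := φ)
    intro z w hzw
    have := congrArg (fun t : LinearMap.ker (C.restrict H) => ((t : H) : V)) hzw
    apply Subtype.ext
    simpa [φ] using this
  have h3 := LinearMap.BilinForm.finrank_add_finrank_orthogonal' (B := C) H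
  have hk : LinearMap.ker C ≤ H := by
    intro z hz
    apply hH
    rw [LinearMap.BilinForm.mem_orthogonal_iff]
    intro n _
    apply hC
    rw [LinearMap.mem_ker.1 hz]; simp
  have h4 : H ⊓ LinearMap.ker C = LinearMap.ker C := inf_eq_right.2 hk
  rw [h4] at h3
  omega

end field

section domain

variable {R S : Type*} [CommRing R] [CommRing S] {n : Type*} [Fintype n]

/-- The bilinear expression of a matrix. -/
def bil (P : Matrix n n R) (x y : n → R) : R := ∑ a, ∑ b, x a * P a b * y b

/-- The dot product. -/
def dot (x y : n → R) : R := ∑ a, x a * y a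

lemma map_bil (φ : R →+* S) (P : Matrix n n R) (x y : n → R) :
    φ (bil P x y) = bil (P.map φ) (fun a => φ (x a)) (fun a => φ (y a)) := by
  simp [bil]

lemma map_dot (φ : R →+* S) (x y : n → R) :
    φ (dot x y) = dot (fun a => φ (x a)) (fun a => φ (y a)) := by
  simp [dot]

lemma bil_smul (P : Matrix n n R) (s t : R) (x y : n → R) :
    bil P (fun a => s * x a) (fun a => t * y a) = s * t * bil P x y := by
  simp only [bil, Finset.mul_sum]
  refine Finset.sum_congr rfl fun a _ => Finset.sum_congr rfl fun b _ => ?_
  ring

/-- A pairing of size `r` with value `h` for a matrix. -/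
def Pair (P : Matrix n n R) (r : ℕ) (h : R) : Prop :=
  ∃ x y : Fin r → n → R, ∀ i j, bil P (x i) (y j) = if i = j then h else 0

lemma Pair.map {P : Matrix n n R} {r : ℕ} {h : R} (hP : Pair P r h) (φ : R →+* S) :
    Pair (P.map φ) r (φ h) := by
  obtain ⟨x, y, hxy⟩ := hP
  refine ⟨fun i a => φ (x i a), fun i a => φ (y i a), fun i j => ?_⟩
  rw [← map_bil, hxy i j]
  split_ifs <;> simp

/-- dual system for a family of vectors -/
def Dualizable {N : Type*} [DecidableEq N] (c : N → n → R) (g : R) : Prop :=
  ∃ y : N → n → R, ∀ b b', dot (c b) (y b') = if b = b' then g else 0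

lemma Dualizable.map {N : Type*} [DecidableEq N] {c : N → n → R} {g : R}
    (hc : Dualizable c g) (φ : R →+* S) :
    Dualizable (fun b a => φ (c b a)) (φ g) := by
  obtain ⟨y, hy⟩ := hc
  refine ⟨fun b a => φ (y b a), fun b b' => ?_⟩
  rw [← map_dot, hy b b']
  split_ifs <;> simp

lemma Dualizable.linearIndependent [IsDomain R] {N : Type*} [Fintype N] [DecidableEq N]
    {c : N → n → R} {g : R} (hg : g ≠ 0)
    (hc : Dualizable c g) : LinearIndependent R c := by
  obtain ⟨y, hy⟩ := hc
  rw [Fintype.linearIndependent_iff]
  intro s hs i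
  have h1 : dot (∑ b, s b • c b) (y i) = 0 := by rw [hs]; simp [dot]
  have h2 : dot (∑ b, s b • c b) (y i) = ∑ b, s b * dot (c b) (y i) := by
    simp only [dot, Finset.sum_apply, Pi.smul_apply, smul_eq_mul, Finset.sum_mul, Finset.mul_sum]
    rw [Finset.sum_comm]
    refine Finset.sum_congr rfl fun b _ => Finset.sum_congr rfl fun a _ => by ring
  rw [h2] at h1
  simp only [hy, mul_ite, mul_zero, Finset.sum_ite_eq', Finset.mem_univ, if_true] at h1
  exact (mul_eq_zero.1 h1).resolve_right hg

end domain

section frac

variable {F : Type*} [Field F] {n : Type*} [Fintype n]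

lemma dualizable_of_linearIndependent {N : Type*} [Finite N] [DecidableEq N] {c : N → n → F}
    (hc : LinearIndependent F c) : Dualizable c (1 : F) := by
  classical
  -- the functional attached to a vector
  let D : (n → F) →ₗ[F] Dual F (n → F) :=
    { toFun := fun x =>
        { toFun := fun y => dot x y
          map_add' := by
            intro y z; simp [dot, mul_add, Finset.sum_add_distrib]
          map_smul' := by
            intro t y
            simp only [dot, Pi.smul_apply, smul_eq_mul, RingHom.id_apply, Finset.mul_sum]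
            exact Finset.sum_congr rfl fun a _ => by ring }
      map_add' := by
        intro x z; ext y; simp [dot, add_mul, Finset.sum_add_distrib]
      map_smul' := by
        intro t x; ext y; simp [dot, Finset.mul_sum, mul_assoc] }
  have hD : LinearMap.ker D = ⊥ := by
    rw [LinearMap.ker_eq_bot']
    intro x hx
    funext a
    have := congrArg (fun φ : (n → F) →ₗ[F] F => φ (Pi.single a 1)) hx
    simpa [D, dot, Pi.single_apply] using this
  obtain ⟨y, hy⟩ := exists_dual (V := n → F) (f := fun b => D (c b)) (hc.map' D hD)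
  exact ⟨y, hy⟩

lemma bil_eq_toBilin' [DecidableEq n] (P : Matrix n n F) (x y : n → F) :
    bil P x y = Matrix.toBilin' P x y := by
  rw [Matrix.toBilin'_apply]; rfl

variable {O : Type*} [CommRing O] [IsDomain O] [Algebra O F] [IsFractionRing O F]

/-- clearing denominators of a finite family of vectors -/
lemma clear_denoms {N : Type*} [Finite N] (x : N → n → F) :
    ∃ g : O, g ≠ 0 ∧ ∃ x' : N → n → O, ∀ i a, algebraMap O F (x' i a) = algebraMap O F g * x i a := by
  obtain ⟨b, hb⟩ := IsLocalization.exist_integer_multiples_of_finite (nonZeroDivisors O)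
    (fun p : N × n => x p.1 p.2)
  choose z hz using hb
  refine ⟨b, nonZeroDivisors.coe_ne_zero b, fun i a => z (i, a), fun i a => ?_⟩
  rw [hz (i, a)]
  simp [Algebra.smul_def]

lemma Pair.descend {P : Matrix n n O} {r : ℕ} {h : F} (hh : h ≠ 0)
    (hP : Pair (P.map (algebraMap O F)) r h) : ∃ g : O, g ≠ 0 ∧ Pair P r g := by
  obtain ⟨x, y, hxy⟩ := hP
  obtain ⟨s, hs, x', hx'⟩ := clear_denoms (O := O) x
  obtain ⟨t, ht, y', hy'⟩ := clear_denoms (O := O) (fun j a => h⁻¹ * y j a)
  refine ⟨s * t, mul_ne_zero hs ht, x', y', fun i j => ?_⟩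
  apply IsFractionRing.injective O F
  rw [map_bil]
  have e1 : (fun a => algebraMap O F (x' i a)) = fun a => algebraMap O F s * x i a := by
    funext a; exact hx' i a
  have e2 : (fun a => algebraMap O F (y' j a)) = fun a => (algebraMap O F t * h⁻¹) * y j a := by
    funext a; rw [hy' j a]; ring
  rw [e1, e2, bil_smul, hxy]
  split_ifs
  · rw [map_mul]; field_simp
  · simp

lemma Dualizable.descend {N : Type*} [Finite N] [DecidableEq N] {c : N → n → O}
    (hc : LinearIndependent F (fun b a => algebraMap O F (c b a))) :
    ∃ g : O, g ≠ 0 ∧ Dualizable c g := by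
  obtain ⟨y, hy⟩ := dualizable_of_linearIndependent hc
  obtain ⟨t, ht, y', hy'⟩ := clear_denoms (O := O) y
  refine ⟨t, ht, y', fun b b' => ?_⟩
  apply IsFractionRing.injective O F
  rw [map_dot]
  have e2 : (fun a => algebraMap O F (y' b' a)) = fun a => algebraMap O F t * y b' a := by
    funext a; exact hy' b' a
  rw [e2]
  have e3 : dot (fun a => algebraMap O F (c b a)) (fun a => algebraMap O F t * y b' a) =
      algebraMap O F t * dot (fun a => algebraMap O F (c b a)) (y b') := by
    simp only [dot, Finset.mul_sum]
    exact Finset.sum_congr rfl fun a _ => by ring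
  rw [e3, hy b b']
  split_ifs <;> simp

end frac

end Pool.Agent.H865_shift.Pairing
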