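import Pool.Agent.H865_shift.BiIso
import Pool.Agent.H865_shift.Pairing

/-!
Families of vectors isotropic for two alternating matrices over a domain.
-/

open LinearMap Module Submodule Matrix
open Pool.Agent.H865_shift.Pairing

namespace Pool.Agent.H865_shift.Pencil

theorem exists_isotropic_family {O F : Type*} [CommRing O] [IsDomain O] [Field F] [Algebra O F]
    [IsFractionRing O F] (h2 : (2 : F) ≠ 0) {n : Type*} [Fintype n] [DecidableEq n]
    (P Q : Matrix n n O) (hP : ∀ i, P i i = 0) (hP' : ∀ i j, P i j = - P j i)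
    (hQ : ∀ i, Q i i = 0) (hQ' : ∀ i j, Q i j = - Q j i)
    (rho : ℕ) (Lam : Set O) (hLam : Lam.Infinite)
    (hrho : ∀ c ∈ Lam, ∀ (r : ℕ) (h : O), h ≠ 0 → Pair (P + c • Q) r h → r ≤ rho) :
    ∃ (N : ℕ) (c : Fin N → n → O), 2 * Fintype.card n ≤ 2 * N + rho ∧
      (∀ b b', bil P (c b) (c b') = 0) ∧ (∀ b b', bil Q (c b) (c b') = 0) ∧
      ∃ g : O, g ≠ 0 ∧ Dualizable c g := by
  classical
  set φ := algebraMap O F with hφ
  have hinj : Function.Injective φ := IsFractionRing.injective O F
  have altlem : ∀ M : Matrix n n O, (∀ i, M i i = 0) → (∀ i j, M i j = - M j i) →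
      (Matrix.toBilin' (M.map φ)).IsAlt := by
    intro M h1 h3 x
    rw [Matrix.toBilin'_apply]
    have e1 : ∑ i, ∑ j, x i * (M.map φ) i j * x j = - ∑ i, ∑ j, x i * (M.map φ) i j * x j := by
      conv_lhs => rw [Finset.sum_comm]
      rw [← Finset.sum_neg_distrib]
      refine Finset.sum_congr rfl fun i _ => ?_
      rw [← Finset.sum_neg_distrib]
      refine Finset.sum_congr rfl fun j _ => ?_
      simp only [Matrix.map_apply]
      rw [h3 j i, map_neg]; ring
    have e2 : (2 : F) * ∑ i, ∑ j, x i * (M.map φ) i j * x j = 0 := by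
      linear_combination e1
    exact (mul_eq_zero.1 e2).resolve_left h2
  have hA := altlem P hP hP'
  have hB := altlem Q hQ hQ'
  obtain ⟨L, hLA, hLB, S, hS⟩ := BiIso.exists_biLagrangian h2 _ _ hA hB
  -- choose c
  obtain ⟨c, hcL, hcS⟩ : ∃ c ∈ Lam, φ c ∉ S := by
    by_contra hcon
    push Not at hcon
    apply hLam
    have : Lam ⊆ φ ⁻¹' (S : Set F) := fun c hc => hcon c hc
    exact Set.Finite.subset (Set.Finite.preimage hinj.injOn S.finite_toSet) this
  have hL := hS (φ c) hcS
  set C := Matrix.toBilin' (P.map φ) + φ c • Matrix.toBilin' (Q.map φ) with hC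
  have hCmat : C = Matrix.toBilin' ((P + c • Q).map φ) := by
    rw [hC, ← map_smul, ← map_add]
    congr 1
    ext i j
    simp
  obtain ⟨r, x, y, hr, hxy⟩ := exists_pair C
  have hV : finrank F (n → F) = Fintype.card n := Module.finrank_fintype_fun_eq_card F
  have hpair : Pair ((P + c • Q).map φ) r (1 : F) := by
    refine ⟨x, y, fun i j => ?_⟩
    rw [bil_eq_toBilin', ← hCmat, hxy]
  obtain ⟨g, hg, hpair'⟩ := hpair.descend (O := O) one_ne_zero
  have hrle := hrho c hcL r g hg hpair'
  have hdim := LinearMap.BilinForm.finrank_add_finrank_orthogonal' (B := C) L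
  rw [hL] at hdim
  have hCalt : C.IsAlt := by
    intro z
    have h1 := hA z
    have h3 := hB z
    simp only [hC, LinearMap.add_apply, LinearMap.smul_apply, h1, h3, smul_zero, add_zero]
  have hker : LinearMap.ker C ≤ L := by
    intro z hz
    rw [← hL, LinearMap.BilinForm.mem_orthogonal_iff]
    intro l _
    rw [BiIso.anti hCalt, LinearMap.mem_ker.1 hz]; simp
  have h4 : L ⊓ LinearMap.ker C = LinearMap.ker C := inf_eq_right.2 hker
  rw [h4] at hdim
  let bL := Module.finBasis F L
  obtain ⟨s, hs, c', hc'⟩ := clear_denoms (O := O) (fun b => ((bL b : L) : n → F))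
  have hfun : ∀ b, (fun a => φ (c' b a)) = φ s • ((bL b : L) : n → F) := by
    intro b; funext a; rw [hc' b a]; rfl
  have hmem : ∀ b, (fun a => φ (c' b a)) ∈ L := by
    intro b; rw [hfun b]; exact L.smul_mem _ (bL b).2
  refine ⟨finrank F L, c', by omega, ?_, ?_, ?_⟩
  · intro b b'
    apply hinj
    rw [map_bil, bil_eq_toBilin', map_zero]
    exact hLA _ (hmem b) _ (hmem b')
  · intro b b'
    apply hinj
    rw [map_bil, bil_eq_toBilin', map_zero]
    exact hLB _ (hmem b) _ (hmem b')
  · apply Dualizable.descend (F := F)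
    have h5 : LinearIndependent F (fun b => ((bL b : L) : n → F)) :=
      bL.linearIndependent.map' L.subtype (Submodule.ker_subtype _)
    have hs' : φ s ≠ 0 := fun h => hs (hinj (by rw [h, map_zero]))
    have h6 := h5.units_smul (fun _ => Units.mk0 (φ s) hs')
    convert h6 using 1
    funext b
    exact hfun b

end Pool.Agent.H865_shift.Pencil
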