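import Mathlib

/-!
Choosing bases from polynomial curves with distinct parameters.
-/

open Module

namespace Pool.Agent.H865_shift

theorem select {K k V A : Type*} [Infinite K] [Field k] [AddCommGroup V] [Module k V]
    [FiniteDimensional k V] (z : A → K → V)
    (hz : ∀ (α : A) (ψ : V →ₗ[k] k), {c : K | ψ (z α c) = 0}.Infinite → ∀ μ, ψ (z α μ) = 0)
    (Z : Finset K) :
    ∃ (n : ℕ) (α : Fin n → A) (c : Fin n → K), Function.Injective c ∧ (∀ i, c i ∉ Z) ∧
      LinearIndependent k (fun i => z (α i) (c i)) ∧
      ∀ β μ, z β μ ∈ Submodule.span k (Set.range fun i => z (α i) (c i)) := by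
  classical
  let P : ℕ → Prop := fun n => ∃ (α : Fin n → A) (c : Fin n → K), Function.Injective c ∧
    (∀ i, c i ∉ Z) ∧ LinearIndependent k (fun i => z (α i) (c i))
  by_contra hcon
  push Not at hcon
  have hall : ∀ n, P n := by
    intro n
    induction n with
    | zero =>
      exact ⟨Fin.elim0, Fin.elim0, fun i => i.elim0, fun i => i.elim0, linearIndependent_empty_type⟩
    | succ n ih =>
      obtain ⟨α, c, hc, hcZ, hli⟩ := ih
      obtain ⟨β, μ, hβ⟩ := hcon n α c hc hcZ hli
      obtain ⟨ψ, hψ1, hψ2⟩ := Submodule.exists_le_ker_of_notMem hβ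
      have hfin : {c : K | ψ (z β c) = 0}.Finite := by
        by_contra hinf
        exact hψ1 (hz β ψ hinf μ)
      obtain ⟨c0, hc0⟩ := Set.Infinite.nonempty
        ((hfin.union ((Z.finite_toSet).union (Set.finite_range c))).infinite_compl)
      simp only [Set.mem_compl_iff, Set.mem_union, Set.mem_setOf_eq, Finset.mem_coe,
        Set.mem_range, not_or, not_exists] at hc0
      obtain ⟨h1, h2, h3⟩ := hc0
      refine ⟨Fin.cons β α, Fin.cons c0 c, ?_, ?_, ?_⟩
      · rw [Fin.cons_injective_iff]
        exact ⟨fun ⟨i, hi⟩ => h3 i hi, hc⟩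
      · intro i
        refine Fin.cases ?_ (fun j => ?_) i
        · simpa using h2
        · simpa using hcZ j
      · have he : (fun i => z ((Fin.cons β α : Fin (n+1) → A) i) ((Fin.cons c0 c : Fin (n+1) → K) i))
            = Fin.cons (z β c0) (fun i => z (α i) (c i)) := by
          funext i
          refine Fin.cases ?_ (fun j => ?_) i
          · simp
          · simp
        rw [he, linearIndependent_finCons]
        refine ⟨hli, fun hmem => h1 ?_⟩
        exact LinearMap.mem_ker.1 (hψ2 hmem)
  obtain ⟨α, c, -, -, hli⟩ := hall (finrank k V + 1)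
  have := hli.fintype_card_le_finrank
  simp at this

end Pool.Agent.H865_shift
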