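import Pool.Agent.H865_shift.Rank
import Pool.Agent.H865_shift.Select
import Pool.Agent.H865_shift.Pencil

/-!
Assembly of the complete family in coordinates.
-/

open MvPolynomial Module
open Pool.Agent.H865_shift.Pairing

set_option linter.unusedSectionVars false

namespace Pool.Agent.H865_shift

lemma Pairing.Dualizable.of_li {O : Type*} [CommRing O] [IsDomain O] {n N : Type*} [Fintype n]
    [Finite N] [DecidableEq N] {c : N → n → O} (hc : LinearIndependent O c) :
    ∃ g : O, g ≠ 0 ∧ Dualizable c g := by
  apply Dualizable.descend (F := FractionRing O)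
  rw [← LinearIndependent.iff_fractionRing (R := O) (K := FractionRing O)]
  let φ : (n → O) →ₗ[O] (n → FractionRing O) :=
    { toFun := fun x a => algebraMap O (FractionRing O) (x a)
      map_add' := by intro x y; funext a; simp
      map_smul' := by intro t x; funext a; simp [Algebra.smul_def] }
  have hφ : LinearMap.ker φ = ⊥ := by
    rw [LinearMap.ker_eq_bot']
    intro x hx
    funext a
    have := congrFun hx a
    apply IsFractionRing.injective O (FractionRing O)
    simpa [φ] using this
  exact hc.map' φ hφ

variable {K κ ι : Type*} [Field K] [Fintype κ] [Fintype ι]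

namespace Data

variable (d : Data K κ ι)

/-- A functional vanishing at infinitely many points of a shift curve vanishes identically. -/
lemma curve [CharZero K] {k : Type*} [Field k] [Algebra (MvPolynomial κ K) k]
    [IsFractionRing (MvPolynomial κ K) k] {n : Type*} [Fintype n] (u : n → MvPolynomial κ K)
    (ψ : (n → k) →ₗ[k] k)
    (hinf : {c : K | ψ (fun a => algebraMap _ k (d.tau c (u a))) = 0}.Infinite) (μ : K) :
    ψ (fun a => algebraMap _ k (d.tau μ (u a))) = 0 := by
  classical
  set alg := algebraMap (MvPolynomial κ K) k with halg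
  have hinj : Function.Injective alg := IsFractionRing.injective _ _
  let Θ : MvPolynomial κ K →+* Polynomial k :=
    eval₂Hom (Polynomial.C.comp (alg.comp C))
      (fun j => Polynomial.C (alg (X j)) + Polynomial.C (alg (C (d.a j))) * Polynomial.X)
  have hΘ : ∀ (c : K) (x : MvPolynomial κ K),
      Polynomial.eval (alg (C c)) (Θ x) = alg (d.tau c x) := by
    intro c x
    induction x using MvPolynomial.induction_on with
    | C r => simp [Θ]
    | add p q hp hq => rw [map_add, Polynomial.eval_add, hp, hq, map_add, map_add]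
    | mul_X p j hp =>
      rw [map_mul, Polynomial.eval_mul, hp, map_mul, map_mul, tau_X]
      simp only [Θ, coe_eval₂Hom, eval₂_X, Polynomial.eval_add, Polynomial.eval_mul,
        Polynomial.eval_C, Polynomial.eval_X, map_add, map_mul]
      ring
  have hψ : ∀ y : n → k, ψ y = ∑ a, ψ (Pi.single a 1) * y a := by
    intro y
    conv_lhs => rw [← Finset.univ_sum_single y]
    rw [map_sum]
    refine Finset.sum_congr rfl fun a _ => ?_
    have : (Pi.single a (y a) : n → k) = y a • Pi.single a 1 := by
      rw [← Pi.single_smul, smul_eq_mul, mul_one]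
    rw [this, map_smul, smul_eq_mul, mul_comm]
  set P : Polynomial k := ∑ a, Polynomial.C (ψ (Pi.single a 1)) * Θ (u a) with hP
  have hev : ∀ c : K, Polynomial.eval (alg (C c)) P = ψ (fun a => alg (d.tau c (u a))) := by
    intro c
    rw [hψ, hP, Polynomial.eval_finsetSum]
    exact Finset.sum_congr rfl fun a _ => by rw [Polynomial.eval_mul, Polynomial.eval_C, hΘ]
  have hP0 : P = 0 := by
    apply Polynomial.eq_zero_of_infinite_isRoot
    have hinj2 : Function.Injective (fun c : K => alg (C c)) := fun c c' h =>
      C_injective κ K (hinj h)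
    refine (hinf.image hinj2.injOn).mono ?_
    rintro _ ⟨c, hc, rfl⟩
    exact (hev c).trans hc
  rw [← hev μ, hP0, Polynomial.eval_zero]

/-- common first integrals -/
noncomputable def inv {T : Type*} (F : T → ι → MvPolynomial κ K) :
    Subalgebra K (MvPolynomial κ K) where
  carrier := {x | ∀ t, d.DA (F t) x = 0}
  mul_mem' := by
    intro x y hx hy t
    rw [Derivation.leibniz, hx t, hy t]; simp
  add_mem' := by
    intro x y hx hy t
    rw [map_add, hx t, hy t, add_zero]
  algebraMap_mem' := by
    intro r t
    rw [MvPolynomial.algebraMap_eq, derivation_C]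

lemma mem_inv {T : Type*} {F : T → ι → MvPolynomial κ K} {x : MvPolynomial κ K} :
    x ∈ d.inv F ↔ ∀ t, d.DA (F t) x = 0 := Iff.rfl

lemma v_tau (c : K) (q : ι → MvPolynomial κ K) (j : κ) :
    d.v (fun i => d.tau c (q i)) j = d.tau c (d.v q j) := by
  simp [v, Ea]

/-- Existence of the system. -/
theorem exists_sys [CharZero K] {k : Type*} [Field k] [Algebra (MvPolynomial κ K) k]
    [IsFractionRing (MvPolynomial κ K) k] :
    ∃ (n₁ n₀ : ℕ) (S : Sys d (Fin n₁) (Fin n₀)),
      LinearIndependent k (fun t i => algebraMap (MvPolynomial κ K) k (S.F (Sum.inl t) i)) ∧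
      (∀ (c : K) (f : ι → MvPolynomial κ K), d.IsShift c f →
      (fun i => algebraMap (MvPolynomial κ K) k (f i)) ∈
        Submodule.span k (Set.range fun t i => algebraMap (MvPolynomial κ K) k (S.F (Sum.inl t) i)))
      ∧ S.δ ≠ 0 := by
  classical
  set alg := algebraMap (MvPolynomial κ K) k with halg
  have hinj : Function.Injective alg := IsFractionRing.injective _ _
  obtain ⟨n₁, α₁, c₁, hc₁, -, hli₁, hsp₁⟩ := select (K := K) (k := k) (V := ι → k)
    (A := {q // d.IsGood q}) (fun q c i => alg (d.tau c (q.1 i)))
    (fun q ψ h μ => d.curve (k := k) q.1 ψ h μ) ∅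
  obtain ⟨n₀, α₀, c₀, hc₀, hZ, hli₀, hsp₀⟩ := select (K := K) (k := k) (V := κ → k)
    (A := {q // d.IsGood q}) (fun q c j => alg (d.tau c (d.v q.1 j)))
    (fun q ψ h μ => d.curve (k := k) (d.v q.1) ψ h μ) (Finset.univ.image c₁)
  let F : Fin n₁ ⊕ Fin n₀ → ι → MvPolynomial κ K :=
    Sum.elim (fun t i => d.tau (c₁ t) ((α₁ t).1 i)) (fun u i => d.tau (c₀ u) ((α₀ u).1 i))
  let c : Fin n₁ ⊕ Fin n₀ → K := Sum.elim c₁ c₀
  have hshift : ∀ t, d.IsShift (c t) (F t) := by
    intro t
    rcases t with t | u
    · exact ⟨(α₁ t).1, (α₁ t).2, fun i => rfl⟩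
    · exact ⟨(α₀ u).1, (α₀ u).2, fun i => rfl⟩
  have hvinv : ∀ t j, d.v (F t) j ∈ d.inv F := by
    intro t j s
    simp only [v, map_sum, Derivation.leibniz, IsShift.DA_eq_zero d (hshift s) (hshift t), Ea,
      derivation_C]
    simp
  let vO : Fin n₀ → κ → d.inv F := fun u j => ⟨d.v (F (Sum.inr u)) j, hvinv _ _⟩
  have hvk : ∀ u, (fun j => alg (d.v (F (Sum.inr u)) j)) =
      fun j => alg (d.tau (c₀ u) (d.v (α₀ u).1 j)) := by
    intro u
    funext j
    rw [← v_tau]
    rfl
  have hvO : LinearIndependent (d.inv F) vO := by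
    rw [Fintype.linearIndependent_iff]
    intro s hs u
    rw [Fintype.linearIndependent_iff] at hli₀
    have := hli₀ (fun u => alg (s u : MvPolynomial κ K)) (by
      funext j
      have h1 := congrArg (fun f : κ → d.inv F => alg ((f j : d.inv F) : MvPolynomial κ K)) hs
      simp only [Finset.sum_apply, Pi.smul_apply, smul_eq_mul, AddSubmonoidClass.coe_finsetSum,
        MulMemClass.coe_mul, map_sum, map_mul, Pi.zero_apply, ZeroMemClass.coe_zero,
        map_zero] at h1
      simp only [Finset.sum_apply, Pi.smul_apply, smul_eq_mul, Pi.zero_apply]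
      rw [← h1]
      refine Finset.sum_congr rfl fun u _ => ?_
      have := congrFun (hvk u) j
      rw [← this]) u
    have h2 : (s u : MvPolynomial κ K) = 0 := hinj (by rw [this, map_zero])
    exact Subtype.ext h2
  obtain ⟨g, hg, y, hy⟩ := Dualizable.of_li hvO
  have hdual : ∀ u u', ∑ j, d.v (F (Sum.inr u)) j * (y u' j : MvPolynomial κ K) =
      if u = u' then (g : MvPolynomial κ K) else 0 := by
    intro u u'
    have := congrArg (fun x : d.inv F => (x : MvPolynomial κ K)) (hy u u')
    simp only [dot, vO, AddSubmonoidClass.coe_finsetSum, MulMemClass.coe_mul] at this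
    rw [this]
    split_ifs <;> simp
  have hspan : ∀ t j, (g : MvPolynomial κ K) * d.v (F t) j =
      ∑ u, (∑ l, (y u l : MvPolynomial κ K) * d.v (F t) l) * d.v (F (Sum.inr u)) j := by
    intro t j
    obtain ⟨q, hq, hFq⟩ := hshift t
    have h1 := hsp₀ ⟨q, hq⟩ (c t)
    rw [Submodule.mem_span_range_iff_exists_fun] at h1
    obtain ⟨b, hb⟩ := h1
    have hb' : ∀ j, ∑ u, b u * alg (d.v (F (Sum.inr u)) j) = alg (d.v (F t) j) := by
      intro j
      have h2 := congrFun hb j
      simp only [Finset.sum_apply, Pi.smul_apply, smul_eq_mul] at h2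
      have h3 : F t = fun i => d.tau (c t) (q i) := funext hFq
      rw [h3, v_tau, ← h2]
      refine Finset.sum_congr rfl fun u _ => ?_
      have := congrFun (hvk u) j
      rw [← this]
    have hcoef : ∀ u, alg (∑ l, (y u l : MvPolynomial κ K) * d.v (F t) l) = b u * alg g := by
      intro u
      rw [map_sum]
      simp only [map_mul, ← hb', Finset.mul_sum]
      rw [Finset.sum_comm]
      have h4 : ∀ u', ∑ l, alg (y u l : MvPolynomial κ K) * (b u' * alg (d.v (F (Sum.inr u')) l)) =
          b u' * (if u' = u then alg g else 0) := by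
        intro u'
        have h5 := congrArg alg (hdual u' u)
        rw [map_sum] at h5
        simp only [map_mul] at h5
        have h6 : alg (if u' = u then (g : MvPolynomial κ K) else 0) =
            if u' = u then alg g else 0 := by split_ifs <;> simp
        rw [h6] at h5
        rw [← h5, Finset.mul_sum]
        exact Finset.sum_congr rfl fun l _ => by ring
      simp only [h4, mul_ite, mul_zero, Finset.sum_ite_eq', Finset.mem_univ, if_true]
    apply hinj
    rw [map_mul, map_sum, ← hb' j, Finset.mul_sum]
    refine Finset.sum_congr rfl fun u _ => ?_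
    rw [map_mul, hcoef u]; ring
  let S : Sys d (Fin n₁) (Fin n₀) :=
    { F := F
      c := c
      inj := by
        apply Function.Injective.sumElim hc₁ hc₀
        intro t u h
        exact hZ u (by rw [← h]; exact Finset.mem_image_of_mem _ (Finset.mem_univ _))
      shift := hshift
      B := fun j u => (y u j : MvPolynomial κ K)
      δ := (g : MvPolynomial κ K)
      hB := fun t j u => (y u j).2 t
      hδ := fun t => g.2 t
      dual := hdual
      span := hspan }
  refine ⟨n₁, n₀, S, hli₁, ?_, ?_⟩
  · rintro c f ⟨q, hq, hfq⟩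
    have h1 := hsp₁ ⟨q, hq⟩ c
    have h2 : (fun i => alg (f i)) = fun i => alg (d.tau c (q i)) := by
      funext i; rw [hfq i]
    rw [h2]
    exact h1
  · intro h
    apply hg
    exact Subtype.ext h

end Data

end Pool.Agent.H865_shift
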