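import Mathlib

/-!
Shift pencils of metabelian Lie algebras: semi-invariant stabiliser vectors.

A metabelian Lie algebra is presented by an abelian ideal with basis `u_j` (`j : κ`) and further
basis vectors `e_i` (`i : ι`) with `[e_i, u_j] = sum_l eps i j l u_l` and
`[e_i, e_k] = sum_l gam i k l u_l`.
-/

open MvPolynomial

set_option linter.unusedSectionVars false

namespace Pool.Agent.H865_shift

/-- Structure constants of a metabelian Lie algebra, together with the values of the shift
functional on the abelian ideal. -/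
structure Data (K κ ι : Type*) [Field K] [Fintype κ] where
  eps : ι → κ → κ → K
  gam : ι → ι → κ → K
  a : κ → K
  comm : ∀ i i' j l, ∑ m, eps i' j m * eps i m l = ∑ m, eps i j m * eps i' m l
  gam_anti : ∀ i j l, gam i j l = - gam j i l
  jac : ∀ i j k l, ∑ m, (gam j k m * eps i m l + gam k i m * eps j m l + gam i j m * eps k m l) = 0

variable {K κ ι : Type*} [Field K] [Fintype κ] [Fintype ι]

/-- linear form with given coefficients -/
noncomputable def lin (c : κ → K) : MvPolynomial κ K := ∑ l, C (c l) * X l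

namespace Data

variable (d : Data K κ ι)

/-- `[e_i, u_j]` as a linear form -/
noncomputable def E (i : ι) (j : κ) : MvPolynomial κ K := lin (d.eps i j)

/-- `⟨a, [e_i, u_j]⟩` -/
noncomputable def Ea (i : ι) (j : κ) : MvPolynomial κ K := C (∑ l, d.eps i j l * d.a l)

/-- the adjoint action of `e_i` on polynomials in the ideal -/
noncomputable def Xd (i : ι) : Derivation K (MvPolynomial κ K) (MvPolynomial κ K) :=
  mkDerivation K (fun j => d.E i j)

/-- the constant version of `Xd`. -/
noncomputable def Xa (i : ι) : Derivation K (MvPolynomial κ K) (MvPolynomial κ K) :=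
  mkDerivation K (fun j => d.Ea i j)

/-- directional derivative along `a` -/
noncomputable def Da : Derivation K (MvPolynomial κ K) (MvPolynomial κ K) :=
  mkDerivation K (fun j => C (d.a j))

/-- The vector field attached to a vector of polynomials. -/
noncomputable def D (q : ι → MvPolynomial κ K) : Derivation K (MvPolynomial κ K) (MvPolynomial κ K) :=
  ∑ i, q i • d.Xd i

/-- The constant version of `D` -/
noncomputable def DA (q : ι → MvPolynomial κ K) : Derivation K (MvPolynomial κ K) (MvPolynomial κ K) :=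
  ∑ i, q i • d.Xa i

@[simp] lemma Xd_X (i : ι) (j : κ) : d.Xd i (X j) = d.E i j := by simp [Xd]
@[simp] lemma Xa_X (i : ι) (j : κ) : d.Xa i (X j) = d.Ea i j := by simp [Xa]
@[simp] lemma Da_X (j : κ) : d.Da (X j) = C (d.a j) := by simp [Da]

lemma sum_deriv_apply {J : Type*} (s : Finset J)
    (f : J → Derivation K (MvPolynomial κ K) (MvPolynomial κ K)) (x : MvPolynomial κ K) :
    (∑ i ∈ s, f i) x = ∑ i ∈ s, f i x := by
  classical
  induction s using Finset.induction_on with
  | empty => simp
  | insert a s ha ih => rw [Finset.sum_insert ha, Finset.sum_insert ha, Derivation.add_apply, ih]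

lemma D_apply (q : ι → MvPolynomial κ K) (x : MvPolynomial κ K) :
    d.D q x = ∑ i, q i * d.Xd i x := by
  rw [D, sum_deriv_apply]
  simp

lemma DA_apply (q : ι → MvPolynomial κ K) (x : MvPolynomial κ K) :
    d.DA q x = ∑ i, q i * d.Xa i x := by
  rw [DA, sum_deriv_apply]
  simp

lemma Xd_lin (i : ι) (c : κ → K) : d.Xd i (lin c) = lin (fun l => ∑ j, c j * d.eps i j l) := by
  simp only [lin, map_sum, Derivation.leibniz, derivation_C, Xd_X, E,
    smul_eq_mul, Finset.mul_sum, Finset.sum_mul, mul_zero, add_zero]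
  rw [Finset.sum_comm]
  refine Finset.sum_congr rfl fun l _ => Finset.sum_congr rfl fun j _ => ?_
  rw [map_mul]; ring

lemma deriv_lin (δ : Derivation K (MvPolynomial κ K) (MvPolynomial κ K)) (c : κ → K) :
    δ (lin c) = ∑ l, C (c l) * δ (X l) := by
  simp [lin]

lemma Xd_comm (i i' : ι) (x : MvPolynomial κ K) : d.Xd i (d.Xd i' x) = d.Xd i' (d.Xd i x) := by
  have h : ⁅d.Xd i, d.Xd i'⁆ = 0 := by
    apply derivation_ext
    intro j
    rw [Derivation.commutator_apply, Xd_X, Xd_X, E, E, Xd_lin, Xd_lin]
    simp only [d.comm i i' j]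
    simp
  have h2 := congrArg (fun δ : Derivation K (MvPolynomial κ K) (MvPolynomial κ K) => δ x) h
  simp only [Derivation.commutator_apply, Derivation.coe_zero, Pi.zero_apply] at h2
  exact sub_eq_zero.1 h2

lemma Xa_comm (i i' : ι) (x : MvPolynomial κ K) : d.Xa i (d.Xa i' x) = d.Xa i' (d.Xa i x) := by
  have h : ⁅d.Xa i, d.Xa i'⁆ = 0 := by
    apply derivation_ext
    intro j
    rw [Derivation.commutator_apply, Xa_X, Xa_X, Ea, Ea]
    simp
  have h2 := congrArg (fun δ : Derivation K (MvPolynomial κ K) (MvPolynomial κ K) => δ x) h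
  simp only [Derivation.commutator_apply, Derivation.coe_zero, Pi.zero_apply] at h2
  exact sub_eq_zero.1 h2

/-- `[∂_a, X_i] = X_i^a` -/
lemma Da_Xd (i : ι) (x : MvPolynomial κ K) :
    d.Da (d.Xd i x) = d.Xd i (d.Da x) + d.Xa i x := by
  have h : ⁅d.Da, d.Xd i⁆ = d.Xa i := by
    apply derivation_ext
    intro j
    rw [Derivation.commutator_apply, Xd_X, Da_X, derivation_C, sub_zero, E, deriv_lin, Xa_X, Ea,
      map_sum]
    simp
  have h2 := congrArg (fun δ : Derivation K (MvPolynomial κ K) (MvPolynomial κ K) => δ x) h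
  simp only [Derivation.commutator_apply] at h2
  rw [← h2]; ring

/-- a vector annihilated by the action -/
def Ker (q : ι → MvPolynomial κ K) : Prop := ∀ j, ∑ i, q i * d.E i j = 0

lemma Ker.D_eq_zero {q : ι → MvPolynomial κ K} (hq : d.Ker q) (x : MvPolynomial κ K) :
    d.D q x = 0 := by
  have h : d.D q = 0 := by
    apply derivation_ext
    intro j
    rw [D_apply]
    simpa using hq j
  rw [h]; rfl

lemma Ker.of_D {q : ι → MvPolynomial κ K} (hq : ∀ x, d.D q x = 0) : d.Ker q := by
  intro j
  have := hq (X j)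
  rw [D_apply] at this
  simpa using this

lemma Ker.Xd {q : ι → MvPolynomial κ K} (hq : d.Ker q) (l : ι) :
    d.Ker (fun i => d.Xd l (q i)) := by
  apply Ker.of_D
  intro x
  have h1 : d.Xd l (d.D q x) = 0 := by rw [Ker.D_eq_zero d hq]; simp
  have h2 : d.D q (d.Xd l x) = 0 := Ker.D_eq_zero d hq _
  rw [D_apply] at h1 h2
  rw [D_apply]
  simp only [map_sum, Derivation.leibniz, smul_eq_mul, Finset.sum_add_distrib] at h1
  simp only [Xd_comm d l] at h1
  rw [h2, zero_add] at h1
  rw [← h1]
  refine Finset.sum_congr rfl fun i _ => by ring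

/-- A good vector: annihilated, with semi-invariant entries. -/
def IsGood (q : ι → MvPolynomial κ K) : Prop :=
  d.Ker q ∧ ∃ χ : ι → K, ∀ i l, d.Xd i (q l) = C (χ i) * q l

/-- Good vectors: the weights pair to zero. -/
lemma good_weight {q q' : ι → MvPolynomial κ K} (hq : d.Ker q) {χ : ι → K}
    {l : ι} (hχ : ∀ i, d.Xd i (q' l) = C (χ i) * q' l) (hl : q' l ≠ 0) :
    ∑ i, q i * C (χ i) = 0 := by
  have h := Ker.D_eq_zero d hq (q' l)
  rw [D_apply] at h
  simp only [hχ] at h
  have h2 : (∑ i, q i * C (χ i)) * q' l = 0 := by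
    rw [← h, Finset.sum_mul]
    exact Finset.sum_congr rfl fun i _ => by ring
  exact (mul_eq_zero.1 h2).resolve_right hl

lemma DA_good {q q' : ι → MvPolynomial κ K} (hq : d.Ker q) {χ : ι → K}
    {l : ι} (hχ : ∀ i, d.Xd i (q' l) = C (χ i) * q' l) : d.DA q (q' l) = 0 := by
  by_cases hl : q' l = 0
  · rw [hl]; simp
  have hw := good_weight d hq hχ hl
  -- D_{∂_a q} (q' l) = 0
  have h1 : d.Da (d.D q (q' l)) = 0 := by rw [Ker.D_eq_zero d hq]; simp
  have h2 : d.D q (d.Da (q' l)) = 0 := Ker.D_eq_zero d hq _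
  have h3 : d.Da (∑ i, q i * C (χ i)) = 0 := by rw [hw]; simp
  rw [D_apply] at h1 h2
  simp only [map_sum, Derivation.leibniz, smul_eq_mul, derivation_C, mul_zero, zero_add] at h3
  simp only [map_sum, Derivation.leibniz, smul_eq_mul, Da_Xd, mul_add, Finset.sum_add_distrib] at h1
  rw [h2, zero_add] at h1
  rw [DA_apply]
  have h4 : ∑ i, d.Xd i (q' l) * d.Da (q i) = 0 := by
    simp only [hχ]
    calc ∑ i, C (χ i) * q' l * d.Da (q i) = (∑ i, C (χ i) * d.Da (q i)) * q' l := by
          rw [Finset.sum_mul]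
          exact Finset.sum_congr rfl fun i _ => by ring
      _ = 0 := by rw [h3]; simp
  rw [h4, add_zero] at h1
  exact h1

/-! ### The shift automorphism -/

/-- `w ↦ w + c a` -/
noncomputable def tau (c : K) : MvPolynomial κ K →ₐ[K] MvPolynomial κ K :=
  aeval (fun j => X j + C (c * d.a j))

@[simp] lemma tau_X (c : K) (j : κ) : d.tau c (X j) = X j + C (c * d.a j) := by simp [tau]

@[simp] lemma tau_C (c : K) (r : K) : d.tau c (C r) = C r := by
  rw [← MvPolynomial.algebraMap_eq]; exact (d.tau c).commutes r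

lemma tau_tau (c c' : K) (x : MvPolynomial κ K) : d.tau c (d.tau c' x) = d.tau (c + c') x := by
  induction x using MvPolynomial.induction_on with
  | C r => simp
  | add p q hp hq => rw [map_add, map_add, map_add, hp, hq]
  | mul_X p j hp =>
    rw [map_mul, map_mul, map_mul, hp]
    simp only [tau_X, map_add, tau_C, add_mul]
    ring

lemma tau_zero (x : MvPolynomial κ K) : d.tau 0 x = x := by
  induction x using MvPolynomial.induction_on with
  | C r => simp
  | add p q hp hq => rw [map_add, hp, hq]
  | mul_X p j hp => rw [map_mul, hp]; simp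

lemma tau_injective (c : K) : Function.Injective (d.tau c) := by
  intro x y h
  have := congrArg (d.tau (-c)) h
  simpa [tau_tau, tau_zero] using this

lemma tau_lin (c : K) (e : κ → K) : d.tau c (lin e) = lin e + C (c * ∑ l, e l * d.a l) := by
  simp only [lin, map_sum, map_mul, tau_C, tau_X, mul_add, Finset.sum_add_distrib, Finset.mul_sum]
  congr 1
  refine Finset.sum_congr rfl fun l _ => by ring

lemma Xd_tau (i : ι) (c : K) (x : MvPolynomial κ K) :
    d.Xd i (d.tau c x) + C c * d.Xa i (d.tau c x) = d.tau c (d.Xd i x) := by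
  induction x using MvPolynomial.induction_on with
  | C r => simp
  | add p q hp hq =>
    simp only [map_add, mul_add]
    rw [← hp, ← hq]; ring
  | mul_X p j hp =>
    simp only [map_mul, Derivation.leibniz, smul_eq_mul, map_add, ← hp]
    simp only [tau_X, map_add, derivation_C, Xd_X, Xa_X, Ea, E, tau_lin, add_zero]
    simp only [map_mul]
    ring

lemma Xa_tau (i : ι) (c : K) (x : MvPolynomial κ K) :
    d.Xa i (d.tau c x) = d.tau c (d.Xa i x) := by
  induction x using MvPolynomial.induction_on with
  | C r => simp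
  | add p q hp hq => simp only [map_add, hp, hq]
  | mul_X p j hp =>
    simp only [map_mul, Derivation.leibniz, smul_eq_mul, map_add, ← hp]
    simp only [tau_X, map_add, derivation_C, Xa_X, Ea, tau_C, add_zero]

/-- A shifted good vector. -/
def IsShift (c : K) (f : ι → MvPolynomial κ K) : Prop :=
  ∃ q, d.IsGood q ∧ ∀ i, f i = d.tau c (q i)

lemma IsShift.D_eq {c : K} {f : ι → MvPolynomial κ K} (hf : d.IsShift c f) (x : MvPolynomial κ K) :
    d.D f x = - (C c * d.DA f x) := by
  obtain ⟨q, ⟨hq, -⟩, hfq⟩ := hf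
  have h1 : d.D q (d.tau (-c) x) = 0 := Ker.D_eq_zero d hq _
  have h2 := congrArg (d.tau c) h1
  rw [D_apply] at h2
  simp only [map_sum, map_mul, ← Xd_tau, map_zero, tau_tau, add_neg_cancel, tau_zero, ← hfq] at h2
  simp only [mul_add, Finset.sum_add_distrib] at h2
  rw [D_apply, DA_apply, Finset.mul_sum, eq_neg_iff_add_eq_zero, ← h2]
  congr 1
  exact Finset.sum_congr rfl fun i _ => by ring

lemma IsShift.DA_eq_zero {c c' : K} {f f' : ι → MvPolynomial κ K} (hf : d.IsShift c f)
    (hf' : d.IsShift c' f') (l : ι) : d.DA f (f' l) = 0 := by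
  obtain ⟨q, ⟨hq, -⟩, hfq⟩ := id hf
  obtain ⟨q', ⟨hq', χ, hχ⟩, hfq'⟩ := hf'
  by_cases hcc : c = c'
  · subst hcc
    have h1 := DA_good d hq (fun i => hχ i l)
    have h2 := congrArg (d.tau c) h1
    rw [DA_apply] at h2 ⊢
    simp only [map_sum, map_mul, ← Xa_tau, map_zero, ← hfq, ← hfq'] at h2
    exact h2
  · by_cases hl : q' l = 0
    · rw [hfq' l, hl]; simp
    have hw := good_weight d hq (fun i => hχ i l) hl
    have hw' := congrArg (d.tau c) hw
    simp only [map_sum, map_mul, tau_C, map_zero, ← hfq] at hw'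
    have h1 : ∀ i, d.Xd i (f' l) + C c' * d.Xa i (f' l) = C (χ i) * f' l := by
      intro i
      rw [hfq' l, Xd_tau, hχ i l, map_mul, tau_C]
    have h2 : d.D f (f' l) + C c' * d.DA f (f' l) = 0 := by
      rw [D_apply, DA_apply, Finset.mul_sum, ← Finset.sum_add_distrib]
      calc ∑ i, (f i * d.Xd i (f' l) + C c' * (f i * d.Xa i (f' l)))
          = ∑ i, f i * (d.Xd i (f' l) + C c' * d.Xa i (f' l)) :=
            Finset.sum_congr rfl fun i _ => by ring
        _ = (∑ i, f i * C (χ i)) * f' l := by
            rw [Finset.sum_mul]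
            exact Finset.sum_congr rfl fun i _ => by rw [h1 i]; ring
        _ = 0 := by rw [hw']; simp
    rw [IsShift.D_eq d hf] at h2
    have h3 : C (c' - c) * d.DA f (f' l) = 0 := by
      rw [map_sub]; linear_combination h2
    refine (mul_eq_zero.1 h3).resolve_left ?_
    intro h4
    rw [← map_zero (C : K →+* MvPolynomial κ K)] at h4
    exact hcc (sub_eq_zero.1 (C_injective κ K h4)).symm

end Data

end Pool.Agent.H865_shift
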