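import Pool.Agent.H865_shift.Good

/-!
Good vectors span the annihilated vectors.
-/

open MvPolynomial

set_option linter.unusedSectionVars false

namespace Pool.Agent.H865_shift

variable {K κ ι : Type*} [Field K] [Fintype κ] [Fintype ι]

lemma totalDegree_lin (c : κ → K) : (lin c).totalDegree ≤ 1 := by
  unfold lin
  apply totalDegree_finsetSum_le
  intro l _
  refine (totalDegree_mul _ _).trans ?_
  rw [totalDegree_C, totalDegree_X, zero_add]

namespace Data

variable (d : Data K κ ι)

lemma totalDegree_Xd_le (i : ι) (g : MvPolynomial κ K) :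
    (d.Xd i g).totalDegree ≤ g.totalDegree := by
  classical
  conv_lhs => rw [MvPolynomial.as_sum g, map_sum]
  apply totalDegree_finsetSum_le
  intro s hs
  rw [Xd, mkDerivation_monomial]
  refine (totalDegree_smul_le _ _).trans ?_
  rw [Finsupp.sum]
  apply totalDegree_finsetSum_le
  intro j hj
  rw [smul_eq_mul]
  refine (totalDegree_mul _ _).trans ?_
  have h1 : (monomial (s - Finsupp.single j 1) ((s j : ℕ) : K)).totalDegree ≤
      (s - Finsupp.single j 1).sum fun _ e => e :=
    totalDegree_monomial_le (R := K) (s - Finsupp.single j 1) ((s j : ℕ) : K)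
  have h2 := totalDegree_lin (d.eps i j)
  have h3 : ((s - Finsupp.single j 1).sum fun _ e => e) + 1 = s.sum fun _ e => e := by
    have hle : Finsupp.single j 1 ≤ s := by
      rw [Finsupp.single_le_iff]
      exact Nat.one_le_iff_ne_zero.2 (Finsupp.mem_support_iff.1 hj)
    conv_rhs => rw [← tsub_add_cancel_of_le hle]
    rw [Finsupp.sum_add_index' (by simp) (by simp)]
    simp
  have h4 := le_totalDegree hs
  have h5 : (d.E i j).totalDegree ≤ 1 := h2
  omega

open Classical in
/-- support of a vector of polynomials -/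
noncomputable def supp (q : ι → MvPolynomial κ K) : Finset ι := Finset.univ.filter (fun i => q i ≠ 0)

lemma mem_supp {q : ι → MvPolynomial κ K} {i : ι} : i ∈ supp q ↔ q i ≠ 0 := by
  classical
  simp [supp]

lemma supp_eq_empty {q : ι → MvPolynomial κ K} (h : supp q = ∅) : q = 0 := by
  funext i
  by_contra hi
  have : i ∈ supp q := mem_supp.2 hi
  rw [h] at this
  simp at this

lemma Ker.comb {q q' : ι → MvPolynomial κ K} (hq : d.Ker q) (hq' : d.Ker q')
    (g g' : MvPolynomial κ K) : d.Ker (fun i => g * q i - g' * q' i) := by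
  intro j
  have h1 := hq j
  have h2 := hq' j
  calc ∑ i, (g * q i - g' * q' i) * d.E i j
      = g * ∑ i, q i * d.E i j - g' * ∑ i, q' i * d.E i j := by
        rw [Finset.mul_sum, Finset.mul_sum, ← Finset.sum_sub_distrib]
        exact Finset.sum_congr rfl fun i _ => by ring
    _ = 0 := by rw [h1, h2]; ring

/-- Two annihilated vectors supported in a minimal support are proportional. -/
lemma prop_of_minimal {S : Finset ι}
    (hmin : ∀ q, d.Ker q → supp q ⊂ S → q = 0) {q q' : ι → MvPolynomial κ K}
    (hq : d.Ker q) (hq' : d.Ker q') (hS : supp q ⊆ S) (hS' : supp q' ⊆ S) {i0 : ι} (hi0 : i0 ∈ S)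
    (i : ι) : q' i0 * q i = q i0 * q' i := by
  have h := hmin (fun i => q' i0 * q i - q i0 * q' i) (Ker.comb d hq hq' _ _) ?_
  · have := congrFun h i
    exact sub_eq_zero.1 this
  · rw [Finset.ssubset_iff_of_subset]
    · refine ⟨i0, hi0, ?_⟩
      rw [mem_supp]
      simp [mul_comm]
    · intro j hj
      rw [mem_supp] at hj
      by_contra hjS
      apply hj
      have h1 : q j = 0 := by
        by_contra h; exact hjS (hS (mem_supp.2 h))
      have h2 : q' j = 0 := by
        by_contra h; exact hjS (hS' (mem_supp.2 h))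
      simp [h1, h2]

lemma exists_good_of_minimal {S : Finset ι}
    (hmin : ∀ q, d.Ker q → supp q ⊂ S → q = 0)
    (hex : ∃ q, d.Ker q ∧ q ≠ 0 ∧ supp q ⊆ S) :
    ∃ q, d.IsGood q ∧ q ≠ 0 ∧ supp q ⊆ S := by
  classical
  have hfull : ∀ q, d.Ker q → q ≠ 0 → supp q ⊆ S → supp q = S := by
    intro q hq hne hS
    by_contra hh
    exact hne (hmin q hq (Finset.ssubset_iff_subset_ne.2 ⟨hS, hh⟩))
  obtain ⟨q₁, hq₁, hne₁, hS₁⟩ := hex
  have hSne : S.Nonempty := by
    rw [← hfull q₁ hq₁ hne₁ hS₁]
    rw [Finset.nonempty_iff_ne_empty]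
    intro h
    exact hne₁ (supp_eq_empty h)
  obtain ⟨i0, hi0⟩ := hSne
  have hexn : ∃ n : ℕ, ∃ q, d.Ker q ∧ q ≠ 0 ∧ supp q ⊆ S ∧ (q i0).totalDegree = n :=
    ⟨_, q₁, hq₁, hne₁, hS₁, rfl⟩
  obtain ⟨q, hq, hne, hS, hdeg⟩ := Nat.find_spec hexn
  have hdegmin : ∀ q', d.Ker q' → q' ≠ 0 → supp q' ⊆ S →
      (q i0).totalDegree ≤ (q' i0).totalDegree := by
    intro q' h1 h2 h3
    rw [hdeg]
    exact Nat.find_min' hexn ⟨q', h1, h2, h3, rfl⟩
  have hqi0 : q i0 ≠ 0 := by
    have := hfull q hq hne hS
    exact mem_supp.1 (this.symm ▸ hi0)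
  refine ⟨q, ⟨hq, ?_⟩, hne, hS⟩
  have key : ∀ l : ι, ∃ χ : K, ∀ i, d.Xd l (q i) = C χ * q i := by
    intro l
    -- proportionality of X_l q and q
    have hXl := Ker.Xd d hq l
    have hXS : supp (fun i => d.Xd l (q i)) ⊆ S := by
      intro j hj
      apply hS
      rw [mem_supp] at hj ⊢
      intro h0
      apply hj
      simp only [h0, map_zero]
    have hprop : ∀ i, d.Xd l (q i0) * q i = q i0 * d.Xd l (q i) := fun i =>
      prop_of_minimal d hmin hq hXl hS hXS hi0 i
    by_cases hh : d.Xd l (q i0) = 0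
    · refine ⟨0, fun i => ?_⟩
      have := hprop i
      rw [hh, zero_mul] at this
      rw [map_zero, zero_mul]
      exact (mul_eq_zero.1 this.symm).resolve_left hqi0
    obtain ⟨a', b', c', hrel, hac, hbc⟩ :=
      UniqueFactorizationMonoid.exists_reduced_factors (q i0) hqi0 (d.Xd l (q i0))
    have hc' : c' ≠ 0 := by
      rintro rfl
      rw [zero_mul] at hac
      exact hqi0 hac.symm
    have ha' : a' ≠ 0 := by
      rintro rfl
      rw [mul_zero] at hac
      exact hqi0 hac.symm
    have hb' : b' ≠ 0 := by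
      rintro rfl
      rw [mul_zero] at hbc
      exact hh hbc.symm
    have h1 : ∀ i, a' * d.Xd l (q i) = q i * b' := by
      intro i
      have := hprop i
      rw [← hbc] at this
      have h2 : q i0 * d.Xd l (q i) = c' * a' * d.Xd l (q i) := by rw [hac]
      rw [h2] at this
      apply mul_left_cancel₀ hc'
      linear_combination -this
    have h2 : ∀ i, a' ∣ q i := fun i =>
      hrel.dvd_of_dvd_mul_right ⟨_, (h1 i).symm⟩
    choose q' hq' using h2
    have hKer' : d.Ker q' := by
      intro j
      have := hq j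
      apply mul_left_cancel₀ ha'
      rw [mul_zero, ← this, Finset.mul_sum]
      exact Finset.sum_congr rfl fun i _ => by rw [hq' i]; ring
    have hne' : q' ≠ 0 := by
      rintro rfl
      apply hne
      funext i
      rw [hq' i]; simp
    have hS' : supp q' ⊆ S := by
      intro j hj
      apply hS
      rw [mem_supp] at hj ⊢
      rw [hq' j]
      exact mul_ne_zero ha' hj
    have h3 := hdegmin q' hKer' hne' hS'
    have hq'i0 : q' i0 ≠ 0 := by
      intro h
      apply hqi0
      rw [hq' i0, h, mul_zero]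
    have h4 : (q i0).totalDegree = a'.totalDegree + (q' i0).totalDegree := by
      conv_lhs => rw [hq' i0]
      exact totalDegree_mul_of_isDomain ha' hq'i0
    have h5 : a'.totalDegree = 0 := by omega
    obtain h6 := (totalDegree_eq_zero_iff_eq_C).1 h5
    set α := coeff 0 a' with hα
    have hα0 : α ≠ 0 := by
      intro h
      apply ha'
      rw [h6, h, map_zero]
    have h7 : (d.Xd l (q i0)).totalDegree = c'.totalDegree + b'.totalDegree := by
      rw [← hbc]
      exact totalDegree_mul_of_isDomain hc' hb'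
    have h8 : (q i0).totalDegree = c'.totalDegree + a'.totalDegree := by
      rw [← hac]
      exact totalDegree_mul_of_isDomain hc' ha'
    have h9 := totalDegree_Xd_le d l (q i0)
    have h10 : b'.totalDegree = 0 := by omega
    have h11 := (totalDegree_eq_zero_iff_eq_C).1 h10
    set β := coeff 0 b' with hβ
    refine ⟨β / α, fun i => ?_⟩
    have h12 := h1 i
    rw [h6, h11] at h12
    have h13 : (C α : MvPolynomial κ K) ≠ 0 := by
      rw [← h6]; exact ha'
    apply mul_left_cancel₀ h13
    rw [h12, ← mul_assoc, ← C_mul, mul_div_cancel₀ _ hα0]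
    ring
  choose χ hχ using key
  exact ⟨χ, fun i l => hχ i l⟩

/-- Good vectors span, up to multiples. -/
theorem exists_mul_mem_span (σ : ι → MvPolynomial κ K) (hσ : d.Ker σ) :
    ∃ g : MvPolynomial κ K, g ≠ 0 ∧
      g • σ ∈ Submodule.span (MvPolynomial κ K) {q | d.IsGood q} := by
  classical
  induction hn : (supp σ).card using Nat.strong_induction_on generalizing σ with
  | _ n ih =>
    by_cases h0 : σ = 0
    · refine ⟨1, one_ne_zero, ?_⟩
      rw [h0, smul_zero]
      exact Submodule.zero_mem _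
    -- minimal support
    obtain ⟨τ, ⟨hτ, hτ0, hτS⟩, hτmin⟩ : ∃ τ : ι → MvPolynomial κ K,
        (d.Ker τ ∧ τ ≠ 0 ∧ supp τ ⊆ supp σ) ∧ ∀ τ', (d.Ker τ' ∧ τ' ≠ 0 ∧ supp τ' ⊆ supp σ) →
          (supp τ).card ≤ (supp τ').card := by
      have hex : ∃ m : ℕ, ∃ τ : ι → MvPolynomial κ K,
        (d.Ker τ ∧ τ ≠ 0 ∧ supp τ ⊆ supp σ) ∧ (supp τ).card = m := ⟨_, σ, ⟨hσ, h0, subset_rfl⟩, rfl⟩
      obtain ⟨τ, h1, h2⟩ := Nat.find_spec hex
      exact ⟨τ, h1, fun τ' h3 => by rw [h2]; exact Nat.find_min' hex ⟨τ', h3, rfl⟩⟩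
    have hmin : ∀ q, d.Ker q → supp q ⊂ supp τ → q = 0 := by
      intro q hq hqS
      by_contra hne
      have h1 := hτmin q ⟨hq, hne, hqS.subset.trans hτS⟩
      have h2 := Finset.card_lt_card hqS
      omega
    obtain ⟨q, hqgood, hqne, hqS⟩ := exists_good_of_minimal d hmin ⟨τ, hτ, hτ0, subset_rfl⟩
    have hsq : supp q = supp τ := by
      by_contra hh
      exact hqne (hmin q hqgood.1 (Finset.ssubset_iff_subset_ne.2 ⟨hqS, hh⟩))
    obtain ⟨i0, hi0⟩ : (supp q).Nonempty := by
      rw [Finset.nonempty_iff_ne_empty]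
      intro h
      exact hqne (supp_eq_empty h)
    have hqi0 : q i0 ≠ 0 := mem_supp.1 hi0
    -- eliminate coordinate i0
    set σ' : ι → MvPolynomial κ K := fun i => q i0 * σ i - σ i0 * q i with hσ'
    have hKσ' : d.Ker σ' := Ker.comb d hσ hqgood.1 _ _
    have hlt : (supp σ').card < n := by
      rw [← hn]
      apply Finset.card_lt_card
      rw [Finset.ssubset_iff_of_subset]
      · refine ⟨i0, hτS (hsq ▸ hi0), ?_⟩
        rw [mem_supp]
        simp [hσ', mul_comm]
      · intro j hj
        rw [mem_supp] at hj ⊢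
        intro hj0
        apply hj
        have h1 : q j = 0 := by
          by_contra h
          exact (mem_supp.1 (hτS (hqS (mem_supp.2 h)))) hj0
        simp [hσ', h1, hj0]
    obtain ⟨g, hg, hgspan⟩ := ih _ hlt σ' hKσ' rfl
    refine ⟨g * q i0, mul_ne_zero hg hqi0, ?_⟩
    have : (g * q i0) • σ = g • σ' + (g * σ i0) • q := by
      funext i
      simp only [Pi.smul_apply, Pi.add_apply, smul_eq_mul, hσ']
      ring
    rw [this]
    refine Submodule.add_mem _ hgspan (Submodule.smul_mem _ _ (Submodule.subset_span hqgood))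

/-- The shifted version. -/
theorem exists_mul_mem_span_shift (c : K) (σ : ι → MvPolynomial κ K)
    (hσ : ∀ j, ∑ i, σ i * (d.E i j + C c * d.Ea i j) = 0) :
    ∃ g : MvPolynomial κ K, g ≠ 0 ∧
      g • σ ∈ Submodule.span (MvPolynomial κ K) {f | d.IsShift c f} := by
  have hE : ∀ i j, d.tau c (d.E i j) = d.E i j + C c * d.Ea i j := by
    intro i j
    rw [E, tau_lin, Ea, C_mul]
  have hEm : ∀ i j, d.tau (-c) (d.E i j + C c * d.Ea i j) = d.E i j := by
    intro i j
    rw [← hE, tau_tau, neg_add_cancel, tau_zero]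
  have hK : d.Ker (fun i => d.tau (-c) (σ i)) := by
    intro j
    have := congrArg (d.tau (-c)) (hσ j)
    simp only [map_sum, map_mul, hEm, map_zero] at this
    simpa only [hEm] using this
  obtain ⟨g, hg, hspan⟩ := exists_mul_mem_span d _ hK
  refine ⟨d.tau c g, ?_, ?_⟩
  · intro h
    apply hg
    apply tau_injective d c
    rw [h, map_zero]
  · have key : ∀ v ∈ Submodule.span (MvPolynomial κ K) {q | d.IsGood q},
        (fun i => d.tau c (v i)) ∈ Submodule.span (MvPolynomial κ K) {f | d.IsShift c f} := by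
      intro v hv
      induction hv using Submodule.span_induction with
      | mem x hx => exact Submodule.subset_span ⟨x, hx, fun i => rfl⟩
      | zero =>
        convert Submodule.zero_mem _ using 1
        funext i; simp
      | add x y _ _ hx hy =>
        convert Submodule.add_mem _ hx hy using 1
        funext i; simp
      | smul r x _ hx =>
        convert Submodule.smul_mem _ (d.tau c r) hx using 1
        funext i; simp
    have h1 := key _ hspan
    convert h1 using 1
    funext i
    simp [tau_tau, tau_zero]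

end Data

end Pool.Agent.H865_shift
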