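import Pool.Agent.H865_shift.Assemble

/-!
Independence and the final theorem in coordinates.
-/

open MvPolynomial Module
open Pool.Agent.H865_shift.Pairing

set_option linter.unusedSectionVars false

namespace Pool.Agent.H865_shift

variable {K κ ι : Type*} [Field K] [Fintype κ] [Fintype ι]

namespace Sys

open Data

variable {d : Data K κ ι} {T₁ T₀ : Type*} [Fintype T₁] [Fintype T₀] [DecidableEq T₀]
variable (S : Sys d T₁ T₀)

/-- `G_j` -/
noncomputable def Gj (j : κ) : MvPolynomial κ K :=
  S.δ * X j - ∑ u, S.xi u * d.v (S.F (Sum.inr u)) j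

lemma Gj_mem (j : κ) : S.Gj j ∈ S.O := by
  intro t
  change S.δδ t (S.Gj j) = 0
  simp only [Gj, map_sub, map_sum, Derivation.leibniz, smul_eq_mul, kill_δ, kill_v, δδ_xi, δδ_X,
    mul_zero, add_zero, zero_add]
  rw [S.span t j, sub_eq_zero]
  exact Finset.sum_congr rfl fun u _ => by rw [al]; ring

/-- evaluated gradient -/
noncomputable def nab (w : κ → K) (x : MvPolynomial κ K) : κ → K := fun j => eval w (pderiv j x)

lemma nab_mul (w : κ → K) (x y : MvPolynomial κ K) :
    nab w (x * y) = eval w x • nab w y + eval w y • nab w x := by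
  funext j
  simp only [nab, Derivation.leibniz, smul_eq_mul, map_add, map_mul, Pi.add_apply, Pi.smul_apply]

lemma nab_add (w : κ → K) (x y : MvPolynomial κ K) :
    nab w (x + y) = nab w x + nab w y := by
  funext j; simp [nab]

lemma nab_sub (w : κ → K) (x y : MvPolynomial κ K) :
    nab w (x - y) = nab w x - nab w y := by
  funext j; simp [nab]

lemma nab_sum {J : Type*} (s : Finset J) (w : κ → K) (x : J → MvPolynomial κ K) :
    nab w (∑ b ∈ s, x b) = ∑ b ∈ s, nab w (x b) := by
  funext j; simp [nab]

lemma nab_X [DecidableEq κ] (w : κ → K) (j : κ) :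
    nab w (X j : MvPolynomial κ K) = Pi.single j 1 := by
  funext i
  by_cases h : i = j
  · subst h; simp [nab]
  · rw [nab, pderiv_X_of_ne (Ne.symm h)]; simp [h]

/-- The gradients of the common first integrals. -/
noncomputable def Y (w : κ → K) : Submodule K (κ → K) :=
  Submodule.span K (Set.range fun x : S.O => nab w (x : MvPolynomial κ K))

lemma nab_mem (w : κ → K) {x : MvPolynomial κ K} (hx : x ∈ S.O) : nab w x ∈ S.Y w :=
  Submodule.subset_span ⟨⟨x, hx⟩, rfl⟩

lemma B_mem (j : κ) (u : T₀) : S.B j u ∈ S.O := fun t => S.hB t j u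

lemma δ_mem : S.δ ∈ S.O := fun t => S.hδ t

lemma v_mem (t : T₁ ⊕ T₀) (j : κ) : d.v (S.F t) j ∈ S.O := fun s => S.kill_v s t j

lemma finrank_Y (w : κ → K) (hw : eval w S.δ ≠ 0) :
    Fintype.card κ ≤ finrank K (S.Y w) + Fintype.card T₀ := by
  classical
  let z : T₀ → κ → K := fun u l => eval w (S.B l u)
  have htop : (⊤ : Submodule K (κ → K)) ≤ S.Y w ⊔ Submodule.span K (Set.range z) := by
    have hz : ∀ u, z u ∈ S.Y w ⊔ Submodule.span K (Set.range z) := fun u =>
      Submodule.mem_sup_right (Submodule.subset_span ⟨u, rfl⟩)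
    have hO : ∀ {x : MvPolynomial κ K}, x ∈ S.O →
        nab w x ∈ S.Y w ⊔ Submodule.span K (Set.range z) := fun hx =>
      Submodule.mem_sup_left (S.nab_mem w hx)
    have hxi : ∀ u, nab w (S.xi u) ∈ S.Y w ⊔ Submodule.span K (Set.range z) := by
      intro u
      have h1 : nab w (S.xi u) = z u + ∑ l, w l • nab w (S.B l u) := by
        rw [xi, nab_sum]
        simp only [nab_mul, nab_X, eval_X, Finset.sum_add_distrib]
        congr 1
        funext l
        simp [z, Finset.sum_apply, Pi.single_apply]
      rw [h1]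
      exact Submodule.add_mem _ (hz u) (Submodule.sum_mem _ fun l _ =>
        Submodule.smul_mem _ _ (hO (S.B_mem l u)))
    have hsingle : ∀ j, (Pi.single j 1 : κ → K) ∈ S.Y w ⊔ Submodule.span K (Set.range z) := by
      intro j
      have h1 := hO (S.Gj_mem j)
      rw [Gj, nab_sub, nab_mul, nab_X, nab_sum] at h1
      have h2 : eval w S.δ • (Pi.single j 1 : κ → K) ∈
          S.Y w ⊔ Submodule.span K (Set.range z) := by
        have h3 : eval w S.δ • (Pi.single j 1 : κ → K) =
            (eval w S.δ • (Pi.single j 1 : κ → K) + eval w (X j) • nab w S.δ -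
              ∑ u, nab w (S.xi u * d.v (S.F (Sum.inr u)) j)) - eval w (X j) • nab w S.δ +
              ∑ u, nab w (S.xi u * d.v (S.F (Sum.inr u)) j) := by abel
        rw [h3]
        refine Submodule.add_mem _ (Submodule.sub_mem _ h1
          (Submodule.smul_mem _ _ (hO S.δ_mem))) (Submodule.sum_mem _ fun u _ => ?_)
        rw [nab_mul]
        exact Submodule.add_mem _ (Submodule.smul_mem _ _ (hO (S.v_mem _ _)))
          (Submodule.smul_mem _ _ (hxi u))
      have h4 := Submodule.smul_mem _ (eval w S.δ)⁻¹ h2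
      rwa [smul_smul, inv_mul_cancel₀ hw, one_smul] at h4
    intro x _
    have hx : x = ∑ j, x j • (Pi.single j 1 : κ → K) := by
      funext i
      simp [Finset.sum_apply, Pi.single_apply]
    rw [hx]
    exact Submodule.sum_mem _ fun j _ => Submodule.smul_mem _ _ (hsingle j)
  have h1 := Submodule.finrank_mono htop
  rw [finrank_top, Module.finrank_fintype_fun_eq_card] at h1
  have h2 := Submodule.finrank_add_le_finrank_add_finrank (S.Y w) (Submodule.span K (Set.range z))
  have h3 := finrank_range_le_card (R := K) z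
  have h4 : finrank K (Submodule.span K (Set.range z)) ≤ Fintype.card T₀ := h3
  omega

lemma eval_δδ (w : κ → K) (t : T₁ ⊕ T₀) (x : MvPolynomial κ K) :
    eval w (S.δδ t x) = ∑ j, eval w (d.v (S.F t) j) * nab w x j := by
  rw [δδ, DA_eq_sum]
  simp only [v, nab, map_sum, map_mul, Finset.sum_mul]
  rw [Finset.sum_comm]

lemma exists_integrals (w : κ → K) (hw : eval w S.δ ≠ 0) :
    ∃ (M : ℕ) (θ : Fin M → S.O), Fintype.card κ ≤ M + Fintype.card T₀ ∧
      LinearIndependent K (fun i => nab w (θ i : MvPolynomial κ K)) := by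
  obtain ⟨f, hf, hfsp, hfli⟩ := Submodule.exists_fun_fin_finrank_span_eq K
    (Set.range fun x : S.O => nab w (x : MvPolynomial κ K))
  choose θ hθ using hf
  refine ⟨_, θ, S.finrank_Y w hw, ?_⟩
  have he : (fun i => nab w (θ i : MvPolynomial κ K)) = f := funext fun i => hθ i
  rw [he]
  exact hfli

/-- **The complete family in coordinates.** -/
theorem exists_family [CharZero K] (d : Data K κ ι) {nu : ℕ}
    (hnu : ∀ (w : κ → K) (r : ℕ) (h : K), h ≠ 0 → Pair (d.matK w) r h →
      r + nu ≤ Fintype.card κ + Fintype.card ι) :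
    ∃ (N M : ℕ) (q : Fin N ⊕ Fin M → ι → MvPolynomial κ K)
      (φ : Fin N ⊕ Fin M → MvPolynomial κ K),
      Fintype.card κ + Fintype.card ι + nu ≤ 2 * (N + M) ∧
      (∀ b b' l, d.D (q b) (q b' l) = 0) ∧ (∀ b b' l, d.DA (q b) (q b' l) = 0) ∧
      (∀ b b', d.D (q b) (φ b') - d.D (q b') (φ b) + d.G (q b) (q b') = 0) ∧
      (∀ b b', d.DA (q b) (φ b') - d.DA (q b') (φ b) + d.GA (q b) (q b') = 0) ∧
      ∃ w : κ → K, LinearIndependent K (fun b a => eval w (gr (q b) (φ b) a)) := by
  classical
  obtain ⟨n₁, n₀, S, hli, hF, hδ0⟩ := d.exists_sys (k := FractionRing (MvPolynomial κ K))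
  -- matrices over the ring of common first integrals
  let PAm : Matrix (Fin n₁ ⊕ Fin n₀) (Fin n₁ ⊕ Fin n₀) S.O :=
    fun b b' => ⟨S.PA b b', fun r => S.kill_PA r b b'⟩
  let PBm : Matrix (Fin n₁ ⊕ Fin n₀) (Fin n₁ ⊕ Fin n₀) S.O :=
    fun b b' => ⟨S.PB b b', fun r => S.kill_PB r b b'⟩
  have hbound : ∀ (c : K) (r : ℕ) (h : S.O), h ≠ 0 →
      Pair (PAm + (algebraMap K S.O c) • PBm) r h →
      r + (Fintype.card κ + Fintype.card ι) + nu ≤ 2 * (Fintype.card κ + n₁) := by
    intro c r h hh hP
    have h1 := hP.map (S.O.val : S.O →+* MvPolynomial κ K)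
    have h2 : ((PAm + (algebraMap K S.O c) • PBm).map (S.O.val : S.O →+* MvPolynomial κ K)) =
        fun b b' => S.PA b b' + C c * S.PB b b' := by
      funext b b'
      simp only [Matrix.map_apply, Matrix.add_apply, Matrix.smul_apply, smul_eq_mul, map_add,
        map_mul, PAm, PBm]
      rfl
    rw [h2] at h1
    have h3 := S.rank_bound hnu (k := FractionRing (MvPolynomial κ K)) hF c
      (h := (S.O.val : S.O →+* MvPolynomial κ K) h)
      (fun h0 => hh (Subtype.ext h0)) h1
    simpa using h3
  have hinjK : Function.Injective (algebraMap K S.O) := (algebraMap K S.O).injective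
  have h2F : (2 : FractionRing S.O) ≠ 0 := by
    have e1 : (2 : FractionRing S.O) = algebraMap S.O (FractionRing S.O) (algebraMap K S.O 2) := by
      rw [map_ofNat, map_ofNat]
    rw [e1]
    intro h
    have h3 := IsFractionRing.injective S.O (FractionRing S.O) (h.trans (map_zero _).symm)
    have h4 := hinjK (h3.trans (map_zero _).symm)
    exact two_ne_zero h4
  obtain ⟨N, c, hN, hcA, hcB, g₁, hg₁, hcd⟩ := Pencil.exists_isotropic_family
    (O := S.O) (F := FractionRing S.O) h2F PAm PBm
    (fun b => Subtype.ext (by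
      change S.PA b b = 0
      rw [PA_self, G_self]))
    (fun b b' => Subtype.ext (S.PA_anti b b'))
    (fun b => Subtype.ext (by
      change S.PB b b = 0
      rw [PB_self, GA_self]))
    (fun b b' => Subtype.ext (S.PB_anti b b'))
    (2 * (Fintype.card κ + n₁) - (Fintype.card κ + Fintype.card ι + nu))
    (Set.range (algebraMap K S.O)) (Set.infinite_range_of_injective hinjK)
    (by
      rintro _ ⟨c, rfl⟩ r h hh hP
      have := hbound c r h hh hP
      omega)
  have hbase : Fintype.card κ + Fintype.card ι + nu ≤ 2 * (Fintype.card κ + n₁) := by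
    have := hbound 0 0 1 one_ne_zero ⟨fun i => i.elim0, fun i => i.elim0, fun i => i.elim0⟩
    omega
  rw [Fintype.card_sum, Fintype.card_fin, Fintype.card_fin] at hN
  -- choice of the point
  obtain ⟨g₂, hg₂, hFd⟩ := Dualizable.descend (O := MvPolynomial κ K)
    (F := FractionRing (MvPolynomial κ K)) (c := fun t i => S.F (Sum.inl t) i) hli
  have hprod : (g₁ : MvPolynomial κ K) * g₂ * S.δ ≠ 0 :=
    mul_ne_zero (mul_ne_zero (fun h => hg₁ (Subtype.ext h)) hg₂) hδ0
  obtain ⟨w, hw⟩ := exists_eval_ne hprod
  rw [map_mul, map_mul] at hw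
  have hw1 : eval w (g₁ : MvPolynomial κ K) ≠ 0 := fun h => hw (by rw [h]; ring)
  have hw2 : eval w g₂ ≠ 0 := fun h => hw (by rw [h]; ring)
  have hw3 : eval w S.δ ≠ 0 := fun h => hw (by rw [h]; ring)
  -- first integrals
  obtain ⟨M, θ, hYdim, hfli⟩ := S.exists_integrals w hw3
  rw [Fintype.card_fin] at hYdim
  refine ⟨N, M, Sum.elim (fun b => S.qc (c b)) (fun _ _ => 0),
    Sum.elim (fun b => S.pc (c b)) (fun i => (θ i : MvPolynomial κ K)), by omega, ?_, ?_, ?_, ?_,
    w, ?_⟩
  · intro b b' l
    rcases b with b | i <;> rcases b' with b' | i'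
    · exact S.D_qc_O (c b) ⟨_, S.qc_mem (c b') l⟩
    · simp
    · simp [D_apply]
    · simp
  · intro b b' l
    rcases b with b | i <;> rcases b' with b' | i'
    · exact S.DA_qc_O (c b) ⟨_, S.qc_mem (c b') l⟩
    · simp
    · simp [DA_apply]
    · simp
  · intro b b'
    rcases b with b | i <;> rcases b' with b' | i'
    · have h1 := congrArg (fun x : S.O => (x : MvPolynomial κ K)) (hcA b b')
      simp only [bil, PAm, AddSubmonoidClass.coe_finsetSum, MulMemClass.coe_mul,
        ZeroMemClass.coe_zero] at h1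
      simp only [Sum.elim_inl]
      rw [S.bracket_A]
      exact h1
    · simp only [Sum.elim_inl, Sum.elim_inr, S.D_qc_O]
      simp [D_apply, G]
    · simp only [Sum.elim_inl, Sum.elim_inr, S.D_qc_O]
      simp [D_apply, G]
    · simp [D_apply, G]
  · intro b b'
    rcases b with b | i <;> rcases b' with b' | i'
    · have h1 := congrArg (fun x : S.O => (x : MvPolynomial κ K)) (hcB b b')
      simp only [bil, PBm, AddSubmonoidClass.coe_finsetSum, MulMemClass.coe_mul,
        ZeroMemClass.coe_zero] at h1
      simp only [Sum.elim_inl]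
      rw [S.bracket_B]
      exact h1
    · simp only [Sum.elim_inl, Sum.elim_inr, S.DA_qc_O]
      simp [DA_apply, GA]
    · simp only [Sum.elim_inl, Sum.elim_inr, S.DA_qc_O]
      simp [DA_apply, GA]
    · simp [DA_apply, GA]
  · rw [Fintype.linearIndependent_iff]
    intro β hβ
    rw [Fintype.sum_sum_type] at hβ
    -- complementary part
    have hι : ∀ i, ∑ b, β (Sum.inl b) * eval w (S.qc (c b) i) = 0 := by
      intro i
      have := congrFun hβ (Sum.inr i)
      simpa [gr, Finset.sum_apply] using this
    have hκ : ∀ j, ∑ b, β (Sum.inl b) * nab w (S.pc (c b)) j +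
        ∑ i, β (Sum.inr i) * nab w (θ i : MvPolynomial κ K) j = 0 := by
      intro j
      have := congrFun hβ (Sum.inl j)
      simpa [gr, Finset.sum_apply, nab] using this
    -- coefficients of the first kind vanish
    have hlF := (hFd.map (eval w)).linearIndependent hw2
    rw [Fintype.linearIndependent_iff] at hlF
    have ht : ∀ t, ∑ b, β (Sum.inl b) * eval w (c b (Sum.inl t) : MvPolynomial κ K) = 0 := by
      apply hlF
      funext i
      have h1 := hι i
      simp only [qc, map_sum, map_mul, Fintype.sum_sum_type, qv, map_pow, mul_zero, map_zero,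
        Finset.sum_const_zero, add_zero] at h1
      have h2 : eval w S.δ ^ 2 * ∑ t, (∑ b, β (Sum.inl b) *
          eval w (c b (Sum.inl t) : MvPolynomial κ K)) * eval w (S.F (Sum.inl t) i) = 0 := by
        rw [← h1]
        simp only [Finset.sum_mul, Finset.mul_sum]
        rw [Finset.sum_comm]
        exact Finset.sum_congr rfl fun b _ => Finset.sum_congr rfl fun t _ => by ring
      have h3 := (mul_eq_zero.1 h2).resolve_left (pow_ne_zero 2 hw3)
      simpa [Finset.sum_apply] using h3
    have hu : ∀ u, ∑ b, β (Sum.inl b) * eval w (c b (Sum.inr u) : MvPolynomial κ K) = 0 := by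
      intro u
      -- pair with v_u
      have h1 : ∑ j, eval w (d.v (S.F (Sum.inr u)) j) *
          (∑ b, β (Sum.inl b) * nab w (S.pc (c b)) j +
            ∑ i, β (Sum.inr i) * nab w (θ i : MvPolynomial κ K) j) = 0 :=
        Finset.sum_eq_zero fun j _ => by rw [hκ j, mul_zero]
      have h2 : ∑ b, β (Sum.inl b) * eval w (S.δδ (Sum.inr u) (S.pc (c b))) +
          ∑ i, β (Sum.inr i) * eval w (S.δδ (Sum.inr u) (θ i : MvPolynomial κ K)) = 0 := by
        rw [← h1]
        simp only [eval_δδ, mul_add, Finset.sum_add_distrib, Finset.mul_sum]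
        congr 1
        · rw [Finset.sum_comm]
          exact Finset.sum_congr rfl fun j _ => Finset.sum_congr rfl fun b _ => by ring
        · rw [Finset.sum_comm]
          exact Finset.sum_congr rfl fun j _ => Finset.sum_congr rfl fun b _ => by ring
      simp only [S.δδ_O, map_zero, mul_zero, Finset.sum_const_zero, add_zero] at h2
      have h3 : ∀ b, S.δδ (Sum.inr u) (S.pc (c b)) =
          ∑ t, (c b (Sum.inl t) : MvPolynomial κ K) * S.δδ (Sum.inr u) (S.phi t) +
            (c b (Sum.inr u) : MvPolynomial κ K) * S.δ := by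
        intro b
        simp only [pc, map_sum, Derivation.leibniz, S.δδ_O, smul_eq_mul, mul_zero, add_zero]
        simp only [Fintype.sum_sum_type, ph, δδ_xi, al_inr, mul_ite, Finset.sum_ite_eq,
          Finset.mem_univ, if_true, mul_zero]
      simp only [h3, map_add, map_sum, map_mul, mul_add, Finset.sum_add_distrib,
        Finset.mul_sum] at h2
      have h4 : ∑ b, ∑ t, β (Sum.inl b) * (eval w (c b (Sum.inl t) : MvPolynomial κ K) *
          eval w (S.δδ (Sum.inr u) (S.phi t))) = 0 := by
        rw [Finset.sum_comm]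
        apply Finset.sum_eq_zero
        intro t _
        have := ht t
        calc ∑ b, β (Sum.inl b) * (eval w (c b (Sum.inl t) : MvPolynomial κ K) *
              eval w (S.δδ (Sum.inr u) (S.phi t)))
            = (∑ b, β (Sum.inl b) * eval w (c b (Sum.inl t) : MvPolynomial κ K)) *
              eval w (S.δδ (Sum.inr u) (S.phi t)) := by
              rw [Finset.sum_mul]; exact Finset.sum_congr rfl fun b _ => by ring
          _ = 0 := by rw [this, zero_mul]
      rw [h4, zero_add] at h2
      have h5 : (∑ b, β (Sum.inl b) * eval w (c b (Sum.inr u) : MvPolynomial κ K)) *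
          eval w S.δ = 0 := by
        rw [← h2, Finset.sum_mul]; exact Finset.sum_congr rfl fun b _ => by ring
      exact (mul_eq_zero.1 h5).resolve_right hw3
    have hlc := (hcd.map ((eval w).comp (S.O.val : S.O →+* MvPolynomial κ K))).linearIndependent hw1
    rw [Fintype.linearIndependent_iff] at hlc
    have hβ1 : ∀ b, β (Sum.inl b) = 0 := by
      apply hlc
      funext a
      rcases a with t | u
      · simpa [Finset.sum_apply] using ht t
      · simpa [Finset.sum_apply] using hu u
    have hβ2 : ∀ i, β (Sum.inr i) = 0 := by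
      rw [Fintype.linearIndependent_iff] at hfli
      apply hfli
      funext j
      have := hκ j
      simp only [hβ1, zero_mul, Finset.sum_const_zero, zero_add] at this
      simp only [Finset.sum_apply, Pi.smul_apply, smul_eq_mul, Pi.zero_apply]
      exact this
    intro b
    rcases b with b | i
    · exact hβ1 b
    · exact hβ2 i

end Sys

end Pool.Agent.H865_shift
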