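import Pool.Agent.H865_shift.Defs
import Pool.Agent.H865_shift.Main

/-!
Calculus of differentials of polynomial functions on the dual of a Lie algebra.
-/

open Module MvPolynomial

set_option linter.unusedSectionVars false

namespace Pool.Agent.H865_shift

variable {K L : Type*} [Field K] [LieRing L] [LieAlgebra K L]

lemma grad_eq_sum (f : MvPolynomial L K) (x : Dual K L) (s : Finset L) (hs : f.vars ⊆ s) :
    grad f x = ∑ ξ ∈ s, val (pderiv ξ f) x • ξ := by
  unfold grad
  refine Finset.sum_subset hs fun ξ _ hξ => ?_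
  rw [pderiv_eq_zero_of_notMem_vars hξ]
  simp [val]

lemma grad_add (f g : MvPolynomial L K) (x : Dual K L) :
    grad (f + g) x = grad f x + grad g x := by
  classical
  rw [grad_eq_sum (f + g) x (f.vars ∪ g.vars) (vars_add_subset f g),
    grad_eq_sum f x (f.vars ∪ g.vars) Finset.subset_union_left,
    grad_eq_sum g x (f.vars ∪ g.vars) Finset.subset_union_right, ← Finset.sum_add_distrib]
  refine Finset.sum_congr rfl fun ξ _ => ?_
  rw [map_add, ← add_smul]
  simp [val]

lemma grad_mul (f g : MvPolynomial L K) (x : Dual K L) :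
    grad (f * g) x = val f x • grad g x + val g x • grad f x := by
  classical
  rw [grad_eq_sum (f * g) x (f.vars ∪ g.vars) (vars_mul f g),
    grad_eq_sum f x (f.vars ∪ g.vars) Finset.subset_union_left,
    grad_eq_sum g x (f.vars ∪ g.vars) Finset.subset_union_right, Finset.smul_sum,
    Finset.smul_sum, ← Finset.sum_add_distrib]
  refine Finset.sum_congr rfl fun ξ _ => ?_
  rw [smul_smul, smul_smul, ← add_smul, Derivation.leibniz]
  congr 1
  simp [val]

@[simp] lemma grad_C (c : K) (x : Dual K L) : grad (C c : MvPolynomial L K) x = 0 := by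
  simp [grad]

@[simp] lemma grad_zero (x : Dual K L) : grad (0 : MvPolynomial L K) x = 0 := by
  simp [grad]

@[simp] lemma grad_X (ξ : L) (x : Dual K L) : grad (X ξ : MvPolynomial L K) x = ξ := by
  classical
  rw [grad, vars_X, Finset.sum_singleton, pderiv_X_self]
  simp [val]

lemma grad_sum {J : Type*} (s : Finset J) (f : J → MvPolynomial L K) (x : Dual K L) :
    grad (∑ j ∈ s, f j) x = ∑ j ∈ s, grad (f j) x := by
  classical
  induction s using Finset.induction_on with
  | empty => simp
  | insert a s ha ih => rw [Finset.sum_insert ha, Finset.sum_insert ha, grad_add, ih]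

@[simp] lemma val_X (ξ : L) (x : Dual K L) : val (X ξ : MvPolynomial L K) x = x ξ := by
  simp [val]

lemma val_rename {σ : Type*} (β : σ → L) (φ : MvPolynomial σ K) (x : Dual K L) :
    val (rename β φ) x = eval (fun j => x (β j)) φ := by
  rw [val, eval_rename]; rfl

lemma grad_rename {σ : Type*} [Fintype σ] (β : σ → L) (φ : MvPolynomial σ K) (x : Dual K L) :
    grad (rename β φ) x = ∑ j, eval (fun j => x (β j)) (pderiv j φ) • β j := by
  classical
  induction φ using MvPolynomial.induction_on with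
  | C r => simp
  | add p q hp hq =>
    rw [map_add, grad_add, hp, hq, ← Finset.sum_add_distrib]
    exact Finset.sum_congr rfl fun j _ => by rw [map_add, map_add, add_smul]
  | mul_X p i hp =>
    rw [map_mul, grad_mul, hp, rename_X, grad_X, val_X, val_rename, Finset.smul_sum]
    simp only [Derivation.leibniz, map_add, smul_eq_mul, map_mul, eval_X, add_smul,
      Finset.sum_add_distrib, pderiv_X, Pi.single_apply, smul_smul]
    congr 1
    rw [Finset.sum_eq_single i]
    · simp
    · intro j _ hj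
      simp [Ne.symm hj]
    · simp

/-- A polynomial function affine in the complementary coordinates. -/
noncomputable def aff {κ ι : Type*} [Fintype ι] (b : κ ⊕ ι → L) (q : ι → MvPolynomial κ K)
    (φ : MvPolynomial κ K) : MvPolynomial L K :=
  ∑ i, rename (fun j => b (Sum.inl j)) (q i) * X (b (Sum.inr i)) +
    rename (fun j => b (Sum.inl j)) φ

/-- the coefficients of the gradient in the ideal directions -/
noncomputable def hco {κ ι : Type*} [Fintype ι] (b : κ ⊕ ι → L) (q : ι → MvPolynomial κ K)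
    (φ : MvPolynomial κ K) (x : Dual K L) (j : κ) : K :=
  ∑ l, x (b (Sum.inr l)) * eval (fun j => x (b (Sum.inl j))) (pderiv j (q l)) +
    eval (fun j => x (b (Sum.inl j))) (pderiv j φ)

lemma grad_aff {κ ι : Type*} [Fintype κ] [Fintype ι] (b : κ ⊕ ι → L)
    (q : ι → MvPolynomial κ K) (φ : MvPolynomial κ K) (x : Dual K L) :
    grad (aff b q φ) x = ∑ i, eval (fun j => x (b (Sum.inl j))) (q i) • b (Sum.inr i) +
      ∑ j, hco b q φ x j • b (Sum.inl j) := by
  rw [aff, grad_add, grad_sum, grad_rename]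
  simp only [grad_mul, grad_rename, val_rename, grad_X, val_X, hco, add_smul,
    Finset.sum_add_distrib, Finset.smul_sum, Finset.sum_smul, smul_smul]
  rw [add_assoc]
  congr 1
  congr 1
  rw [Finset.sum_comm]

/-- The form `(ξ, η) ↦ ⟨y, [ξ, η]⟩`. -/
noncomputable def lieForm (y : Dual K L) : LinearMap.BilinForm K L :=
  LinearMap.mk₂ K (fun ξ η => y ⁅ξ, η⁆)
    (fun a b c => by rw [add_lie, map_add])
    (fun c a b => by rw [smul_lie, map_smul])
    (fun a b c => by rw [lie_add, map_add])
    (fun c a b => by rw [lie_smul, map_smul])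

@[simp] lemma lieForm_apply (y : Dual K L) (ξ η : L) : lieForm y ξ η = y ⁅ξ, η⁆ := rfl

/-- structure of the bracket of two vectors -/
lemma apply_lie {κ ι : Type*} [Fintype κ] [Fintype ι] (b : κ ⊕ ι → L)
    (hab : ∀ j j', ⁅b (Sum.inl j), b (Sum.inl j')⁆ = 0) (y : Dual K L)
    (Q Q' : ι → K) (H H' : κ → K) :
    y ⁅∑ i, Q i • b (Sum.inr i) + ∑ j, H j • b (Sum.inl j),
        ∑ i, Q' i • b (Sum.inr i) + ∑ j, H' j • b (Sum.inl j)⁆ =
      ∑ i, ∑ k, Q i * Q' k * y ⁅b (Sum.inr i), b (Sum.inr k)⁆ +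
      ∑ i, ∑ j, Q i * H' j * y ⁅b (Sum.inr i), b (Sum.inl j)⁆ -
      ∑ i, ∑ j, Q' i * H j * y ⁅b (Sum.inr i), b (Sum.inl j)⁆ := by
  have h1 : ∑ i, ∑ j, Q' i * (H j * y ⁅b (Sum.inl j), b (Sum.inr i)⁆) =
      - ∑ i, ∑ j, Q' i * H j * y ⁅b (Sum.inr i), b (Sum.inl j)⁆ := by
    rw [← Finset.sum_neg_distrib]
    refine Finset.sum_congr rfl fun i _ => ?_
    rw [← Finset.sum_neg_distrib]
    refine Finset.sum_congr rfl fun j _ => ?_
    rw [← lie_skew, map_neg]; ring
  have h2 : ∑ k, ∑ i, Q' k * (Q i * y ⁅b (Sum.inr i), b (Sum.inr k)⁆) =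
      ∑ i, ∑ k, Q i * Q' k * y ⁅b (Sum.inr i), b (Sum.inr k)⁆ := by
    rw [Finset.sum_comm]
    exact Finset.sum_congr rfl fun i _ => Finset.sum_congr rfl fun k _ => by ring
  have h3 : ∑ j, ∑ i, H' j * (Q i * y ⁅b (Sum.inr i), b (Sum.inl j)⁆) =
      ∑ i, ∑ j, Q i * H' j * y ⁅b (Sum.inr i), b (Sum.inl j)⁆ := by
    rw [Finset.sum_comm]
    exact Finset.sum_congr rfl fun i _ => Finset.sum_congr rfl fun k _ => by ring
  rw [← lieForm_apply]
  simp only [map_add, LinearMap.add_apply, map_sum, LinearMap.sum_apply, map_smul,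
    LinearMap.smul_apply, smul_eq_mul, lieForm_apply, hab, map_zero, mul_zero,
    Finset.sum_const_zero, add_zero, Finset.mul_sum, mul_add, Finset.sum_add_distrib]
  rw [h1, h2, h3]
  ring

end Pool.Agent.H865_shift
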