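import Pool.Agent.H865_shift.Grad

/-!
The theorem for metabelian Lie algebras.
-/

open Module MvPolynomial
open Pool.Agent.H865_shift.Pairing

set_option linter.unusedSectionVars false

namespace Pool.Agent.H865_shift

variable {K L : Type*} [Field K] [LieRing L] [LieAlgebra K L]

lemma mem_stab {x : Dual K L} {ξ : L} : ξ ∈ stab x ↔ ∀ η : L, x ⁅ξ, η⁆ = 0 := Iff.rfl

lemma ker_lieForm (x : Dual K L) : LinearMap.ker (lieForm x) = stab x := by
  ext ξ
  rw [LinearMap.mem_ker, mem_stab]
  constructor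
  · intro h η
    have := congrArg (fun f : L →ₗ[K] K => f η) h
    simpa using this
  · intro h
    ext η
    simpa using h η

lemma lieForm_isAlt (x : Dual K L) : (lieForm x).IsAlt := by
  intro ξ; simp

/-- the dimension plus the index is even -/
lemma even_dim_add_index [FiniteDimensional K L] [CharZero K] :
    ∃ m : ℕ, 2 * m = finrank K L + index K L := by
  classical
  obtain ⟨x, hx⟩ := Nat.sInf_mem (Set.range_nonempty fun x : Dual K L => finrank K (stab x))
  obtain ⟨M, -, -, S, hS⟩ := BiIso.exists_biLagrangian two_ne_zero (lieForm x) (lieForm x)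
    (lieForm_isAlt x) (lieForm_isAlt x)
  obtain ⟨c, hc⟩ := Infinite.exists_notMem_finset (insert (-1) S : Finset K)
  rw [Finset.mem_insert, not_or] at hc
  have h1 := hS c hc.2
  have h2 := LinearMap.BilinForm.finrank_add_finrank_orthogonal' (B := lieForm x + c • lieForm x) M
  rw [h1] at h2
  have hne : (1 + c) ≠ 0 := by
    intro h
    apply hc.1
    linear_combination h
  have h3 : LinearMap.ker (lieForm x + c • lieForm x) = stab x := by
    rw [← ker_lieForm]
    ext ξ
    simp only [LinearMap.mem_ker]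
    have e : (lieForm x + c • lieForm x) ξ = (1 + c) • lieForm x ξ := by
      rw [LinearMap.add_apply, LinearMap.smul_apply, add_smul, one_smul]
    rw [e, smul_eq_zero]
    simp [hne]
  have h4 : LinearMap.ker (lieForm x + c • lieForm x) ≤ M := by
    intro ξ hξ
    rw [h3] at hξ
    rw [← h1, LinearMap.BilinForm.mem_orthogonal_iff]
    intro η _
    have h5 : x ⁅η, ξ⁆ = 0 := by
      rw [← lie_skew, map_neg, hξ η, neg_zero]
    simp [h5]
  rw [inf_eq_right.2 h4, h3] at h2
  have hx' : finrank K (stab x) = index K L := hx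
  exact ⟨finrank K M, by omega⟩

/-- from a large family to a family of exactly the right size -/
lemma hasCompleteFamily_of_large [FiniteDimensional K L] [CharZero K] {a : Dual K L} {I : Type*}
    [Fintype I] (F : I → MvPolynomial L K)
    (hcard : finrank K L + index K L ≤ 2 * Fintype.card I)
    (h1 : ∀ i j (x : Dual K L), x ⁅grad (F i) x, grad (F j) x⁆ = 0)
    (h2 : ∀ i j (x : Dual K L), a ⁅grad (F i) x, grad (F j) x⁆ = 0)
    (h3 : ∃ x : Dual K L, LinearIndependent K (fun i => grad (F i) x)) :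
    HasCompleteFamily a := by
  obtain ⟨m, hm⟩ := even_dim_add_index (K := K) (L := L)
  have hle : m ≤ Fintype.card I := by omega
  let e : Fin m → I := fun i => (Fintype.equivFin I).symm (Fin.castLE hle i)
  have he : Function.Injective e := by
    intro i j h
    have := (Fintype.equivFin I).symm.injective h
    exact Fin.castLE_injective hle this
  obtain ⟨x, hx⟩ := h3
  exact ⟨m, F ∘ e, hm, fun i j x => h1 _ _ x, fun i j x => h2 _ _ x, x, hx.comp e he⟩

section coords

variable {κ ι : Type*} [Fintype κ] [Fintype ι] (b : κ ⊕ ι → L)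

lemma sum_hco (x y : Dual K L) (EE : ι → κ → MvPolynomial κ K)
    (hE : ∀ i j, eval (fun j => x (b (Sum.inl j))) (EE i j) = y ⁅b (Sum.inr i), b (Sum.inl j)⁆)
    (q q' : ι → MvPolynomial κ K) (φ' : MvPolynomial κ K) :
    ∑ i, ∑ j, eval (fun j => x (b (Sum.inl j))) (q i) * hco b q' φ' x j *
        y ⁅b (Sum.inr i), b (Sum.inl j)⁆ =
      ∑ l, x (b (Sum.inr l)) * eval (fun j => x (b (Sum.inl j)))
        (∑ i, ∑ j, q i * EE i j * pderiv j (q' l)) +
      eval (fun j => x (b (Sum.inl j))) (∑ i, ∑ j, q i * EE i j * pderiv j φ') := by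
  simp only [map_sum, map_mul, hE, hco, mul_add, add_mul, Finset.sum_add_distrib,
    Finset.mul_sum, Finset.sum_mul]
  congr 1
  · calc ∑ i, ∑ j, ∑ l, eval (fun j => x (b (Sum.inl j))) (q i) *
          (x (b (Sum.inr l)) * eval (fun j => x (b (Sum.inl j))) (pderiv j (q' l))) *
          y ⁅b (Sum.inr i), b (Sum.inl j)⁆
        = ∑ i, ∑ l, ∑ j, eval (fun j => x (b (Sum.inl j))) (q i) *
          (x (b (Sum.inr l)) * eval (fun j => x (b (Sum.inl j))) (pderiv j (q' l))) *
          y ⁅b (Sum.inr i), b (Sum.inl j)⁆ :=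
          Finset.sum_congr rfl fun i _ => Finset.sum_comm
      _ = ∑ l, ∑ i, ∑ j, eval (fun j => x (b (Sum.inl j))) (q i) *
          (x (b (Sum.inr l)) * eval (fun j => x (b (Sum.inl j))) (pderiv j (q' l))) *
          y ⁅b (Sum.inr i), b (Sum.inl j)⁆ := Finset.sum_comm
      _ = _ := Finset.sum_congr rfl fun l _ => Finset.sum_congr rfl fun i _ =>
          Finset.sum_congr rfl fun j _ => by ring
  · exact Finset.sum_congr rfl fun i _ => Finset.sum_congr rfl fun j _ => by ring

lemma bracket_zero (hab : ∀ j j', ⁅b (Sum.inl j), b (Sum.inl j')⁆ = 0) (x y : Dual K L)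
    (EE : ι → κ → MvPolynomial κ K) (gg : ι → ι → MvPolynomial κ K)
    (hE : ∀ i j, eval (fun j => x (b (Sum.inl j))) (EE i j) = y ⁅b (Sum.inr i), b (Sum.inl j)⁆)
    (hg : ∀ i k, eval (fun j => x (b (Sum.inl j))) (gg i k) = y ⁅b (Sum.inr i), b (Sum.inr k)⁆)
    (q q' : ι → MvPolynomial κ K) (φ φ' : MvPolynomial κ K)
    (h1 : ∀ l, ∑ i, ∑ j, q i * EE i j * pderiv j (q' l) = 0)
    (h2 : ∀ l, ∑ i, ∑ j, q' i * EE i j * pderiv j (q l) = 0)
    (h3 : ∑ i, ∑ j, q i * EE i j * pderiv j φ' - ∑ i, ∑ j, q' i * EE i j * pderiv j φ +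
      ∑ i, ∑ k, q i * q' k * gg i k = 0) :
    y ⁅grad (aff b q φ) x, grad (aff b q' φ') x⁆ = 0 := by
  rw [grad_aff, grad_aff, apply_lie b hab, sum_hco b x y EE hE, sum_hco b x y EE hE]
  simp only [h1, h2, map_zero, mul_zero, Finset.sum_const_zero, zero_add]
  have h4 := congrArg (eval (fun j => x (b (Sum.inl j)))) h3
  rw [map_add, map_sub, map_zero] at h4
  have h5 : eval (fun j => x (b (Sum.inl j))) (∑ i, ∑ k, q i * q' k * gg i k) =
      ∑ i, ∑ k, eval (fun j => x (b (Sum.inl j))) (q i) *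
        eval (fun j => x (b (Sum.inl j))) (q' k) * y ⁅b (Sum.inr i), b (Sum.inr k)⁆ := by
    simp only [map_sum, map_mul, hg]
  rw [h5] at h4
  linear_combination h4

end coords

/-- A metabelian Lie algebra in coordinates. -/
theorem metabelian_of_basis [CharZero K] [FiniteDimensional K L] {κ ι : Type*} [Fintype κ]
    [Fintype ι] (b : Basis (κ ⊕ ι) K L)
    (W : Submodule K L) (hW : ∀ x y : L, ⁅x, y⁆ ∈ W)
    (hWW : ∀ x ∈ W, ∀ y ∈ W, ⁅x, y⁆ = 0) (hbW : ∀ j, b (Sum.inl j) ∈ W)
    (hrep : ∀ w ∈ W, w = ∑ l, b.repr w (Sum.inl l) • b (Sum.inl l)) (a : Dual K L) :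
    HasCompleteFamily a := by
  classical
  -- representation of brackets
  have hrl : ∀ (i : ι) (w : L), w ∈ W → ∀ l, b.repr ⁅b (Sum.inr i), w⁆ (Sum.inl l) =
      ∑ m, b.repr w (Sum.inl m) * b.repr ⁅b (Sum.inr i), b (Sum.inl m)⁆ (Sum.inl l) := by
    intro i w hw l
    have h1 : ⁅b (Sum.inr i), w⁆ = ∑ m, b.repr w (Sum.inl m) • ⁅b (Sum.inr i), b (Sum.inl m)⁆ := by
      have h0 := congrArg (LieAlgebra.ad K L (b (Sum.inr i))) (hrep w hw)
      rw [map_sum] at h0
      simp only [LieAlgebra.ad_apply, lie_smul] at h0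
      exact h0
    rw [h1, map_sum, Finsupp.finsetSum_apply]
    simp
  let d : Data K κ ι :=
    { eps := fun i j l => b.repr ⁅b (Sum.inr i), b (Sum.inl j)⁆ (Sum.inl l)
      gam := fun i k l => b.repr ⁅b (Sum.inr i), b (Sum.inr k)⁆ (Sum.inl l)
      a := fun j => a (b (Sum.inl j))
      comm := by
        intro i i' j l
        rw [← hrl i _ (hW _ _) l, ← hrl i' _ (hW _ _) l]
        have h1 : ⁅b (Sum.inr i), ⁅b (Sum.inr i'), b (Sum.inl j)⁆⁆ =
            ⁅⁅b (Sum.inr i), b (Sum.inr i')⁆, b (Sum.inl j)⁆ +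
              ⁅b (Sum.inr i'), ⁅b (Sum.inr i), b (Sum.inl j)⁆⁆ := leibniz_lie _ _ _
        rw [h1, hWW _ (hW _ _) _ (hbW j), zero_add]
      gam_anti := by
        intro i j l
        rw [← lie_skew, map_neg, Finsupp.neg_apply]
      jac := by
        intro i j k l
        rw [Finset.sum_add_distrib, Finset.sum_add_distrib, ← hrl i _ (hW _ _) l,
          ← hrl j _ (hW _ _) l, ← hrl k _ (hW _ _) l, ← Finsupp.add_apply, ← Finsupp.add_apply,
          ← map_add, ← map_add, lie_jacobi, map_zero, Finsupp.zero_apply] }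
  have hyE : ∀ (y : Dual K L) i j, y ⁅b (Sum.inr i), b (Sum.inl j)⁆ =
      ∑ l, d.eps i j l * y (b (Sum.inl l)) := by
    intro y i j
    conv_lhs => rw [hrep _ (hW _ _)]
    simp [d]
  have hyg : ∀ (y : Dual K L) i k, y ⁅b (Sum.inr i), b (Sum.inr k)⁆ =
      ∑ l, d.gam i k l * y (b (Sum.inl l)) := by
    intro y i k
    conv_lhs => rw [hrep _ (hW _ _)]
    simp [d]
  have hab : ∀ j j', ⁅b (Sum.inl j), b (Sum.inl j')⁆ = 0 := fun j j' => hWW _ (hbW j) _ (hbW j')
  have hxE : ∀ (x : Dual K L) i j, eval (fun j => x (b (Sum.inl j))) (d.E i j) =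
      x ⁅b (Sum.inr i), b (Sum.inl j)⁆ := by
    intro x i j
    rw [hyE, Data.E, lin]
    simp
  have hxg : ∀ (x : Dual K L) i k, eval (fun j => x (b (Sum.inl j))) (d.g i k) =
      x ⁅b (Sum.inr i), b (Sum.inr k)⁆ := by
    intro x i k
    rw [hyg, Data.g, lin]
    simp
  have haE : ∀ (x : Dual K L) i j, eval (fun j => x (b (Sum.inl j))) (d.Ea i j) =
      a ⁅b (Sum.inr i), b (Sum.inl j)⁆ := by
    intro x i j
    rw [hyE, Data.Ea, eval_C]
  have hag : ∀ (x : Dual K L) i k, eval (fun j => x (b (Sum.inl j))) (d.ga i k) =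
      a ⁅b (Sum.inr i), b (Sum.inr k)⁆ := by
    intro x i k
    rw [hyg, Data.ga, eval_C]
  have hdim : finrank K L = Fintype.card κ + Fintype.card ι := by
    rw [Module.finrank_eq_card_basis b, Fintype.card_sum]
  -- point with given coordinates
  have hpoint : ∀ w : κ → K, ∃ x : Dual K L, (∀ j, x (b (Sum.inl j)) = w j) ∧
      ∀ i, x (b (Sum.inr i)) = 0 := by
    intro w
    refine ⟨b.constr K (Sum.elim w (fun _ => 0)), fun j => ?_, fun i => ?_⟩
    · rw [Basis.constr_basis]; rfl
    · rw [Basis.constr_basis]; rfl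
  -- rank bound at points
  have hnu : ∀ (w : κ → K) (r : ℕ) (h : K), h ≠ 0 → Pair (d.matK w) r h →
      r + index K L ≤ Fintype.card κ + Fintype.card ι := by
    rintro w r h hh ⟨X', Y', hXY⟩
    obtain ⟨x, hx1, hx2⟩ := hpoint w
    have hwx : (fun j => x (b (Sum.inl j))) = w := funext hx1
    have hmat : ∀ α β, x ⁅b α, b β⁆ = d.matK w α β := by
      intro α β
      rcases α with j | i <;> rcases β with j' | k
      · rw [hab, map_zero]; simp [Data.matK, Data.Mat]
      · rw [← lie_skew, map_neg, ← hxE x, hwx]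
        simp [Data.matK, Data.Mat]
      · rw [← hxE x, hwx]
        simp [Data.matK, Data.Mat]
      · rw [← hxg x, hwx]
        simp [Data.matK, Data.Mat]
    have h1 := pair_le (lieForm x) hh (fun i => ∑ α, X' i α • b α) (fun i => ∑ α, Y' i α • b α)
      (by
        intro i j
        rw [← hXY i j]
        simp only [map_sum, map_smul, LinearMap.sum_apply, LinearMap.smul_apply, smul_eq_mul,
          lieForm_apply, hmat, bil, Finset.mul_sum]
        rw [Finset.sum_comm]
        exact Finset.sum_congr rfl fun α _ => Finset.sum_congr rfl fun β _ => by ring)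
    rw [ker_lieForm, hdim] at h1
    have h2 : index K L ≤ finrank K (stab x) := Nat.sInf_le ⟨x, rfl⟩
    omega
  obtain ⟨N, M, q, φ, hcard, hD, hDA, hA, hB, w, hw⟩ := Sys.exists_family d hnu
  obtain ⟨x₀, hx1, hx2⟩ := hpoint w
  have hwx : (fun j => x₀ (b (Sum.inl j))) = w := funext hx1
  refine hasCompleteFamily_of_large (fun i => aff b (q i) (φ i)) ?_ ?_ ?_ ⟨x₀, ?_⟩
  · rw [hdim, Fintype.card_sum, Fintype.card_fin, Fintype.card_fin]
    exact hcard
  · intro i j x
    refine bracket_zero b hab x x d.E d.g (hxE x) (hxg x) _ _ _ _ ?_ ?_ ?_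
    · intro l; rw [← d.D_eq_sum]; exact hD i j l
    · intro l; rw [← d.D_eq_sum]; exact hD j i l
    · rw [← d.D_eq_sum, ← d.D_eq_sum]; exact hA i j
  · intro i j x
    refine bracket_zero b hab x a d.Ea d.ga (haE x) (hag x) _ _ _ _ ?_ ?_ ?_
    · intro l; rw [← d.DA_eq_sum]; exact hDA i j l
    · intro l; rw [← d.DA_eq_sum]; exact hDA j i l
    · rw [← d.DA_eq_sum, ← d.DA_eq_sum]; exact hB i j
  · have h1 : (fun i => grad (aff b (q i) (φ i)) x₀) =
        fun i => b.equivFun.symm (fun α => eval w (Data.gr (q i) (φ i) α)) := by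
      funext i
      rw [grad_aff, Basis.equivFun_symm_apply, Fintype.sum_sum_type, add_comm]
      congr 1
      · refine Finset.sum_congr rfl fun j _ => ?_
        simp [hco, hx2, hwx, Data.gr]
      · refine Finset.sum_congr rfl fun j _ => ?_
        simp [hwx, Data.gr]
    rw [h1]
    exact hw.map' (b.equivFun.symm : (κ ⊕ ι → K) →ₗ[K] L) (LinearEquiv.ker _)

end Pool.Agent.H865_shift
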