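import Pool.Agent.H865_shift.Core
import Pool.Agent.H865_shift.GoodSpan
import Pool.Agent.H865_shift.Pairing

/-!
The rank bound for the pencil of brackets of the basic functions.
-/

open MvPolynomial Module
open Pool.Agent.H865_shift.Pairing

set_option linter.unusedSectionVars false

namespace Pool.Agent.H865_shift

variable {K κ ι : Type*} [Field K] [Fintype κ] [Fintype ι]

namespace Data

variable (d : Data K κ ι)

/-- The matrix of the bracket at the point `w + c a`. -/
noncomputable def Mat (c : K) : Matrix (κ ⊕ ι) (κ ⊕ ι) (MvPolynomial κ K)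
  | Sum.inl _, Sum.inl _ => 0
  | Sum.inr i, Sum.inl j => d.E i j + C c * d.Ea i j
  | Sum.inl j, Sum.inr i => - (d.E i j + C c * d.Ea i j)
  | Sum.inr i, Sum.inr k => d.g i k + C c * d.ga i k

/-- The matrix of the bracket at a point. -/
noncomputable def matK (w : κ → K) : Matrix (κ ⊕ ι) (κ ⊕ ι) K :=
  (d.Mat 0).map (eval w)

lemma Mat_map_eval (c : K) (w : κ → K) :
    (d.Mat c).map (eval w) = d.matK (fun j => w j + c * d.a j) := by
  have hlin : ∀ e : κ → K, eval (fun j => w j + c * d.a j) (lin e) =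
      eval w (lin e) + c * ∑ l, e l * d.a l := by
    intro e
    simp only [lin, map_sum, map_mul, eval_C, eval_X, mul_add, Finset.sum_add_distrib,
      Finset.mul_sum]
    congr 1
    exact Finset.sum_congr rfl fun l _ => by ring
  ext x y
  rcases x with j | i <;> rcases y with j' | k
  · simp [matK, Mat]
  · simp [matK, Mat, E, Ea, hlin]
  · simp [matK, Mat, E, Ea, hlin]
  · simp [matK, Mat, g, ga, hlin]

/-- gradient vector of an affine function, at the zero of the complementary coordinates -/
noncomputable def gr (q : ι → MvPolynomial κ K) (φ : MvPolynomial κ K) :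
    κ ⊕ ι → MvPolynomial κ K
  | Sum.inl j => pderiv j φ
  | Sum.inr i => q i

lemma Xd_eq_sum (i : ι) (x : MvPolynomial κ K) : d.Xd i x = ∑ j, d.E i j * pderiv j x := by
  classical
  have h : d.Xd i = ∑ j, d.E i j • (pderiv j : Derivation K (MvPolynomial κ K) (MvPolynomial κ K)) := by
    apply derivation_ext
    intro j
    rw [sum_deriv_apply]
    simp [pderiv_X, Pi.single_apply]
  rw [h, sum_deriv_apply]
  simp

lemma Xa_eq_sum (i : ι) (x : MvPolynomial κ K) : d.Xa i x = ∑ j, d.Ea i j * pderiv j x := by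
  classical
  have h : d.Xa i = ∑ j, d.Ea i j • (pderiv j : Derivation K (MvPolynomial κ K) (MvPolynomial κ K)) := by
    apply derivation_ext
    intro j
    rw [sum_deriv_apply]
    simp [pderiv_X, Pi.single_apply]
  rw [h, sum_deriv_apply]
  simp

lemma bil_Mat (c : K) (x y : κ ⊕ ι → MvPolynomial κ K) :
    bil (d.Mat c) x y =
      (∑ i, ∑ j, x (Sum.inr i) * (d.E i j + C c * d.Ea i j) * y (Sum.inl j)) -
      (∑ i, ∑ j, y (Sum.inr i) * (d.E i j + C c * d.Ea i j) * x (Sum.inl j)) +
      ∑ i, ∑ k, x (Sum.inr i) * y (Sum.inr k) * (d.g i k + C c * d.ga i k) := by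
  simp only [bil, Fintype.sum_sum_type, Mat]
  simp only [mul_zero, zero_mul, Finset.sum_const_zero, zero_add, Finset.sum_add_distrib]
  have e1 : ∑ j, ∑ i, x (Sum.inl j) * -(d.E i j + C c * d.Ea i j) * y (Sum.inr i) =
      - ∑ i, ∑ j, y (Sum.inr i) * (d.E i j + C c * d.Ea i j) * x (Sum.inl j) := by
    rw [Finset.sum_comm, ← Finset.sum_neg_distrib]
    refine Finset.sum_congr rfl fun i _ => ?_
    rw [← Finset.sum_neg_distrib]
    exact Finset.sum_congr rfl fun j _ => by ring
  have e2 : ∑ i, ∑ k, x (Sum.inr i) * (d.g i k + C c * d.ga i k) * y (Sum.inr k) =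
      ∑ i, ∑ k, x (Sum.inr i) * y (Sum.inr k) * (d.g i k + C c * d.ga i k) :=
    Finset.sum_congr rfl fun i _ => Finset.sum_congr rfl fun k _ => by ring
  rw [e1, e2]
  ring

lemma D_eq_sum (q : ι → MvPolynomial κ K) (x : MvPolynomial κ K) :
    d.D q x = ∑ i, ∑ j, q i * d.E i j * pderiv j x := by
  rw [D_apply]
  refine Finset.sum_congr rfl fun i _ => ?_
  rw [Xd_eq_sum, Finset.mul_sum]
  exact Finset.sum_congr rfl fun j _ => by ring

lemma DA_eq_sum (q : ι → MvPolynomial κ K) (x : MvPolynomial κ K) :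
    d.DA q x = ∑ i, ∑ j, q i * d.Ea i j * pderiv j x := by
  rw [DA_apply]
  refine Finset.sum_congr rfl fun i _ => ?_
  rw [Xa_eq_sum, Finset.mul_sum]
  exact Finset.sum_congr rfl fun j _ => by ring

lemma bil_gr (c : K) (q q' : ι → MvPolynomial κ K) (φ φ' : MvPolynomial κ K) :
    bil (d.Mat c) (gr q φ) (gr q' φ') =
      (d.D q φ' - d.D q' φ + d.G q q') + C c * (d.DA q φ' - d.DA q' φ + d.GA q q') := by
  rw [bil_Mat, D_eq_sum, D_eq_sum, DA_eq_sum, DA_eq_sum, G, GA]
  simp only [gr]
  have e : ∀ (p : ι → MvPolynomial κ K) (ψ : MvPolynomial κ K),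
      ∑ i, ∑ j, p i * (d.E i j + C c * d.Ea i j) * pderiv j ψ =
      ∑ i, ∑ j, p i * d.E i j * pderiv j ψ + C c * ∑ i, ∑ j, p i * d.Ea i j * pderiv j ψ := by
    intro p ψ
    simp only [Finset.mul_sum]
    rw [← Finset.sum_add_distrib]
    refine Finset.sum_congr rfl fun i _ => ?_
    rw [← Finset.sum_add_distrib]
    exact Finset.sum_congr rfl fun j _ => by ring
  have e' : ∑ i, ∑ k, q i * q' k * (d.g i k + C c * d.ga i k) =
      ∑ i, ∑ k, q i * q' k * d.g i k + C c * ∑ i, ∑ k, q i * q' k * d.ga i k := by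
    simp only [Finset.mul_sum]
    rw [← Finset.sum_add_distrib]
    refine Finset.sum_congr rfl fun i _ => ?_
    rw [← Finset.sum_add_distrib]
    exact Finset.sum_congr rfl fun j _ => by ring
  rw [e, e, e']
  ring

lemma exists_eval_ne {g : MvPolynomial κ K} [Infinite K] (hg : g ≠ 0) : ∃ w : κ → K, eval w g ≠ 0 := by
  by_contra hcon
  push Not at hcon
  apply hg
  apply MvPolynomial.funext
  intro w
  rw [hcon w, map_zero]

/-- The dimension of the generic kernel is bounded below by any uniform bound at points. -/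
lemma nu_le [Infinite K] {nu : ℕ}
    (hnu : ∀ (w : κ → K) (r : ℕ) (h : K), h ≠ 0 → Pair (d.matK w) r h →
      r + nu ≤ Fintype.card κ + Fintype.card ι)
    {k : Type*} [Field k] [Algebra (MvPolynomial κ K) k] [IsFractionRing (MvPolynomial κ K) k]
    (c : K) (Cc : LinearMap.BilinForm k (κ ⊕ ι → k))
    (hCc : ∀ x y, Cc x y = bil ((d.Mat c).map (algebraMap _ k)) x y) :
    nu ≤ finrank k (LinearMap.ker Cc) := by
  obtain ⟨r, x, y, hr, hxy⟩ := exists_pair Cc
  have hP : Pair ((d.Mat c).map (algebraMap (MvPolynomial κ K) k)) r (1 : k) :=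
    ⟨x, y, fun i j => by rw [← hCc, hxy]⟩
  obtain ⟨g, hg, hP'⟩ := hP.descend (O := MvPolynomial κ K) one_ne_zero
  obtain ⟨w, hw⟩ := exists_eval_ne hg
  have h1 := hP'.map (eval w)
  rw [Mat_map_eval] at h1
  have h2 := hnu _ r _ hw h1
  have h3 : finrank k (κ ⊕ ι → k) = Fintype.card κ + Fintype.card ι := by
    rw [Module.finrank_fintype_fun_eq_card, Fintype.card_sum]
  omega

end Data

lemma bil_comp {R : Type*} [CommRing R] {n m : Type*} [Fintype n] [Fintype m]
    (M : Matrix n n R) (D : m → n → R) (x y : m → R) :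
    bil M (fun a => ∑ b, x b * D b a) (fun a => ∑ b, y b * D b a) =
      bil (fun b b' => bil M (D b) (D b')) x y := by
  simp only [bil, Finset.sum_mul, Finset.mul_sum]
  calc ∑ a, ∑ a', ∑ b', ∑ b, x b * D b a * M a a' * (y b' * D b' a')
      = ∑ a, ∑ a', ∑ b, ∑ b', x b * D b a * M a a' * (y b' * D b' a') :=
        Finset.sum_congr rfl fun a _ => Finset.sum_congr rfl fun a' _ => Finset.sum_comm
    _ = ∑ a, ∑ b, ∑ a', ∑ b', x b * D b a * M a a' * (y b' * D b' a') :=
        Finset.sum_congr rfl fun a _ => Finset.sum_comm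
    _ = ∑ b, ∑ a, ∑ a', ∑ b', x b * D b a * M a a' * (y b' * D b' a') := Finset.sum_comm
    _ = ∑ b, ∑ a, ∑ b', ∑ a', x b * D b a * M a a' * (y b' * D b' a') :=
        Finset.sum_congr rfl fun b _ => Finset.sum_congr rfl fun a _ => Finset.sum_comm
    _ = ∑ b, ∑ b', ∑ a, ∑ a', x b * D b a * M a a' * (y b' * D b' a') :=
        Finset.sum_congr rfl fun b _ => Finset.sum_comm
    _ = ∑ b, ∑ b', ∑ a, ∑ a', x b * (D b a * M a a' * D b' a') * y b' :=
        Finset.sum_congr rfl fun b _ => Finset.sum_congr rfl fun b' _ =>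
        Finset.sum_congr rfl fun a _ => Finset.sum_congr rfl fun a' _ => by ring

namespace Sys

open Data

variable {d : Data K κ ι} {T₁ T₀ : Type*} [Fintype T₁] [Fintype T₀] [DecidableEq T₀]
variable (S : Sys d T₁ T₀)

/-- The rank bound. -/
theorem rank_bound [CharZero K] {nu : ℕ}
    (hnu : ∀ (w : κ → K) (r : ℕ) (h : K), h ≠ 0 → Pair (d.matK w) r h →
      r + nu ≤ Fintype.card κ + Fintype.card ι)
    {k : Type*} [Field k] [Algebra (MvPolynomial κ K) k] [IsFractionRing (MvPolynomial κ K) k]
    (hF : ∀ (c : K) (f : ι → MvPolynomial κ K), d.IsShift c f →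
      (fun i => algebraMap (MvPolynomial κ K) k (f i)) ∈
        Submodule.span k (Set.range fun t i => algebraMap (MvPolynomial κ K) k (S.F (Sum.inl t) i)))
    (c : K) {r : ℕ} {h : MvPolynomial κ K} (hh : h ≠ 0)
    (hP : Pair (fun b b' => S.PA b b' + C c * S.PB b b') r h) :
    r + (Fintype.card κ + Fintype.card ι) + nu ≤ 2 * (Fintype.card κ + Fintype.card T₁) := by
  classical
  set alg := algebraMap (MvPolynomial κ K) k with halg
  have hinj : Function.Injective alg := IsFractionRing.injective _ _
  set Fs : Submodule k (ι → k) :=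
    Submodule.span k (Set.range fun t i => alg (S.F (Sum.inl t) i)) with hFs
  set Cc : LinearMap.BilinForm k (κ ⊕ ι → k) := Matrix.toBilin' ((d.Mat c).map alg) with hCc
  have hCbil : ∀ x y, Cc x y = bil ((d.Mat c).map alg) x y := fun x y =>
    (bil_eq_toBilin' _ _ _).symm
  have hnuk := nu_le d hnu c Cc hCbil
  -- the subspace H
  let gH : κ ⊕ T₁ → (κ ⊕ ι → k)
    | Sum.inl j => Pi.single (Sum.inl j) 1
    | Sum.inr t => Sum.elim (fun _ => 0) (fun i => alg (S.F (Sum.inl t) i))
  set H : Submodule k (κ ⊕ ι → k) := Submodule.span k (Set.range gH) with hH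
  have hHdim : finrank k H ≤ Fintype.card κ + Fintype.card T₁ := by
    have := finrank_range_le_card (R := k) gH
    rwa [Fintype.card_sum] at this
  let lift : (ι → k) →ₗ[k] (κ ⊕ ι → k) :=
    { toFun := fun q => Sum.elim (fun _ => 0) q
      map_add' := by
        intro x y; funext a; rcases a with j | i <;> simp
      map_smul' := by
        intro t x; funext a; rcases a with j | i <;> simp }
  have hlift : ∀ q ∈ Fs, lift q ∈ H := by
    intro q hq
    induction hq using Submodule.span_induction with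
    | mem x hx =>
      obtain ⟨t, rfl⟩ := hx
      exact Submodule.subset_span ⟨Sum.inr t, rfl⟩
    | zero => rw [map_zero]; exact H.zero_mem
    | add x y _ _ hx hy => rw [map_add]; exact H.add_mem hx hy
    | smul t x _ hx => rw [map_smul]; exact H.smul_mem t hx
  have hmem : ∀ z : κ ⊕ ι → k, (fun i => z (Sum.inr i)) ∈ Fs → z ∈ H := by
    intro z hz
    have h1 : z = ∑ j, z (Sum.inl j) • (gH (Sum.inl j)) + lift (fun i => z (Sum.inr i)) := by
      funext a
      rcases a with j | i
      · simp [gH, lift, Finset.sum_apply, Pi.single_apply]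
      · simp [gH, lift, Finset.sum_apply, Pi.single_apply]
    rw [h1]
    refine H.add_mem (H.sum_mem fun j _ => H.smul_mem _ (Submodule.subset_span ⟨Sum.inl j, rfl⟩))
      (hlift _ hz)
  have hspanW : ∀ σ ∈ Submodule.span (MvPolynomial κ K) {f | d.IsShift c f},
      (fun i => alg (σ i)) ∈ Fs := by
    intro σ hσ
    induction hσ using Submodule.span_induction with
    | mem x hx => exact hF c x hx
    | zero =>
      convert Fs.zero_mem using 1
      funext i; simp
    | add x y _ _ hx hy =>
      convert Fs.add_mem hx hy using 1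
      funext i; simp
    | smul t x _ hx =>
      convert Fs.smul_mem (alg t) hx using 1
      funext i; simp
  have horth : Cc.orthogonal H ≤ H := by
    intro z hz
    apply hmem
    rw [LinearMap.BilinForm.mem_orthogonal_iff] at hz
    have h1 : ∀ j, ∑ i, z (Sum.inr i) * alg (d.E i j + C c * d.Ea i j) = 0 := by
      intro j
      have h2 := hz (gH (Sum.inl j)) (Submodule.subset_span ⟨Sum.inl j, rfl⟩)
      rw [hCbil] at h2
      simp only [bil, gH, Pi.single_apply, ite_mul, one_mul, zero_mul] at h2
      rw [Finset.sum_comm] at h2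
      simp only [Finset.sum_ite_eq', Finset.mem_univ, if_true, Fintype.sum_sum_type,
        Matrix.map_apply, Mat, map_zero, zero_mul, Finset.sum_const_zero, zero_add, map_neg,
        neg_mul, Finset.sum_neg_distrib, neg_eq_zero] at h2
      rw [← h2]
      exact Finset.sum_congr rfl fun i _ => by ring
    obtain ⟨s, hs, σ, hσ⟩ := clear_denoms (O := MvPolynomial κ K) (F := k)
      (fun (_ : Unit) i => z (Sum.inr i))
    have hσ' : ∀ a, alg (σ () a) = alg s * z (Sum.inr a) := fun a => hσ () a
    have h3 : ∀ j, ∑ i, σ () i * (d.E i j + C c * d.Ea i j) = 0 := by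
      intro j
      apply hinj
      rw [map_sum, map_zero]
      simp only [map_mul alg, hσ']
      have := h1 j
      calc ∑ i, alg s * z (Sum.inr i) * alg (d.E i j + C c * d.Ea i j)
          = alg s * ∑ i, z (Sum.inr i) * alg (d.E i j + C c * d.Ea i j) := by
            rw [Finset.mul_sum]; exact Finset.sum_congr rfl fun i _ => by ring
        _ = 0 := by rw [this, mul_zero]
    obtain ⟨g, hg, hgσ⟩ := exists_mul_mem_span_shift d c (σ ()) h3
    have h4 := hspanW _ hgσ
    have h5 : (fun i => z (Sum.inr i)) = (alg g * alg s)⁻¹ • (fun i => alg ((g • σ ()) i)) := by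
      funext i
      have hg' : alg g ≠ 0 := fun h => hg (hinj (by rw [h, map_zero]))
      have hs' : alg s ≠ 0 := fun h => hs (hinj (by rw [h, map_zero]))
      simp only [Pi.smul_apply, smul_eq_mul, map_mul, hσ']
      field_simp
    rw [h5]
    exact Fs.smul_mem _ h4
  -- reflexivity
  have hrefl : Cc.IsRefl := by
    intro x y hxy
    rw [hCbil] at hxy ⊢
    have : bil ((d.Mat c).map alg) y x = - bil ((d.Mat c).map alg) x y := by
      simp only [bil]
      rw [Finset.sum_comm, ← Finset.sum_neg_distrib]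
      refine Finset.sum_congr rfl fun a _ => ?_
      rw [← Finset.sum_neg_distrib]
      refine Finset.sum_congr rfl fun b _ => ?_
      have : (d.Mat c) b a = - (d.Mat c) a b := by
        rcases a with j | i <;> rcases b with j' | k
        · simp [Mat]
        · simp [Mat]
        · simp [Mat]
        · simp only [Mat]; rw [g_anti, ga_anti]; ring
      simp only [Matrix.map_apply, this, map_neg]; ring
    rw [this, hxy, neg_zero]
  -- the gradient vectors
  let Dv : T₁ ⊕ T₀ → κ ⊕ ι → MvPolynomial κ K := fun b => gr (S.qv b) (S.ph b)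
  have hDv : ∀ b b', bil (d.Mat c) (Dv b) (Dv b') = S.PA b b' + C c * S.PB b b' := fun b b' =>
    bil_gr d c _ _ _ _
  obtain ⟨x, y, hxy⟩ := hP
  have hin : ∀ (x : T₁ ⊕ T₀ → MvPolynomial κ K),
      (fun a => alg (∑ b, x b * Dv b a)) ∈ H := by
    intro x
    apply hmem
    have h1 : (fun i => alg (∑ b, x b * Dv b (Sum.inr i))) =
        ∑ b, alg (x b) • (fun i => alg (S.qv b i)) := by
      funext i
      simp [Dv, gr, Finset.sum_apply]
    rw [h1]
    refine Fs.sum_mem fun b _ => Fs.smul_mem _ ?_
    rcases b with t | u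
    · have h2 : (fun i => alg (S.qv (Sum.inl t) i)) =
          alg (S.δ ^ 2) • (fun i => alg (S.F (Sum.inl t) i)) := by
        funext i; simp [qv]
      rw [h2]
      exact Fs.smul_mem _ (Submodule.subset_span ⟨t, rfl⟩)
    · have h2 : (fun i => alg (S.qv (Sum.inr u) i)) = (0 : ι → k) := by
        funext i; simp [qv]
      rw [h2]
      exact Fs.zero_mem
  have hfin := pair_restrict_le Cc hrefl H horth (h := alg h)
    (fun h0 => hh (hinj (by rw [h0, map_zero])))
    (fun i a => alg (∑ b, x i b * Dv b a)) (fun i a => alg (∑ b, y i b * Dv b a))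
    (fun i => hin _) (fun i => hin _) (by
      intro i j
      rw [hCbil, ← map_bil, bil_comp]
      have h1 : (fun b b' => bil (d.Mat c) (Dv b) (Dv b')) =
          fun b b' => S.PA b b' + C c * S.PB b b' := by
        funext b b'; exact hDv b b'
      rw [h1, hxy i j]
      split_ifs <;> simp)
  have hV : finrank k (κ ⊕ ι → k) = Fintype.card κ + Fintype.card ι := by
    rw [Module.finrank_fintype_fun_eq_card, Fintype.card_sum]
  omega

end Sys

end Pool.Agent.H865_shift
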